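import Mathlib
import Pool.Graph.R_seed8.W437.HC.Period

/-!
# The combinatorics of the powers of the polarization
-/

set_option linter.unusedSectionVars false

namespace Pool.Agent.H841.MS

open Finset Matrix Pool.Agent.W437.HC Equiv

noncomputable section

variable {g : ℕ}

/-- The partner of an index. -/
abbrev pt (x : Fin g ⊕ Fin g) : Fin g ⊕ Fin g := x.swap

theorem Om_eq_zero {a b : Fin g ⊕ Fin g} (h : b ≠ pt a) : Om g ℂ a b = 0 := by
  unfold Om
  rcases a with a | a <;> rcases b with b | b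
  · rfl
  · rw [fromBlocks_apply₁₂, Matrix.one_apply_ne]
    rintro rfl
    exact h rfl
  · rw [fromBlocks_apply₂₁, Matrix.neg_apply, Matrix.one_apply_ne, neg_zero]
    rintro rfl
    exact h rfl
  · rfl

theorem Om_pt_inl (t : Fin g) : Om g ℂ (Sum.inl t) (Sum.inr t) = 1 := by
  unfold Om
  rw [fromBlocks_apply₁₂, Matrix.one_apply_eq]

theorem Om_anti (a b : Fin g ⊕ Fin g) : Om g ℂ b a = -Om g ℂ a b := by
  have h := congrFun (congrFun (Om_transpose (g := g) ℂ) a) b
  rw [Matrix.transpose_apply, Matrix.neg_apply] at h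
  exact h

theorem Om_pt_sq (a : Fin g ⊕ Fin g) : Om g ℂ a (pt a) * Om g ℂ a (pt a) = 1 := by
  rcases a with a | a
  · change Om g ℂ (Sum.inl a) (Sum.inr a) * Om g ℂ (Sum.inl a) (Sum.inr a) = 1
    rw [Om_pt_inl, one_mul]
  · change Om g ℂ (Sum.inr a) (Sum.inl a) * Om g ℂ (Sum.inr a) (Sum.inl a) = 1
    rw [Om_anti (Sum.inl a), Om_pt_inl]
    norm_num

/-- The permutations which preserve the pairs. -/
def Pr (ρ : Perm (Fin g ⊕ Fin g)) : Prop := ∀ x, ρ (pt x) = pt (ρ x)

theorem Pr.mul {ρ π : Perm (Fin g ⊕ Fin g)} (hρ : Pr ρ) (hπ : Pr π) : Pr (ρ * π) := fun x => by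
  rw [Perm.mul_apply, Perm.mul_apply, hπ, hρ]

theorem Pr.inv {ρ : Perm (Fin g ⊕ Fin g)} (hρ : Pr ρ) : Pr ρ⁻¹ := fun x => by
  have h1 : ∀ y, ρ (ρ⁻¹ y) = y := fun y => ρ.apply_symm_apply y
  apply ρ.injective
  rw [h1, hρ, h1]

theorem Pr.flip (t : Fin g) : Pr (Equiv.swap (Sum.inl t) (Sum.inr t) : Perm (Fin g ⊕ Fin g)) := by
  intro x
  rcases x with x | x
  · change Equiv.swap (Sum.inl t) (Sum.inr t) (Sum.inr x) = _
    by_cases h : x = t
    · subst h
      rw [Equiv.swap_apply_right, Equiv.swap_apply_left]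
      rfl
    · rw [Equiv.swap_apply_of_ne_of_ne (by simp) (by simpa using h),
        Equiv.swap_apply_of_ne_of_ne (by simpa using h) (by simp)]
      rfl
  · change Equiv.swap (Sum.inl t) (Sum.inr t) (Sum.inl x) = _
    by_cases h : x = t
    · subst h
      rw [Equiv.swap_apply_right, Equiv.swap_apply_left]
      rfl
    · rw [Equiv.swap_apply_of_ne_of_ne (by simpa using h) (by simp),
        Equiv.swap_apply_of_ne_of_ne (by simp) (by simpa using h)]
      rfl

/-- The signed product. -/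
def SP (ρ : Perm (Fin g ⊕ Fin g)) : ℂ := ((Perm.sign ρ : ℤ) : ℂ) *
  ∏ t : Fin g, Om g ℂ (ρ (Sum.inl t)) (ρ (Sum.inr t))

theorem SP_flip (ρ : Perm (Fin g ⊕ Fin g)) (t : Fin g) :
    SP (ρ * Equiv.swap (Sum.inl t) (Sum.inr t)) = SP ρ := by
  unfold SP
  rw [Perm.sign_mul, Perm.sign_swap (by simp), ← Finset.mul_prod_erase _ _ (Finset.mem_univ t),
    ← Finset.mul_prod_erase univ (fun t => Om g ℂ (ρ (Sum.inl t)) (ρ (Sum.inr t)))
      (Finset.mem_univ t), Perm.mul_apply, Perm.mul_apply, Equiv.swap_apply_left,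
    Equiv.swap_apply_right, Om_anti (ρ (Sum.inl t)) (ρ (Sum.inr t))]
  have h1 : ∏ s ∈ univ.erase t, Om g ℂ ((ρ * Equiv.swap (Sum.inl t) (Sum.inr t)) (Sum.inl s))
      ((ρ * Equiv.swap (Sum.inl t) (Sum.inr t)) (Sum.inr s)) =
      ∏ s ∈ univ.erase t, Om g ℂ (ρ (Sum.inl s)) (ρ (Sum.inr s)) := by
    refine Finset.prod_congr rfl fun s hs => ?_
    have h2 : s ≠ t := Finset.ne_of_mem_erase hs
    rw [Perm.mul_apply, Perm.mul_apply, Equiv.swap_apply_of_ne_of_ne (by simpa using h2) (by simp),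
      Equiv.swap_apply_of_ne_of_ne (by simp) (by simpa using h2)]
  rw [h1]
  push_cast
  ring

theorem SP_eq_one (ρ : Perm (Fin g ⊕ Fin g)) (hρ : Pr ρ) : SP ρ = 1 := by
  classical
  obtain ⟨n, hn⟩ : ∃ n, (univ.filter fun t : Fin g => (ρ (Sum.inl t)).isRight).card = n := ⟨_, rfl⟩
  induction n using Nat.strong_induction_on generalizing ρ with
  | _ n ih =>
  by_cases h0 : ∃ t : Fin g, (ρ (Sum.inl t)).isRight
  · obtain ⟨t, ht⟩ := h0
    rw [← SP_flip ρ t]
    refine ih _ ?_ _ (hρ.mul (Pr.flip t)) rfl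
    rw [← hn]
    refine Finset.card_lt_card (Finset.ssubset_iff_of_subset ?_ |>.2 ⟨t, ?_, ?_⟩)
    · intro s hs
      rw [Finset.mem_filter] at hs ⊢
      refine ⟨Finset.mem_univ s, ?_⟩
      by_cases hst : s = t
      · subst hst
        exact ht
      · have h2 := hs.2
        rw [Perm.mul_apply, Equiv.swap_apply_of_ne_of_ne (by simpa using hst) (by simp)] at h2
        exact h2
    · rw [Finset.mem_filter]
      exact ⟨Finset.mem_univ t, ht⟩
    · rw [Finset.mem_filter, Perm.mul_apply, Equiv.swap_apply_left]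
      rintro ⟨-, h2⟩
      have h3 := hρ (Sum.inl t)
      change ρ (Sum.inr t) = _ at h3
      rw [h3] at h2
      rcases hx : ρ (Sum.inl t) with x | x
      · rw [hx] at ht
        exact absurd ht (by simp)
      · rw [hx] at h2
        exact absurd h2 (by simp)
  · push Not at h0
    have h1 : ∀ t : Fin g, ∃ s : Fin g, ρ (Sum.inl t) = Sum.inl s := by
      intro t
      rcases hx : ρ (Sum.inl t) with x | x
      · exact ⟨x, rfl⟩
      · exact absurd (by rw [hx]; rfl) (h0 t)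
    choose s hs using h1
    have hs' : ∀ t, ρ (Sum.inr t) = Sum.inr (s t) := by
      intro t
      have h2 := hρ (Sum.inl t)
      rw [hs] at h2
      exact h2
    have hinj : Function.Injective s := by
      intro a b hab
      have h2 : ρ (Sum.inl a) = ρ (Sum.inl b) := by rw [hs, hs, hab]
      exact Sum.inl_injective (ρ.injective h2)
    let π : Perm (Fin g) := Equiv.ofBijective s (Finite.injective_iff_bijective.1 hinj)
    have hρπ : ρ = Equiv.Perm.sumCongr π π := by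
      ext x
      rcases x with x | x
      · rw [hs]
        rfl
      · rw [hs']
        rfl
    unfold SP
    rw [Finset.prod_eq_one fun t _ => ?_, mul_one, hρπ, Perm.sign_sumCongr]
    · have h3 : Perm.sign π * Perm.sign π = 1 := Int.units_mul_self _
      rw [h3]
      norm_num
    · rw [hs, hs', Om_pt_inl]

theorem exists_Pr (a : Fin g ⊕ Fin g) (t₀ : Fin g) : ∃ π : Perm (Fin g ⊕ Fin g), Pr π ∧
    π (Sum.inl t₀) = a := by
  have key : ∀ s : Fin g, Pr (Equiv.Perm.sumCongr (Equiv.swap t₀ s) (Equiv.swap t₀ s) :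
      Perm (Fin g ⊕ Fin g)) := by
    rintro s (x | x) <;> rfl
  rcases a with s | s
  · refine ⟨_, key s, ?_⟩
    change Sum.inl (Equiv.swap t₀ s t₀) = _
    rw [Equiv.swap_apply_left]
  · refine ⟨(Equiv.swap (Sum.inl s) (Sum.inr s)) * _, (Pr.flip s).mul (key s), ?_⟩
    rw [Perm.mul_apply]
    change Equiv.swap (Sum.inl s) (Sum.inr s) (Sum.inl (Equiv.swap t₀ s t₀)) = _
    rw [Equiv.swap_apply_left, Equiv.swap_apply_left]

open Classical in
/-- The coefficients. -/
def Zab (t₀ : Fin g) (a b : Fin g ⊕ Fin g) (ρ : Fin g ⊕ Fin g → Fin g ⊕ Fin g) : ℂ :=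
  if ρ (Sum.inl t₀) = a ∧ ρ (Sum.inr t₀) = b then
    ∏ t : {t // t ≠ t₀}, Om g ℂ (ρ (Sum.inl t)) (ρ (Sum.inr t)) else 0

theorem Zab_zero {t₀ : Fin g} {a b : Fin g ⊕ Fin g} {ρ : Perm (Fin g ⊕ Fin g)}
    (h : Zab t₀ a b ρ ≠ 0) : Pr ρ ∧ ρ (Sum.inl t₀) = a ∧ b = pt a := by
  classical
  unfold Zab at h
  have h1 : ρ (Sum.inl t₀) = a ∧ ρ (Sum.inr t₀) = b := by
    by_contra hcon
    rw [if_neg hcon] at h
    exact h rfl
  rw [if_pos h1] at h
  have h2 : ∀ t : Fin g, t ≠ t₀ → ρ (Sum.inr t) = pt (ρ (Sum.inl t)) := by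
    intro t ht
    by_contra hcon
    exact h (Finset.prod_eq_zero (Finset.mem_univ (⟨t, ht⟩ : {t // t ≠ t₀})) (Om_eq_zero hcon))
  have h2' : ∀ t : Fin g, t ≠ t₀ → ρ (Sum.inl t) = pt (ρ (Sum.inr t)) := by
    intro t ht
    rw [h2 t ht]
    exact (Sum.swap_swap _).symm
  have h3 : ρ (Sum.inr t₀) = pt (ρ (Sum.inl t₀)) := by
    obtain ⟨z, hz⟩ := ρ.surjective (pt (ρ (Sum.inl t₀)))
    have h4 : ρ (Sum.inl t₀) = pt (ρ z) := by
      rw [hz]
      exact (Sum.swap_swap _).symm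
    rcases z with z | z
    · by_cases hzt : z = t₀
      · subst hzt
        rcases hx : ρ (Sum.inl z) with x | x
        · rw [hx] at hz
          exact absurd hz (by simp [pt])
        · rw [hx] at hz
          exact absurd hz (by simp [pt])
      · have h5 := h2 z hzt
        rw [← h4] at h5
        have h6 := ρ.injective h5
        exact absurd h6 (by simp)
    · by_cases hzt : z = t₀
      · subst hzt
        exact hz
      · have h5 := h2' z hzt
        rw [← h4] at h5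
        exact absurd (Sum.inl_injective (ρ.injective h5)) hzt
  refine ⟨?_, h1.1, by rw [← h1.2, h3, h1.1]⟩
  rintro (x | x)
  · by_cases hx : x = t₀
    · rw [hx]
      exact h3
    · exact h2 x hx
  · by_cases hx : x = t₀
    · rw [hx]
      change ρ (Sum.inl t₀) = _
      rw [h3]
      exact (Sum.swap_swap _).symm
    · exact h2' x hx

theorem prod_split (t₀ : Fin g) (f : Fin g → ℂ) :
    ∏ t, f t = f t₀ * ∏ t : {t // t ≠ t₀}, f t := by
  rw [← Finset.mul_prod_erase _ _ (Finset.mem_univ t₀)]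
  congr 1
  refine Finset.prod_subtype _ (fun x => ?_) f
  rw [Finset.mem_erase]
  exact ⟨fun h => h.1, fun h => ⟨h, Finset.mem_univ x⟩⟩

open Classical in
/-- The contraction constants. -/
theorem comb (t₀ : Fin g) : ∃ c : ℂ, c ≠ 0 ∧ ∀ a b : Fin g ⊕ Fin g,
    ∑ ρ : Perm (Fin g ⊕ Fin g), ((Perm.sign ρ : ℤ) : ℂ) * Zab t₀ a b ρ = c * Om g ℂ a b := by
  let G : Fin g ⊕ Fin g → Finset (Perm (Fin g ⊕ Fin g)) := fun a =>
    univ.filter fun ρ => Pr ρ ∧ ρ (Sum.inl t₀) = a
  have hG : ∀ a, (G a).card = (G (Sum.inl t₀)).card := by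
    intro a
    obtain ⟨π, hπ, hπa⟩ := exists_Pr a t₀
    symm
    refine Finset.card_bij (fun ρ _ => π * ρ) ?_ ?_ ?_
    · intro ρ hρ
      rw [Finset.mem_filter] at hρ ⊢
      exact ⟨Finset.mem_univ _, hπ.mul hρ.2.1, by rw [Perm.mul_apply, hρ.2.2, hπa]⟩
    · intro ρ _ ρ' _ h
      exact mul_left_cancel h
    · intro ρ hρ
      rw [Finset.mem_filter] at hρ
      refine ⟨π⁻¹ * ρ, ?_, mul_inv_cancel_left π ρ⟩
      rw [Finset.mem_filter]
      refine ⟨Finset.mem_univ _, hπ.inv.mul hρ.2.1, ?_⟩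
      rw [Perm.mul_apply, hρ.2.2, ← hπa]
      exact π.symm_apply_apply _
  refine ⟨((G (Sum.inl t₀)).card : ℂ), ?_, fun a b => ?_⟩
  · have h1 : (1 : Perm (Fin g ⊕ Fin g)) ∈ G (Sum.inl t₀) := by
      rw [Finset.mem_filter]
      exact ⟨Finset.mem_univ _, fun x => rfl, rfl⟩
    exact_mod_cast (Finset.card_pos.2 ⟨_, h1⟩).ne'
  · by_cases hb : b = pt a
    swap
    · rw [Om_eq_zero hb, mul_zero]
      refine Finset.sum_eq_zero fun ρ _ => ?_
      have h1 : Zab t₀ a b ρ = 0 := by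
        by_contra hcon
        exact hb (Zab_zero hcon).2.2
      rw [h1, mul_zero]
    · rw [← Finset.sum_subset (Finset.subset_univ (G a))]
      · have h1 : ∀ ρ ∈ G a, ((Perm.sign ρ : ℤ) : ℂ) * Zab t₀ a b ρ = Om g ℂ a b := by
          intro ρ hρ
          rw [Finset.mem_filter] at hρ
          have h2 : ρ (Sum.inr t₀) = b := by
            have h3 := hρ.2.1 (Sum.inl t₀)
            change ρ (Sum.inr t₀) = _ at h3
            rw [h3, hρ.2.2, hb]
          have h4 := SP_eq_one ρ hρ.2.1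
          unfold SP at h4
          rw [prod_split t₀, hρ.2.2, h2] at h4
          unfold Zab
          rw [if_pos ⟨hρ.2.2, h2⟩]
          have h5 := Om_pt_sq a
          rw [← hb] at h5
          linear_combination (Om g ℂ a b) * h4 - ((Perm.sign ρ : ℤ) : ℂ) *
            (∏ t : {t // t ≠ t₀}, Om g ℂ (ρ (Sum.inl t)) (ρ (Sum.inr t))) * h5
        rw [Finset.sum_congr rfl h1, Finset.sum_const, hG a, nsmul_eq_mul]
      · intro ρ _ hρ
        have h1 : Zab t₀ a b ρ = 0 := by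
          by_contra hcon
          apply hρ
          rw [Finset.mem_filter]
          exact ⟨Finset.mem_univ _, (Zab_zero hcon).1, (Zab_zero hcon).2.1⟩
        rw [h1, mul_zero]

end

end Pool.Agent.H841.MS
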