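import Pool.Agent.H841.MS.Maps
import Pool.Graph.R_pool_sql_team_seeded_63374d34.N178.HW.PL
import Pool.Graph.R_pool_sql_team_seeded_63374d34.N400.HX.Red
import Pool.Graph.R_pool_sql_team_seeded_63374d34.N995.Facs
import Pool.Graph.R_pool_sql_team_seeded_63374d34.N178.HW.Fac
import Pool.Graph.R_pool_sql_team_seeded_63374d34.N507.GHC3.Asm
import Pool.Graph.R_pool_sql_team_seeded_63374d34.N507.GHC3.Zero
import Pool.Graph.R_pool_sql_team_seeded_63374d34.N306.GH.Mult
import Pool.Graph.R_pool_sql_team_seeded_63374d34.N178.HX.RATG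

/-!
# The generalized Hodge conjecture from the Hodge conjecture
-/

set_option linter.unusedSectionVars false

namespace Pool.Agent.H841.MS

open Finset Matrix Module Pool.Agent.W437.HC Pool.Agent.W437.HD Pool.Agent.V1168.GH
open Pool.Agent.TH504.CB Pool.Agent.Y90 Pool.Agent.R915
open Pool.Agent.W548.Odd hiding cv
open Pool.Agent.N178.HW (LvC pl pl_pl pl_one act_pl evalF_pl exists_pl_ne prodAV factor_sub
  factor_prod)
open Pool.Agent.N178.HX (LvG HasMapsG GHC)

open Pool.Agent.W437.HP (cK cK_mul cK_one cK_sum)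

noncomputable section

section transfer

variable {B B' : Type} [Fintype B] [DecidableEq B] [Fintype B'] [DecidableEq B']

/-- The transfer of the maps to another vector space. -/
theorem transfer {D : Matrix B B ℂ} {D' : Matrix B' B' ℂ} {K : Type} [Fintype K]
    (R : K → Matrix B' B ℂ) (S : K → Matrix B B' ℂ) (hRS : ∑ k, R k * S k = 1)
    (hR : ∀ k (σ : ℂ ≃+* ℂ), R k * D.map σ = D'.map σ * R k) (r : Matrix B B' ℂ)
    (s : Matrix B' B ℂ) (hrs : r * s = 1) (hr : ∀ σ : ℂ ≃+* ℂ, r * D'.map σ = D.map σ * r)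
    {n i : ℕ} (h : HasMapsG D n i) : HasMapsG D' n i := by
  classical
  intro U hne hst hlev
  obtain ⟨u₀, hu₀, hu₀'⟩ := (Submodule.ne_bot_iff U).1 hne
  obtain ⟨t, ht⟩ := exists_pl_ne hRS hu₀'
  let P : ((Fin i → B') → ℂ) →ₗ[ℂ] ((Fin i → B) → ℂ) := pl fun k => R (t k)
  have hP : ∀ (σ : ℂ ≃+* ℂ) u, act (D.map σ) (P u) = P (act (D'.map σ) u) := fun σ u =>
    act_pl (fun k => hR (t k) σ) u
  have hself : ∀ σ : ℂ ≃+* ℂ, D'.map σ ∈ LA {D'} := fun σ =>
    LA_aut (σ : ℂ →+* ℂ) (LA_self (Set.mem_singleton D'))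
  have hst' : Stb (LA {D}) (U.map P) := by
    let L₀ : Submodule ℂ (Matrix B B ℂ) :=
      { carrier := {X | ∀ v ∈ U.map P, act X v ∈ U.map P}
        add_mem' := fun {X Y} hX hY v hv => by
          rw [act_add_left]
          exact Submodule.add_mem _ (hX v hv) (hY v hv)
        zero_mem' := fun v _ => by
          rw [act_zero_left]
          exact Submodule.zero_mem _
        smul_mem' := fun a X hX v hv => by
          rw [act_smul_left]
          exact Submodule.smul_mem _ _ (hX v hv) }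
    have h1 : LA {D} ≤ L₀ := by
      refine LA_le_of_conj (fun d hd σ => ?_) fun X hX Y hY v hv => ?_
      · rw [Set.mem_singleton_iff.1 hd]
        rintro _ ⟨u, hu, rfl⟩
        exact ⟨_, hst _ (hself σ) u hu, (hP σ u).symm⟩
      · rw [← act_comm]
        exact Submodule.sub_mem _ (hY _ (hX v hv)) (hX _ (hY v hv))
    exact fun X hX v hv => h1 hX v hv
  have hlev' : LvG D n (U.map P) := by
    rintro σ _ ⟨u, hu, rfl⟩ x ε hε hx hlt
    change evalF (pl (fun k => R (t k)) u) x = 0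
    rw [evalF_pl]
    refine hlev σ u hu _ ε hε (fun k => ?_) hlt
    rw [mulVec_mulVec, ← hR, ← mulVec_mulVec, hx, mulVec_smul]
  obtain ⟨κ', i1, i2, hc, he, φ, hφ, _, ⟨u, hu, rfl⟩, hφu⟩ := h (U.map P)
    ((Submodule.ne_bot_iff _).2 ⟨P u₀, ⟨u₀, hu₀, rfl⟩, ht⟩) hst' hlev'
  let Q : ((κ' → B) → ℂ) →ₗ[ℂ] ((κ' → B') → ℂ) := pl fun _ => r
  refine ⟨κ', i1, i2, hc, he, Q.comp (φ.comp P), ?_, u, hu, fun h0 => hφu ?_⟩
  · let L₀ : Submodule ℂ (Matrix B' B' ℂ) :=
      { carrier := {X | ∀ u, Q (φ (P (act X u))) = act X (Q (φ (P u)))}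
        add_mem' := fun {X Y} hX hY u => by
          rw [act_add_left, act_add_left, map_add, map_add, map_add, hX, hY]
        zero_mem' := fun v => by
          rw [act_zero_left, act_zero_left, map_zero, map_zero, map_zero]
        smul_mem' := fun a X hX u => by
          rw [act_smul_left, act_smul_left, map_smul, map_smul, map_smul, hX] }
    have h1 : LA {D'} ≤ L₀ := by
      refine LA_le_of_conj (fun d hd σ => ?_) fun X hX Y hY u => ?_
      · rw [Set.mem_singleton_iff.1 hd]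
        intro u
        have e1 : D.map σ ∈ LA {D} := LA_aut (σ : ℂ →+* ℂ) (LA_self (Set.mem_singleton D))
        have e2 : ∀ w, act (D'.map σ) (Q w) = Q (act (D.map σ) w) := fun w =>
          act_pl (fun _ => hr σ) w
        rw [← hP, hφ _ e1, e2]
      · rw [← act_comm, map_sub, map_sub, map_sub, ← act_comm, hX, hY, hY, hX]
    exact fun X hX u => h1 hX u
  · have e1 : pl (fun _ => s) (Q (φ (P u))) = φ (P u) := by
      change pl (fun _ => s) (pl (fun _ => r) _) = _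
      rw [pl_pl, hrs, pl_one]
    rw [← e1]
    change pl (fun _ => s) ((Q.comp (φ.comp P)) u) = 0
    rw [h0, map_zero]

end transfer

/-- The frame given by the factors. -/
theorem exists_fr (A X : AV) (hX : ∀ Y, IsFactor Y X → IsFactor Y A) :
    ∃ (K : Type) (_ : Fintype K) (_ : DecidableEq K) (a : K → A.H →ₗ[ℚ] X.H)
      (b : K → X.H →ₗ[ℚ] A.H), (∀ k, IsHom A X (a k)) ∧ (∀ k, IsHom X A (b k)) ∧
      ∀ x, ∑ k, a k (b k x) = x := by
  obtain ⟨G, Z, h, A', hC'⟩ := exists_ppav (AV.isAV X)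
  obtain ⟨ι, _, _, g, Z', E, F, h1, h2, h3, h4, h5, h6, h7, h8⟩ :=
    decomposes G G Z le_rfl h.symm h.pos
  have hfac : ∀ i, Fac Z (Z' i) (E i) (F i) := by
    intro i
    refine ⟨h4 i, de_of_JR (h7 i), fd_of_JR ?_⟩
    have h12 : JR Z = ∑ j, JR Z * cK ℝ (E j) * cK ℝ (F j) := by
      have h13 : JR Z = JR Z * cK ℝ (∑ i, E i * F i) := by rw [h6, cK_one, Matrix.mul_one]
      conv_lhs => rw [h13, cK_sum, Matrix.mul_sum]
      refine Finset.sum_congr rfl fun j _ => ?_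
      rw [cK_mul, Matrix.mul_assoc]
    rw [h12, Matrix.mul_sum, Finset.sum_eq_single i]
    · rw [h7 i, ← Matrix.mul_assoc, ← Matrix.mul_assoc, ← cK_mul, h4 i, cK_one, Matrix.one_mul]
    · intro j _ hj
      rw [h7 j, ← Matrix.mul_assoc, ← Matrix.mul_assoc, ← cK_mul, h5 i j hj.symm,
        Pool.Agent.W437.HP.cK_zero, Matrix.zero_mul, Matrix.zero_mul]
    · intro hi'
      exact absurd (Finset.mem_univ i) hi'
  have hPM : ∀ i, PM (Z' i) := fun i => ⟨h1 i, h2 i⟩
  have hsim : ∀ i, IsSimple (AVZ (hPM i)) := fun i => simple_of (g i) (hPM i) (h3 i) (h8 i)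
  -- the maps to and from the factors
  have hE : ∀ i, IsHom (AVZ (hPM i)) X (A'.symm.toLinearMap.comp (Matrix.mulVecLin (E i))) := by
    intro i
    obtain ⟨Ψ₁, h₁⟩ := (hPM i).cht.hom hC' (R := E i)
      (by rw [DJ_JR, DJ_JR]; exact (hfac i).de.symm)
    exact ⟨Ψ₁, fun v => h₁ v⟩
  have hF : ∀ i, IsHom X (AVZ (hPM i)) ((Matrix.mulVecLin (F i)).comp A'.toLinearMap) := by
    intro i
    obtain ⟨Ψ₂, h₂⟩ := hC'.hom (hPM i).cht (R := F i)
      (by rw [DJ_JR, DJ_JR]; exact (hfac i).fd)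
    refine ⟨Ψ₂, fun v => ?_⟩
    have h3 := h₂ (A' v)
    have h4 : (X.per.comp A'.symm.toLinearMap.toAddMonoidHom) (A' v) = X.per v := by
      change X.per (A'.symm (A' v)) = X.per v
      rw [LinearEquiv.symm_apply_apply]
    rwa [h4] at h3
  have hinj : ∀ i, Function.Injective (A'.symm.toLinearMap.comp (Matrix.mulVecLin (E i))) := by
    intro i x y hxy
    have e2 : E i *ᵥ x = E i *ᵥ y := A'.symm.injective hxy
    have e3 := congrArg (fun v => F i *ᵥ v) e2
    beta_reduce at e3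
    rw [mulVec_mulVec, mulVec_mulVec, h4 i, one_mulVec, one_mulVec] at e3
    exact e3
  have hfa : ∀ i, IsFactor (AVZ (hPM i)) A := fun i => hX _ ⟨hsim i, _, hE i, hinj i⟩
  choose j hj hji using fun i => (hfa i).2
  choose r hr hri using fun i => Pool.Agent.N400.HX.exists_retract (j i) (hj i) (hji i)
  refine ⟨ι, inferInstance, inferInstance,
    fun i => (A'.symm.toLinearMap.comp (Matrix.mulVecLin (E i))).comp (r i),
    fun i => (j i).comp ((Matrix.mulVecLin (F i)).comp A'.toLinearMap),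
    fun i => Pool.Agent.N178.HW.hom_comp (hr i) (hE i),
    fun i => Pool.Agent.N178.HW.hom_comp (hF i) (hj i), fun x => ?_⟩
  have e1 : ∀ i, (A'.symm.toLinearMap.comp (Matrix.mulVecLin (E i))).comp (r i)
      ((j i).comp ((Matrix.mulVecLin (F i)).comp A'.toLinearMap) x) =
      A'.symm ((E i * F i) *ᵥ A' x) := by
    intro i
    change A'.symm (E i *ᵥ (r i (j i (F i *ᵥ A' x)))) = _
    rw [hri, mulVec_mulVec]
  rw [Finset.sum_congr rfl fun i _ => e1 i, ← map_sum, ← sum_mulVec, h6, one_mulVec,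
    LinearEquiv.symm_apply_apply]

section geo

variable {g g' : ℕ} {Z : Matrix (Fin g) (Fin g) ℂ} {Z' : Matrix (Fin g') (Fin g') ℂ}

/-- The matrix of a homomorphism. -/
theorem hom_mat (h : PM Z) (h' : PM Z') {a : (AVZ h).H →ₗ[ℚ] (AVZ h').H}
    (ha : IsHom (AVZ h) (AVZ h') a) (σ : ℂ ≃+* ℂ) :
    cK ℂ (LinearMap.toMatrix' (R := ℚ) (m := Fin g' ⊕ Fin g') (n := Fin g ⊕ Fin g) a) *
      (DZ Z).map σ = (DZ Z').map σ *
      cK ℂ (LinearMap.toMatrix' (R := ℚ) (m := Fin g' ⊕ Fin g') (n := Fin g ⊕ Fin g) a) := by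
  obtain ⟨Ψ, hΨ⟩ := ha
  have h1 := Cht_conv h.cht h'.cht (R := LinearMap.toMatrix' (R := ℚ) (m := Fin g' ⊕ Fin g')
    (n := Fin g ⊕ Fin g) a) Ψ fun v => by
      rw [LinearMap.toMatrix'_mulVec]
      exact hΨ v
  rw [DJ_JR, DJ_JR] at h1
  have h2 := congrArg (fun M => M.map σ) h1
  simp only [Matrix.map_mul, cK_aut] at h2
  exact h2

variable {I J : Type} [Fintype I] [Fintype J] {bl : I → J}
  {ρ : I → Matrix (Fin 2) (Fin 2) ℂ →ₗ[ℂ] Matrix (Fin g ⊕ Fin g) (Fin g ⊕ Fin g) ℂ}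
  {p : J → Matrix (Fin g ⊕ Fin g) (Fin g ⊕ Fin g) ℂ}

/-- The generalized Hodge conjecture from the Hodge conjecture. -/
theorem ghc_of_hodge (h : PM Z) (hms : IsMS (DZ Z) bl ρ p) (𝒜 : Sys)
    (hall : ∀ X : AV, (∀ Y, IsFactor Y X → IsFactor Y (AVZ h)) → 𝒜.AllHodge X) (X : AV)
    (hX : ∀ Y, IsFactor Y X → IsFactor Y (AVZ h)) : GHC 𝒜 X := by
  refine Pool.Agent.N507.GHC3.t_ASMG Pool.Agent.N306.GH.t_MULT Pool.Agent.N178.HX.RATG.t_RATG 𝒜
    (fun X => ∀ Y, IsFactor Y X → IsFactor Y (AVZ h))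
    (fun X Y f hf hi hY W hW => hY W (factor_sub hf hi hW))
    (fun X Y hX hY W hW => (factor_prod hW).elim (hX W) (hY W)) hall (AVZ h) (fun Y hY => hY)
    ?_ X hX
  intro g' Z' h' f hf hinj hQ n j
  obtain ⟨K, _, _, a, b, ha, hb, hab⟩ := exists_fr (AVZ h) (AVZ h') hQ
  obtain ⟨r, hr, hrf⟩ := Pool.Agent.N400.HX.exists_retract f hf hinj
  let tm : ∀ {m n : ℕ}, ((Fin n ⊕ Fin n → ℚ) →ₗ[ℚ] (Fin m ⊕ Fin m → ℚ)) →
    Matrix (Fin m ⊕ Fin m) (Fin n ⊕ Fin n) ℚ := fun f => LinearMap.toMatrix' f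
  refine transfer (D := DZ Z) (fun k => cK ℂ (tm (a k))) (fun k => cK ℂ (tm (b k))) ?_
    (fun k σ => hom_mat h h' (ha k) σ) (cK ℂ (tm r)) (cK ℂ (tm f)) ?_
    (fun σ => hom_mat h' h hr σ) (hms.maps n j)
  · rw [← cK_one, ← Finset.sum_congr rfl fun k _ => cK_mul (K := ℂ) (tm (a k)) (tm (b k)), ← cK_sum]
    congr 1
    have e1 : ∀ k, tm (a k) * tm (b k) = LinearMap.toMatrix' (R := ℚ) ((a k).comp (b k)) := fun k =>
      (LinearMap.toMatrix'_comp (a k) (b k)).symm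
    rw [Finset.sum_congr rfl fun k _ => e1 k, ← map_sum]
    have e2 : ∑ k, (a k).comp (b k) = LinearMap.id := by
      refine LinearMap.ext fun x => ?_
      rw [LinearMap.sum_apply]
      exact hab x
    rw [e2]
    exact LinearMap.toMatrix'_id
  · rw [← cK_mul, ← cK_one]
    congr 1
    have e1 : tm r * tm f = LinearMap.toMatrix' (R := ℚ) (r.comp f) :=
      (LinearMap.toMatrix'_comp r f).symm
    rw [e1]
    have e2 : r.comp f = LinearMap.id := LinearMap.ext hrf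
    rw [e2]
    exact LinearMap.toMatrix'_id

end geo

end

end Pool.Agent.H841.MS
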