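import Pool.Agent.H841.MS.Inv
import Pool.Agent.H841.MS.Comb
import Pool.Agent.H841.MS.Trans

/-!
# Tensors whose alternations belong to a system of classes
-/

set_option linter.unusedSectionVars false

namespace Pool.Agent.H841.MS

open Finset Matrix Module Pool.Agent.W437.HC Pool.Agent.W437.HD Pool.Agent.V1168.GH
open Pool.Agent.TH504.CB Pool.Agent.Y90 Pool.Agent.R915
open Pool.Agent.W548.Odd hiding cv
open Pool.Agent.H204R3.CM (IsHodge)
open Pool.Agent.N306.GH (FQ FQ_apply)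
open Pool.Agent.N178.HW (prodAV)
open Equiv (Perm)

noncomputable section

section basics

variable {B : Type} [Fintype B] [DecidableEq B]

theorem evalF_rnm {κ κ' : Type} [Fintype κ] [DecidableEq κ] [Fintype κ'] [DecidableEq κ']
    (e : κ ≃ κ') (u : Tn κ B) (x : κ' → B → ℂ) : evalF (rnm e u) x = evalF u (x ∘ e) := by
  unfold evalF rnm
  rw [← (Equiv.arrowCongr e (Equiv.refl B)).sum_comp]
  refine Finset.sum_congr rfl fun I _ => ?_
  have h1 : ((Equiv.arrowCongr e (Equiv.refl B)) I) ∘ e = I := by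
    funext k
    simp
  rw [h1]
  congr 1
  rw [← e.prod_comp]
  refine Finset.prod_congr rfl fun k _ => ?_
  have h2 := congrFun h1 k
  rw [Function.comp_apply] at h2
  rw [h2]
  rfl

theorem evalF_prd {κ κ' : Type} [Fintype κ] [DecidableEq κ] [Fintype κ'] [DecidableEq κ']
    (u : Tn κ B) (v : Tn κ' B) (x : κ ⊕ κ' → B → ℂ) :
    evalF (prd u v) x = evalF u (x ∘ Sum.inl) * evalF v (x ∘ Sum.inr) := by
  unfold evalF prd
  rw [Finset.sum_mul_sum, ← (Equiv.sumArrowEquivProdArrow κ κ' B).symm.sum_comp,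
    Fintype.sum_prod_type]
  refine Finset.sum_congr rfl fun I _ => Finset.sum_congr rfl fun I' _ => ?_
  rw [Fintype.prod_sum_type]
  change u I * v I' * ((∏ k, x (Sum.inl k) (I k)) * ∏ k, x (Sum.inr k) (I' k)) =
    (u I * ∏ k, x (Sum.inl k) (I k)) * (v I' * ∏ k, x (Sum.inr k) (I' k))
  ring

theorem evalF_single {κ : Type} [Fintype κ] [DecidableEq κ] (u : Tn κ B) (I : κ → B) :
    evalF u (fun k => Pi.single (I k) 1) = u I := by
  unfold evalF
  rw [Finset.sum_eq_single I]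
  · have h1 : ∏ k, (Pi.single (I k) 1 : B → ℂ) (I k) = 1 :=
      Finset.prod_eq_one fun k _ => Pi.single_eq_same _ _
    rw [h1, mul_one]
  · intro I' _ hI'
    obtain ⟨k, hk⟩ := Function.ne_iff.1 hI'
    rw [Finset.prod_eq_zero (Finset.mem_univ k) (Pi.single_eq_of_ne hk _), mul_zero]
  · intro h0
    exact absurd (Finset.mem_univ _) h0

theorem evalF_zero_arg {κ : Type} [Fintype κ] [DecidableEq κ] (u : Tn κ B) (x : κ → B → ℂ)
    (k : κ) (hk : x k = 0) : evalF u x = 0 := by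
  unfold evalF
  refine Finset.sum_eq_zero fun I _ => ?_
  rw [Finset.prod_eq_zero (Finset.mem_univ k), mul_zero]
  rw [hk]
  rfl

theorem evalF_sum {κ : Type} [Fintype κ] [DecidableEq κ] {ι : Type} (s : Finset ι)
    (f : ι → Tn κ B) (x : κ → B → ℂ) : evalF (∑ i ∈ s, f i) x = ∑ i ∈ s, evalF (f i) x :=
  map_sum (evL x) f s

/-- The sums over the permutations of a disjoint union. -/
theorem perm_split {κ κ' : Type} [Fintype κ] [DecidableEq κ] [Fintype κ'] [DecidableEq κ']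
    (f : Perm (κ ⊕ κ') → ℂ) (f₁ : Perm κ → ℂ) (f₂ : Perm κ' → ℂ)
    (h0 : ∀ σ a c, σ (Sum.inl a) = Sum.inr c → f σ = 0)
    (h1 : ∀ ρ ρ', f (Equiv.Perm.sumCongr ρ ρ') = f₁ ρ * f₂ ρ') :
    ∑ σ, ((Perm.sign σ : ℤ) : ℂ) * f σ =
      (∑ ρ, ((Perm.sign ρ : ℤ) : ℂ) * f₁ ρ) * ∑ ρ', ((Perm.sign ρ' : ℤ) : ℂ) * f₂ ρ' := by
  classical
  symm
  rw [Finset.sum_mul_sum]
  convert Finset.sum_subset (M := ℂ)
    (Finset.subset_univ ((Equiv.Perm.sumCongrHom κ κ').range : Set (Equiv.Perm (κ ⊕ κ'))).toFinset)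
    (f := fun σ : Equiv.Perm (κ ⊕ κ') => ((Equiv.Perm.sign σ : ℤ) : ℂ) * f σ) ?_
  · rw [← Finset.sum_product', Finset.univ_product_univ]
    refine Finset.sum_nbij (fun σ ↦ σ.fst.sumCongr σ.snd) ?_ ?_ ?_ ?_
    · intro σ₁₂ _
      rw [Set.mem_toFinset]
      exact ⟨σ₁₂, rfl⟩
    · intro σ₁ _ σ₂ _
      dsimp only
      intro h
      have h2 : ∀ x, Equiv.Perm.sumCongr σ₁.fst σ₁.snd x = Equiv.Perm.sumCongr σ₂.fst σ₂.snd x :=
        DFunLike.congr_fun h
      simp only [Sum.map_inr, Sum.map_inl, Equiv.Perm.sumCongr_apply, Sum.forall, Sum.inl.injEq,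
        Sum.inr.injEq] at h2
      ext x
      · exact h2.left x
      · exact h2.right x
    · intro σ hσ
      rw [Finset.mem_coe, Set.mem_toFinset] at hσ
      obtain ⟨σ₁₂, hσ₁₂⟩ := hσ
      use σ₁₂
      rw [← hσ₁₂]
      simp
    · rintro ⟨ρ, ρ'⟩ _
      dsimp only
      rw [h1, Equiv.Perm.sign_sumCongr]
      push_cast
      ring
  · rintro σ - hσn
    have h5 : ¬∀ x, ∃ y, Sum.inl y = σ (Sum.inl x) := by
      rw [Set.mem_toFinset] at hσn
      simpa only [Set.MapsTo, Set.mem_range, forall_exists_index, forall_apply_eq_imp_iff] using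
        mt Equiv.Perm.mem_sumCongrHom_range_of_perm_mapsTo_inl hσn
    obtain ⟨a, ha⟩ := not_forall.mp h5
    rcases hx : σ (Sum.inl a) with a2 | c
    · have hn := (not_exists.mp ha) a2
      exact absurd hx.symm hn
    · rw [h0 σ a c hx, mul_zero]

end basics

section geo

variable {g : ℕ} {Z : Matrix (Fin g) (Fin g) ℂ}

/-- The alternation of the pull-back of a tensor. -/
def gA {X : AV} {κ : Type} [Fintype κ] [DecidableEq κ] (R : κ → X.H →ₗ[ℚ] (Fin g ⊕ Fin g → ℚ))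
    (u : Tn κ (Fin g ⊕ Fin g)) (v : κ → X.H) : ℂ :=
  ∑ σ : Perm κ, ((Perm.sign σ : ℤ) : ℂ) * evalF u (fun k => cv (R k (v (σ k))))

theorem gA_add {X : AV} {κ : Type} [Fintype κ] [DecidableEq κ]
    (R : κ → X.H →ₗ[ℚ] (Fin g ⊕ Fin g → ℚ)) (u w : Tn κ (Fin g ⊕ Fin g)) :
    gA R (u + w) = gA R u + gA R w := by
  funext v
  rw [Pi.add_apply]
  unfold gA
  rw [← Finset.sum_add_distrib]
  refine Finset.sum_congr rfl fun σ _ => ?_
  rw [evalF_add, mul_add]

theorem gA_smul {X : AV} {κ : Type} [Fintype κ] [DecidableEq κ]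
    (R : κ → X.H →ₗ[ℚ] (Fin g ⊕ Fin g → ℚ)) (a : ℂ) (u : Tn κ (Fin g ⊕ Fin g)) :
    gA R (a • u) = a • gA R u := by
  funext v
  rw [Pi.smul_apply, smul_eq_mul]
  unfold gA
  rw [Finset.mul_sum]
  refine Finset.sum_congr rfl fun σ _ => ?_
  rw [evalF_smul]
  ring

/-- `gA` as a linear map. -/
def gAL {X : AV} {κ : Type} [Fintype κ] [DecidableEq κ]
    (R : κ → X.H →ₗ[ℚ] (Fin g ⊕ Fin g → ℚ)) :
    Tn κ (Fin g ⊕ Fin g) →ₗ[ℂ] ((κ → X.H) → ℂ) where
  toFun := gA R
  map_add' := gA_add R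
  map_smul' := gA_smul R

/-- The tensors with alternations in the system. -/
def TA (𝒜 : Sys) (h : PM Z) (κ : Type) : Submodule ℂ (Tn κ (Fin g ⊕ Fin g)) where
  carrier := {u | ∀ (_ : Fintype κ) (_ : DecidableEq κ) (X : AV)
    (R : κ → X.H →ₗ[ℚ] (Fin g ⊕ Fin g → ℚ)), (∀ k, IsHom X (AVZ h) (R k)) → gA R u ∈ RA 𝒜 X κ}
  add_mem' := by
    intro u w hu hw i1 i2 X R hR
    rw [gA_add]
    exact Submodule.add_mem _ (hu i1 i2 X R hR) (hw i1 i2 X R hR)
  zero_mem' := by
    intro i1 i2 X R hR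
    have h1 := map_zero (gAL R)
    change gA R 0 = 0 at h1
    rw [h1]
    exact Submodule.zero_mem _
  smul_mem' := by
    intro a u hu i1 i2 X R hR
    rw [gA_smul]
    exact Submodule.smul_mem _ _ (hu i1 i2 X R hR)

variable {𝒜 : Sys} {h : PM Z}

theorem TA_unit (κ : Type) [IsEmpty κ] (u : Tn κ (Fin g ⊕ Fin g)) : u ∈ TA 𝒜 h κ := by
  intro i1 i2 X R hR
  have h1 : gA R u = evalF u (fun k => isEmptyElim k) • (fun _ => (((1 : ℚ)) : ℂ)) := by
    funext v
    unfold gA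
    rw [Fintype.sum_unique, Pi.smul_apply, smul_eq_mul]
    have h2 : (fun k => cv (R k (v ((default : Equiv.Perm κ) k)))) =
        fun k => isEmptyElim k := by
      funext k
      exact isEmptyElim k
    rw [h2, Subsingleton.elim (default : Equiv.Perm κ) 1, Equiv.Perm.sign_one]
    push_cast
    ring
  rw [h1]
  refine Submodule.smul_mem _ _ ?_
  exact RA_of (𝒜.unit (AlternatingMap.constOfIsEmpty ℚ X.H κ 1))

theorem TA_rnm {κ κ' : Type} (e : κ ≃ κ') (u : Tn κ (Fin g ⊕ Fin g)) (hu : u ∈ TA 𝒜 h κ) :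
    rnm e u ∈ TA 𝒜 h κ' := by
  intro i1 i2 X R hR
  let j1 : Fintype κ := Fintype.ofEquiv κ' e.symm
  let j2 : DecidableEq κ := e.decidableEq
  have h1 := RA_reindex e (hu j1 j2 X (fun k => R (e k)) fun k => hR (e k))
  have h2 : gA R (rnm e u) = fun v => gA (fun k => R (e k)) u fun k => v (e k) := by
    funext v
    unfold gA
    rw [← Equiv.sum_comp (Equiv.permCongr e)]
    refine Finset.sum_congr rfl fun σ _ => ?_
    rw [Equiv.Perm.sign_permCongr, evalF_rnm]
    congr 2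
    funext k
    simp only [Function.comp_apply, Equiv.permCongr_apply, Equiv.symm_apply_apply]
  rw [h2]
  exact h1

theorem TA_prd {κ κ' : Type} [Fintype κ] [DecidableEq κ] [Fintype κ'] [DecidableEq κ']
    (u : Tn κ (Fin g ⊕ Fin g)) (w : Tn κ' (Fin g ⊕ Fin g)) (hu : u ∈ TA 𝒜 h κ)
    (hw : w ∈ TA 𝒜 h κ') : prd u w ∈ TA 𝒜 h (κ ⊕ κ') := by
  intro i1 i2 X R hR
  have j1 : i1 = instFintypeSum κ κ' := Subsingleton.elim _ _
  have j2 : i2 = instDecidableEqSum := Subsingleton.elim _ _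
  subst j1 j2
  have h1 := RA_mul (hu inferInstance inferInstance X (fun k => R (Sum.inl k))
    fun k => hR (Sum.inl k)) (hw inferInstance inferInstance X (fun k => R (Sum.inr k))
    fun k => hR (Sum.inr k))
  have h2 : gA R (prd u w) = ((Fintype.card (Equiv.Perm κ) : ℂ) *
      (Fintype.card (Equiv.Perm κ') : ℂ))⁻¹ •
      mulA (gA (fun k => R (Sum.inl k)) u) (gA (fun k => R (Sum.inr k)) w) := by
    funext v
    have e1 : mulA (gA (fun k => R (Sum.inl k)) u) (gA (fun k => R (Sum.inr k)) w) v =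
        ((Fintype.card (Equiv.Perm κ) : ℂ) * (Fintype.card (Equiv.Perm κ') : ℂ)) *
          gA R (prd u w) v := by
      have e2 : mulA (gA (fun k => R (Sum.inl k)) u) (gA (fun k => R (Sum.inr k)) w) v =
          ∑ σ : Equiv.Perm (κ ⊕ κ'), ∑ ρ : Equiv.Perm κ, ∑ ρ' : Equiv.Perm κ',
            ((Equiv.Perm.sign σ : ℤ) : ℂ) * (((Equiv.Perm.sign ρ : ℤ) : ℂ) *
              ((Equiv.Perm.sign ρ' : ℤ) : ℂ)) *
              evalF (prd u w) (Sum.elim (fun k => cv (R (Sum.inl k) (v (σ (Sum.inl (ρ k))))))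
                fun k => cv (R (Sum.inr k) (v (σ (Sum.inr (ρ' k)))))) := by
        unfold mulA gA
        refine Finset.sum_congr rfl fun σ _ => ?_
        rw [Finset.sum_mul_sum, Finset.mul_sum]
        refine Finset.sum_congr rfl fun ρ _ => ?_
        rw [Finset.mul_sum]
        refine Finset.sum_congr rfl fun ρ' _ => ?_
        rw [evalF_prd]
        have e3 : ∀ (x : κ → Fin g ⊕ Fin g → ℂ) (y : κ' → Fin g ⊕ Fin g → ℂ),
            (Sum.elim x y) ∘ Sum.inl = x ∧ (Sum.elim x y) ∘ Sum.inr = y := fun x y => ⟨rfl, rfl⟩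
        rw [(e3 _ _).1, (e3 _ _).2]
        ring
      rw [e2, Finset.sum_comm]
      have e4 : ∀ ρ : Equiv.Perm κ, ∑ σ : Equiv.Perm (κ ⊕ κ'), ∑ ρ' : Equiv.Perm κ',
            ((Equiv.Perm.sign σ : ℤ) : ℂ) * (((Equiv.Perm.sign ρ : ℤ) : ℂ) *
              ((Equiv.Perm.sign ρ' : ℤ) : ℂ)) *
              evalF (prd u w) (Sum.elim (fun k => cv (R (Sum.inl k) (v (σ (Sum.inl (ρ k))))))
                fun k => cv (R (Sum.inr k) (v (σ (Sum.inr (ρ' k)))))) =
          (Fintype.card (Equiv.Perm κ') : ℂ) * gA R (prd u w) v := by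
        intro ρ
        rw [Finset.sum_comm]
        have e5 : ∀ ρ' : Equiv.Perm κ', ∑ σ : Equiv.Perm (κ ⊕ κ'),
            ((Equiv.Perm.sign σ : ℤ) : ℂ) * (((Equiv.Perm.sign ρ : ℤ) : ℂ) *
              ((Equiv.Perm.sign ρ' : ℤ) : ℂ)) *
              evalF (prd u w) (Sum.elim (fun k => cv (R (Sum.inl k) (v (σ (Sum.inl (ρ k))))))
                fun k => cv (R (Sum.inr k) (v (σ (Sum.inr (ρ' k)))))) = gA R (prd u w) v := by
          intro ρ'
          unfold gA
          rw [← Equiv.sum_comp (Equiv.mulRight (Equiv.Perm.sumCongr ρ ρ'))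
            (fun σ : Equiv.Perm (κ ⊕ κ') => ((Equiv.Perm.sign σ : ℤ) : ℂ) *
              evalF (prd u w) (fun k => cv (R k (v (σ k)))))]
          refine Finset.sum_congr rfl fun σ _ => ?_
          have e6 : (Equiv.mulRight (Equiv.Perm.sumCongr ρ ρ')) σ =
            σ * Equiv.Perm.sumCongr ρ ρ' := rfl
          rw [e6, Equiv.Perm.sign_mul, Equiv.Perm.sign_sumCongr]
          push_cast
          congr 2
          funext k
          rcases k with k | k <;> rfl
        rw [Finset.sum_congr rfl fun ρ' _ => e5 ρ', Finset.sum_const, nsmul_eq_mul,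
          Finset.card_univ]
      rw [Finset.sum_congr rfl fun ρ _ => e4 ρ, Finset.sum_const, nsmul_eq_mul, Finset.card_univ]
      ring
    rw [Pi.smul_apply, smul_eq_mul, e1, ← mul_assoc, inv_mul_cancel₀, one_mul]
    refine mul_ne_zero ?_ ?_ <;> exact_mod_cast Fintype.card_ne_zero
  rw [h2]
  exact Submodule.smul_mem _ _ h1

/-- Products of copies of the polarization. -/
def Tht (g : ℕ) (ι : Type) [Fintype ι] : Tn (ι ⊕ ι) (Fin g ⊕ Fin g) := fun I =>
  ∏ t : ι, Om g ℂ (I (Sum.inl t)) (I (Sum.inr t))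

/-- The polarization. -/
def tht (g : ℕ) : Tn (Fin 2) (Fin g ⊕ Fin g) := fun I => Om g ℂ (I 0) (I 1)

/-- The renaming for one more copy. -/
def renO (ι : Type) : (ι ⊕ ι) ⊕ Fin 2 ≃ Option ι ⊕ Option ι where
  toFun := Sum.elim (Sum.map some some) ![Sum.inl none, Sum.inr none]
  invFun := Sum.elim (fun t => t.elim (Sum.inr 0) fun t => Sum.inl (Sum.inl t))
    fun t => t.elim (Sum.inr 1) fun t => Sum.inl (Sum.inr t)
  left_inv := by
    rintro ((t | t) | t)
    · rfl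
    · rfl
    · fin_cases t <;> rfl
  right_inv := by
    rintro (t | t)
    · cases t <;> rfl
    · cases t <;> rfl

theorem TA_Tht (hθ : tht g ∈ TA 𝒜 h (Fin 2)) (ι : Type) [Fintype ι] :
    Tht g ι ∈ TA 𝒜 h (ι ⊕ ι) := by
  classical
  have key : ∀ (ι : Type) [Finite ι] (i : Fintype ι), @Tht g ι i ∈ TA 𝒜 h (ι ⊕ ι) := by
    intro ι _
    refine Finite.induction_empty_option (P := fun ι => ∀ i : Fintype ι,
      @Tht g ι i ∈ TA 𝒜 h (ι ⊕ ι)) ?_ ?_ ?_ ι
    · intro α β e hα iβ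
      let iα : Fintype α := Fintype.ofEquiv β e.symm
      have h1 := TA_rnm (Equiv.sumCongr e e) _ (hα iα)
      have h2 : rnm (Equiv.sumCongr e e) (@Tht g α iα) = @Tht g β iβ := by
        funext I
        unfold rnm Tht
        rw [← e.prod_comp]
        rfl
      rwa [h2] at h1
    · intro i
      exact TA_unit _ _
    · intro α _ hα iO
      have h1 := TA_rnm (renO α) _ (TA_prd _ _ (hα inferInstance) hθ)
      have h2 : rnm (renO α) (prd (Tht g α) (tht g)) = @Tht g (Option α) iO := by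
        have j1 : iO = instFintypeOption := Subsingleton.elim _ _
        subst j1
        funext I
        change (∏ t : α, Om g ℂ (I (Sum.inl (some t))) (I (Sum.inr (some t)))) *
          Om g ℂ (I (Sum.inl none)) (I (Sum.inr none)) = ∏ t : Option α, _
        rw [Fintype.prod_option, mul_comm]
      rwa [h2] at h1
  exact key ι inferInstance

/-- The renaming for the contraction. -/
def renC {g : ℕ} (t₀ : Fin g) :
    Fin 2 ⊕ ({t : Fin g // t ≠ t₀} ⊕ {t : Fin g // t ≠ t₀}) ≃ Fin g ⊕ Fin g where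
  toFun := Sum.elim ![Sum.inl t₀, Sum.inr t₀] (Sum.map Subtype.val Subtype.val)
  invFun := Sum.elim (fun t => if ht : t = t₀ then Sum.inl 0 else Sum.inr (Sum.inl ⟨t, ht⟩))
    fun t => if ht : t = t₀ then Sum.inl 1 else Sum.inr (Sum.inr ⟨t, ht⟩)
  left_inv := by
    rintro (t | t | t)
    · fin_cases t <;> simp
    · simp [t.2]
    · simp [t.2]
  right_inv := by
    rintro (t | t)
    · by_cases ht : t = t₀
      · simp [ht]
      · simp [ht]
    · by_cases ht : t = t₀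
      · simp [ht]
      · simp [ht]

/-- The slices in the last two slots. -/
def slc {κ : Type} (a b : Fin g ⊕ Fin g) (u : Tn (κ ⊕ Fin 2) (Fin g ⊕ Fin g)) :
    Tn κ (Fin g ⊕ Fin g) := fun I => u (Sum.elim I ![a, b])

theorem W_eq {κ : Type} (t₀ : Fin g) (u : Tn (κ ⊕ Fin 2) (Fin g ⊕ Fin g)) :
    rnm ((Equiv.sumAssoc κ (Fin 2) _).trans (Equiv.sumCongr (Equiv.refl κ) (renC t₀)))
      (prd u (Tht g {t : Fin g // t ≠ t₀})) =
      ∑ a, ∑ b, prd (slc a b u) (Zab t₀ a b) := by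
  classical
  funext I
  rw [Finset.sum_apply, Finset.sum_eq_single (I (Sum.inr (Sum.inl t₀)))]
  · rw [Finset.sum_apply, Finset.sum_eq_single (I (Sum.inr (Sum.inr t₀)))]
    · change u _ * _ = u _ * Zab t₀ _ _ (I ∘ Sum.inr)
      congr 1
      · congr 1
        funext m
        rcases m with m | m
        · rfl
        · fin_cases m <;> rfl
      · unfold Zab
        rw [if_pos ⟨rfl, rfl⟩]
        rfl
    · intro b _ hb
      change slc _ b u _ * Zab t₀ _ b (I ∘ Sum.inr) = 0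
      unfold Zab
      rw [if_neg fun h => hb h.2.symm, mul_zero]
    · intro h0
      exact absurd (Finset.mem_univ _) h0
  · intro a _ ha
    rw [Finset.sum_apply]
    refine Finset.sum_eq_zero fun b _ => ?_
    change slc a b u _ * Zab t₀ a b (I ∘ Sum.inr) = 0
    unfold Zab
    rw [if_neg fun h => ha h.1.symm, mul_zero]
  · intro h0
    exact absurd (Finset.mem_univ _) h0

theorem ctr_eq {κ : Type} (u : Tn (κ ⊕ Fin 2) (Fin g ⊕ Fin g)) :
    ctr (Om g ℂ) u = ∑ a, ∑ b, Om g ℂ a b • slc a b u := by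
  funext I
  rw [Finset.sum_apply]
  refine Finset.sum_congr rfl fun a _ => ?_
  rw [Finset.sum_apply]
  rfl

theorem TA_ctr (hθ : tht g ∈ TA 𝒜 h (Fin 2)) {κ : Type}
    (u : Tn (κ ⊕ Fin 2) (Fin g ⊕ Fin g)) (hu : u ∈ TA 𝒜 h (κ ⊕ Fin 2)) :
    ctr (Om g ℂ) u ∈ TA 𝒜 h κ := by
  intro i1 i2 X R hR
  rcases Nat.eq_zero_or_pos g with h0 | hpos
  · subst h0
    have h1 : ctr (Om 0 ℂ) u = 0 := by
      funext x
      unfold ctr
      rw [Finset.univ_eq_empty, Finset.sum_empty]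
      rfl
    rw [h1]
    exact (TA 𝒜 h κ).zero_mem _ _ X R hR
  · let t₀ : Fin g := ⟨0, hpos⟩
    let R' : κ ⊕ (Fin g ⊕ Fin g) → (prodAV X (AVZ h)).H →ₗ[ℚ] (Fin g ⊕ Fin g → ℚ) :=
      Sum.elim (fun k => (R k).comp (LinearMap.fst ℚ X.H (Fin g ⊕ Fin g → ℚ)))
        fun _ => LinearMap.snd ℚ X.H (Fin g ⊕ Fin g → ℚ)
    have hR' : ∀ k, IsHom (prodAV X (AVZ h)) (AVZ h) (R' k) := by
      rintro (k | k)
      · obtain ⟨Ψ, hΨ⟩ := hR k
        exact ⟨Ψ.comp (LinearMap.fst ℂ _ _), fun v => hΨ v.1⟩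
      · exact ⟨LinearMap.snd ℂ _ _, fun v => rfl⟩
    have hW := TA_rnm ((Equiv.sumAssoc κ (Fin 2) _).trans
      (Equiv.sumCongr (Equiv.refl κ) (renC t₀))) _
      (TA_prd _ _ hu (TA_Tht hθ {t : Fin g // t ≠ t₀})) inferInstance inferInstance
      (prodAV X (AVZ h)) R' hR'
    rw [W_eq] at hW
    have hbij : Function.Bijective (fun w : X.H × (Fin g ⊕ Fin g → ℚ) =>
        (LinearMap.inl ℚ X.H (Fin g ⊕ Fin g → ℚ) w.1 +
          LinearMap.inr ℚ X.H (Fin g ⊕ Fin g → ℚ) w.2 : X.H × (Fin g ⊕ Fin g → ℚ))) := by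
      have h3 : (fun w : X.H × (Fin g ⊕ Fin g → ℚ) =>
          (LinearMap.inl ℚ X.H (Fin g ⊕ Fin g → ℚ) w.1 +
            LinearMap.inr ℚ X.H (Fin g ⊕ Fin g → ℚ) w.2 : X.H × (Fin g ⊕ Fin g → ℚ))) = id := by
        funext w
        simp
      rw [h3]
      exact Function.bijective_id
    have h2 := RA_push (X := X) (Y := AVZ h) (P := prodAV X (AVZ h))
      (LinearMap.inl ℚ X.H (Fin g ⊕ Fin g → ℚ)) ⟨LinearMap.inl ℂ _ _, fun v => by
        change (X.per v, (0 : (AVZ h).T)) = (X.per v, (AVZ h).per 0)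
        rw [map_zero]⟩
      (LinearMap.inr ℚ X.H (Fin g ⊕ Fin g → ℚ)) ⟨LinearMap.inr ℂ _ _, fun v => by
        change ((0 : X.T), (AVZ h).per v) = (X.per 0, (AVZ h).per v)
        rw [map_zero]⟩
      hbij
      (Pi.basisFun ℚ (Fin g ⊕ Fin g)) hW
    obtain ⟨c, hc, hcomb⟩ := comb t₀
    have h3 : gA R (ctr (Om g ℂ) u) = c⁻¹ • fun v : κ → X.H =>
        gA R' (∑ a, ∑ b, prd (slc a b u) (Zab t₀ a b))
          (Sum.elim (fun k => LinearMap.inl ℚ X.H (Fin g ⊕ Fin g → ℚ) (v k))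
            fun k => LinearMap.inr ℚ X.H (Fin g ⊕ Fin g → ℚ) (Pi.basisFun ℚ (Fin g ⊕ Fin g) k)) := by
      funext v
      rw [Pi.smul_apply, smul_eq_mul]
      have e1 : ∀ a b, gA R' (prd (slc a b u) (Zab t₀ a b))
          (Sum.elim (fun k => LinearMap.inl ℚ X.H (Fin g ⊕ Fin g → ℚ) (v k))
            fun k => LinearMap.inr ℚ X.H (Fin g ⊕ Fin g → ℚ) (Pi.basisFun ℚ (Fin g ⊕ Fin g) k)) =
          gA R (slc a b u) v * (c * Om g ℂ a b) := by
        intro a b
        rw [← hcomb]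
        unfold gA
        refine perm_split _ _ _ (fun σ k l hkl => ?_) fun ρ ρ' => ?_
        · refine evalF_zero_arg _ _ (Sum.inl k) ?_
          beta_reduce
          rw [hkl]
          funext x
          change (((R k) ((0 : X.H), Pi.basisFun ℚ (Fin g ⊕ Fin g) l).1 x : ℚ) : ℂ) = 0
          rw [map_zero]
          norm_num
        · rw [evalF_prd]
          congr 1
          refine Eq.trans ?_ (evalF_single (Zab t₀ a b) ρ')
          congr 1
          funext k
          change cv (Pi.basisFun ℚ (Fin g ⊕ Fin g) (ρ' k)) = _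
          rw [Pi.basisFun_apply, single_cv]
      have e2 : gA R' (∑ a, ∑ b, prd (slc a b u) (Zab t₀ a b)) =
          ∑ a, ∑ b, gA R' (prd (slc a b u) (Zab t₀ a b)) := by
        change gAL R' _ = ∑ a, ∑ b, gAL R' _
        rw [map_sum]
        exact Finset.sum_congr rfl fun a _ => map_sum _ _ _
      have e3 : gA R (ctr (Om g ℂ) u) = ∑ a, ∑ b, Om g ℂ a b • gA R (slc a b u) := by
        rw [ctr_eq]
        change gAL R _ = ∑ a, ∑ b, _ • gAL R _
        rw [map_sum]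
        refine Finset.sum_congr rfl fun a _ => ?_
        rw [map_sum]
        exact Finset.sum_congr rfl fun b _ => map_smul _ _ _
      rw [e2, e3, Finset.sum_apply, Finset.sum_apply, Finset.mul_sum]
      refine Finset.sum_congr rfl fun a _ => ?_
      rw [Finset.sum_apply, Finset.sum_apply, Finset.mul_sum]
      refine Finset.sum_congr rfl fun b _ => ?_
      rw [e1, Pi.smul_apply, smul_eq_mul]
      field_simp
    rw [h3]
    exact Submodule.smul_mem _ _ h2

end geo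

end

end Pool.Agent.H841.MS
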