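import Pool.Agent.H841.MS.Geo
import Pool.Agent.H841.MS.Anti

/-!
# The Hodge conjecture for products from classes of degree four
-/

set_option linter.unusedSectionVars false

namespace Pool.Agent.H841.MS

open Finset Matrix Module Pool.Agent.W437.HC Pool.Agent.W437.HD Pool.Agent.V1168.GH
open Pool.Agent.TH504.CB Pool.Agent.Y90 Pool.Agent.R915
open Pool.Agent.W548.Odd hiding cv
open Pool.Agent.H204R3.CM (IsHodge)
open Pool.Agent.N306.GH (FQ FQ_apply)
open Pool.Agent.N178.HW (prodAV)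
open Equiv (Perm)

noncomputable section

/-- Rational multilinear forms with a real extension which is invariant under rotations are killed by
the complex structure. -/
theorem isH_of_rot {B : Type} [Fintype B] [DecidableEq B] {κ : Type} [Fintype κ] [DecidableEq κ]
    {T : Type} [AddCommGroup T] [Module ℂ T] {per : (B → ℚ) →+ T} {J : Matrix B B ℝ}
    (h : Cht per J) (F : MultilinearMap ℚ (fun _ : κ => B → ℚ) ℚ)
    (ψ : MultilinearMap ℝ (fun _ : κ => T) ℝ)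
    (hψ1 : ∀ v : κ → B → ℚ, ψ (fun l => per (v l)) = F v)
    (hψ2 : ∀ z : ℂ, ‖z‖ = 1 → ∀ u : κ → T, ψ (fun l => z • u l) = ψ u) :
    IsH (DJ J) (CF F) := by
  obtain ⟨P, I, hP1, hP2, -, -⟩ := h.ex
  rw [act_real (J := J) (D := DJ J) rfl]
  have h1 : ∀ x : κ → B → ℝ, ψ (fun k => P (x k)) = evalF (cst ℝ (CF F)) x := by
    intro x
    rw [show ψ (fun k => P (x k)) = ψ.compLinearMap (fun _ => P) x from rfl, multi_eq]
    congr 1
    funext I
    change ψ (fun k => P (Pi.single (I k) 1)) = ((F (fun k => Pi.single (I k) 1) : ℚ) : ℝ)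
    rw [← hψ1]
    congr 1
    funext k
    rw [← hP1, single_castR]
  apply act_of_rotate
  intro θ x
  rw [← h1, ← h1]
  refine Eq.trans ?_ (hψ2 (Complex.cos θ + Complex.sin θ * Complex.I) (by
    rw [← Complex.exp_mul_I, Complex.norm_exp_ofReal_mul_I]) _)
  congr 1
  funext k
  rw [map_add, map_smul, map_smul, hP2, smul_rot, Complex.ofReal_cos, Complex.ofReal_sin]

variable {g : ℕ} {Z : Matrix (Fin g) (Fin g) ℂ} {𝒜 : Sys} {h : PM Z}

/-- The alternations of the pull-backs of invariant tensors belong to the system if the Hodge classes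
on the power do. -/
theorem gA_of_hodge (𝒜 : Sys) (h : PM Z) {κ Q : Type} [i0 : Fintype κ] [j0 : DecidableEq κ]
    [Fintype Q] [DecidableEq Q] (p : κ → Q)
    (hall : ∀ r : (BQ (fun _ : Q => g) → ℚ) [⋀^κ]→ₗ[ℚ] ℚ, IsHodge (perQ fun _ : Q => Z) r →
      𝒜.A (AVQ fun _ : Q => h) κ r) {u : Tn κ (Fin g ⊕ Fin g)} (hu : u ∈ Ivt (DZ Z) κ) (X : AV)
    (R : Q → X.H →ₗ[ℚ] (Fin g ⊕ Fin g → ℚ)) (hR : ∀ k, IsHom X (AVZ h) (R k)) :
    gA (fun k => R (p k)) u ∈ RA 𝒜 X κ := by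
  have hkill : ∀ Y ∈ LQ (fun _ : Q => Z), act Y (CF (FQ (g := g) p u)) = 0 := by
    have h1 : LQ (fun _ : Q => Z) ≤ LinearMap.ker (actL (CF (FQ (g := g) p u))) := by
      refine Submodule.span_le.2 ?_
      rintro _ ⟨σ, rfl⟩
      rw [SetLike.mem_coe, LinearMap.mem_ker, actL_apply]
      refine act_of_kills fun v => ?_
      have h1 := evalF_act (DS Z σ) u (fun m => cQ (a := fun _ : Q => g) (p m) (v m))
      rw [hu _ (DS_mem σ)] at h1
      have h0 : evalF (0 : Tn κ (Fin g ⊕ Fin g))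
          (fun m => cQ (a := fun _ : Q => g) (p m) (v m)) = 0 := (evL _).map_zero
      rw [h0] at h1
      rw [h1]
      refine Finset.sum_congr rfl fun k _ => ?_
      rw [FQ_apply]
      congr 1
      funext m
      by_cases hm : m = k
      · subst hm
        rw [Function.update_self, Function.update_self, Pool.Agent.W548.Odd.ph_apply]
        change cQ (p m) ((DJ (JQ fun _ : Q => Z)).map σ *ᵥ v m) = _
        rw [DJ_JQ (fun _ => h), bd_mulVec]
      · rw [Function.update_of_ne hm, Function.update_of_ne hm]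
    intro Y hY
    have h2 := h1 hY
    rwa [LinearMap.mem_ker, actL_apply] at h2
  have hm : FQ (g := g) p u ∈ NA 𝒜 (chtQ fun _ : Q => h) (polQ fun _ : Q => h) κ :=
    NA_of_hodge _ _ 𝒜 gal_LQ DJ_memQ hall hkill
  choose Ψ hΨ using hR
  let T : X.H →ₗ[ℚ] (BQ (fun _ : Q => g) → ℚ) := LinearMap.pi fun x =>
    (LinearMap.proj x.2).comp (R x.1)
  have h2 := RA_pull (X := X) (Y := AVQ fun _ : Q => h) T ⟨LinearMap.pi Ψ, fun v => by
    funext q
    exact hΨ q v⟩ (hm inferInstance inferInstance)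
  exact h2

/-- Invariant tensors belong to the system if the Hodge classes on the power do. -/
theorem TA_of_hodge (𝒜 : Sys) (h : PM Z) (κ : Type) [i0 : Fintype κ] [j0 : DecidableEq κ]
    (hall : ∀ r : (BQ (fun _ : κ => g) → ℚ) [⋀^κ]→ₗ[ℚ] ℚ, IsHodge (perQ fun _ : κ => Z) r →
      𝒜.A (AVQ fun _ : κ => h) κ r) : Ivt (DZ Z) κ ≤ TA 𝒜 h κ := by
  intro u hu i1 i2 X R hR
  obtain rfl : i0 = i1 := Subsingleton.elim _ _
  obtain rfl : j0 = i2 := Subsingleton.elim _ _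
  exact gA_of_hodge 𝒜 h (id : κ → κ) hall hu X R hR

section polar

variable {X : AV} {κ : Type} [Fintype κ] [DecidableEq κ]

/-- Additivity in one slot. -/
theorem evalF_slot (u : Tn κ (Fin g ⊕ Fin g)) (k : κ) (x x₁ x₂ : κ → Fin g ⊕ Fin g → ℂ)
    (h0 : x k = x₁ k + x₂ k) (h1 : ∀ m, m ≠ k → x₁ m = x m) (h2 : ∀ m, m ≠ k → x₂ m = x m) :
    evalF u x = evalF u x₁ + evalF u x₂ := by
  have e1 : x₁ = Function.update x k (x₁ k) := by
    funext m
    by_cases hm : m = k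
    · subst hm
      rw [Function.update_self]
    · rw [Function.update_of_ne hm, h1 m hm]
  have e2 : x₂ = Function.update x k (x₂ k) := by
    funext m
    by_cases hm : m = k
    · subst hm
      rw [Function.update_self]
    · rw [Function.update_of_ne hm, h2 m hm]
  have e3 : x = Function.update x k (x₁ k + x₂ k) := by rw [← h0, Function.update_eq_self]
  have e4 := (evalM u).map_update_add x k (x₁ k) (x₂ k)
  rw [evalM_apply, evalM_apply, evalM_apply, ← e3, ← e1, ← e2] at e4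
  exact e4

theorem gA_slot (u : Tn κ (Fin g ⊕ Fin g)) (k : κ) (R R₁ R₂ : κ → X.H →ₗ[ℚ] (Fin g ⊕ Fin g → ℚ))
    (h0 : R k = R₁ k + R₂ k) (h1 : ∀ m, m ≠ k → R₁ m = R m) (h2 : ∀ m, m ≠ k → R₂ m = R m) :
    gA R u = gA R₁ u + gA R₂ u := by
  funext v
  rw [Pi.add_apply]
  unfold gA
  rw [← Finset.sum_add_distrib]
  refine Finset.sum_congr rfl fun σ _ => ?_
  rw [← mul_add]
  congr 1
  refine evalF_slot u k _ _ _ ?_ (fun m hm => by rw [h1 m hm]) fun m hm => by rw [h2 m hm]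
  rw [h0]
  funext i
  simp [cv]

theorem gA_perm (u : Tn κ (Fin g ⊕ Fin g)) (π : Perm κ) (R : κ → X.H →ₗ[ℚ] (Fin g ⊕ Fin g → ℚ)) :
    gA (fun k => R (π k)) u = ((Perm.sign π : ℤ) : ℂ) • gA R (rnm π u) := by
  funext v
  rw [Pi.smul_apply, smul_eq_mul]
  unfold gA
  rw [Finset.mul_sum, ← Equiv.sum_comp (Equiv.mulRight π)]
  refine Finset.sum_congr rfl fun σ _ => ?_
  rw [evalF_rnm]
  have e1 : (Equiv.mulRight π) σ = σ * π := rfl
  rw [e1, Perm.sign_mul]
  have e2 : evalF u ((fun k => cv (R k (v (σ k)))) ∘ π) =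
      evalF u fun k => cv (R (π k) (v ((σ * π) k))) := rfl
  rw [e2, ← mul_assoc]
  congr 1
  push_cast
  ring

end polar

/-- Antisymmetric invariant tensors of degree four belong to the system if the Hodge classes of degree
four on the square do. -/
theorem TA_anti (𝒜 : Sys) (h : PM Z)
    (hall : ∀ r : (BQ (fun _ : Fin 2 => g) → ℚ) [⋀^(Fin 2 ⊕ Fin 2)]→ₗ[ℚ] ℚ,
      IsHodge (perQ fun _ : Fin 2 => Z) r → 𝒜.A (AVQ fun _ : Fin 2 => h) (Fin 2 ⊕ Fin 2) r)
    (t : Tn (Fin 2 ⊕ Fin 2) (Fin g ⊕ Fin g)) (ht : t ∈ Ivt (DZ Z) (Fin 2 ⊕ Fin 2))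
    (h1 : rnm (Equiv.swap (Sum.inl 0) (Sum.inl 1)) t = -t)
    (h2 : rnm (Equiv.swap (Sum.inr 0) (Sum.inr 1)) t = -t) : t ∈ TA 𝒜 h (Fin 2 ⊕ Fin 2) := by
  intro i1 i2 X R hR
  have j1 : i1 = instFintypeSum (Fin 2) (Fin 2) := Subsingleton.elim _ _
  have j2 : i2 = instDecidableEqSum := Subsingleton.elim _ _
  subst j1 j2
  let G : (X.H →ₗ[ℚ] (Fin g ⊕ Fin g → ℚ)) → (X.H →ₗ[ℚ] (Fin g ⊕ Fin g → ℚ)) →
    (X.H →ₗ[ℚ] (Fin g ⊕ Fin g → ℚ)) → (X.H →ₗ[ℚ] (Fin g ⊕ Fin g → ℚ)) →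
    (Fin 2 ⊕ Fin 2 → X.H) → ℂ := fun a a' b b' => gA (Sum.elim ![a, a'] ![b, b']) t
  have hom_add : ∀ {a b : X.H →ₗ[ℚ] (Fin g ⊕ Fin g → ℚ)}, IsHom X (AVZ h) a → IsHom X (AVZ h) b →
      IsHom X (AVZ h) (a + b) := by
    rintro a b ⟨Ψ, hΨ⟩ ⟨Φ, hΦ⟩
    refine ⟨Ψ + Φ, fun v => ?_⟩
    rw [LinearMap.add_apply, hΨ, hΦ, ← map_add]
    rfl
  have hG : ∀ a b, IsHom X (AVZ h) a → IsHom X (AVZ h) b → G a a b b ∈ RA 𝒜 X (Fin 2 ⊕ Fin 2) := by
    intro a b ha hb
    have h3 := gA_of_hodge 𝒜 h (Sum.elim (fun _ => 0) fun _ => 1 : Fin 2 ⊕ Fin 2 → Fin 2) hall ht X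
      ![a, b] (fun k => by fin_cases k; exacts [ha, hb])
    have h4 : (fun k => (![a, b] : Fin 2 → _) ((Sum.elim (fun _ => 0) fun _ => 1 :
        Fin 2 ⊕ Fin 2 → Fin 2) k)) = Sum.elim ![a, a] ![b, b] := by
      funext k
      rcases k with k | k <;> fin_cases k <;> rfl
    rw [h4] at h3
    exact h3
  have s1 : ∀ a a' b b', G a' a b b' = G a a' b b' := by
    intro a a' b b'
    have h3 := gA_perm t (Equiv.swap (Sum.inl 0) (Sum.inl 1)) (Sum.elim ![a, a'] ![b, b'])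
    rw [h1, Perm.sign_swap (by simp)] at h3
    have h4 : (fun k => (Sum.elim ![a, a'] ![b, b'] : Fin 2 ⊕ Fin 2 → _)
        ((Equiv.swap (Sum.inl 0) (Sum.inl 1) : Perm (Fin 2 ⊕ Fin 2)) k)) =
        Sum.elim ![a', a] ![b, b'] := by
      funext k
      rcases k with k | k
      · fin_cases k
        · change (Sum.elim ![a, a'] ![b, b'] : Fin 2 ⊕ Fin 2 → _)
            ((Equiv.swap (Sum.inl 0) (Sum.inl 1) : Perm (Fin 2 ⊕ Fin 2)) (Sum.inl 0)) = _
          rw [Equiv.swap_apply_left]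
          rfl
        · change (Sum.elim ![a, a'] ![b, b'] : Fin 2 ⊕ Fin 2 → _)
            ((Equiv.swap (Sum.inl 0) (Sum.inl 1) : Perm (Fin 2 ⊕ Fin 2)) (Sum.inl 1)) = _
          rw [Equiv.swap_apply_right]
          rfl
      · rw [Equiv.swap_apply_of_ne_of_ne (by simp) (by simp)]
        rfl
    rw [h4] at h3
    change gA _ t = gA _ t
    rw [h3, show -t = (-1 : ℂ) • t from (neg_one_smul ℂ t).symm, gA_smul, smul_smul]
    norm_num
  have s2 : ∀ a a' b b', G a a' b' b = G a a' b b' := by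
    intro a a' b b'
    have h3 := gA_perm t (Equiv.swap (Sum.inr 0) (Sum.inr 1)) (Sum.elim ![a, a'] ![b, b'])
    rw [h2, Perm.sign_swap (by simp)] at h3
    have h4 : (fun k => (Sum.elim ![a, a'] ![b, b'] : Fin 2 ⊕ Fin 2 → _)
        ((Equiv.swap (Sum.inr 0) (Sum.inr 1) : Perm (Fin 2 ⊕ Fin 2)) k)) =
        Sum.elim ![a, a'] ![b', b] := by
      funext k
      rcases k with k | k
      · rw [Equiv.swap_apply_of_ne_of_ne (by simp) (by simp)]
        rfl
      · fin_cases k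
        · change (Sum.elim ![a, a'] ![b, b'] : Fin 2 ⊕ Fin 2 → _)
            ((Equiv.swap (Sum.inr 0) (Sum.inr 1) : Perm (Fin 2 ⊕ Fin 2)) (Sum.inr 0)) = _
          rw [Equiv.swap_apply_left]
          rfl
        · change (Sum.elim ![a, a'] ![b, b'] : Fin 2 ⊕ Fin 2 → _)
            ((Equiv.swap (Sum.inr 0) (Sum.inr 1) : Perm (Fin 2 ⊕ Fin 2)) (Sum.inr 1)) = _
          rw [Equiv.swap_apply_right]
          rfl
    rw [h4] at h3
    change gA _ t = gA _ t
    rw [h3, show -t = (-1 : ℂ) • t from (neg_one_smul ℂ t).symm, gA_smul, smul_smul]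
    norm_num
  have a1 : ∀ a₁ a₂ a' b b', G (a₁ + a₂) a' b b' = G a₁ a' b b' + G a₂ a' b b' := by
    intro a₁ a₂ a' b b'
    refine gA_slot t (Sum.inl 0) _ _ _ rfl (fun m hm => ?_) fun m hm => ?_
    · rcases m with m | m
      · fin_cases m
        · exact absurd rfl hm
        · rfl
      · rfl
    · rcases m with m | m
      · fin_cases m
        · exact absurd rfl hm
        · rfl
      · rfl
  have a2 : ∀ a a' b₁ b₂ b', G a a' (b₁ + b₂) b' = G a a' b₁ b' + G a a' b₂ b' := by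
    intro a a' b₁ b₂ b'
    refine gA_slot t (Sum.inr 0) _ _ _ rfl (fun m hm => ?_) fun m hm => ?_
    · rcases m with m | m
      · rfl
      · fin_cases m
        · exact absurd rfl hm
        · rfl
    · rcases m with m | m
      · rfl
      · fin_cases m
        · exact absurd rfl hm
        · rfl
  have p1 : ∀ a a' b, IsHom X (AVZ h) a → IsHom X (AVZ h) a' → IsHom X (AVZ h) b →
      G a a' b b ∈ RA 𝒜 X (Fin 2 ⊕ Fin 2) := by
    intro a a' b ha ha' hb
    have h3 : G a a' b b = (2 : ℂ)⁻¹ • (G (a + a') (a + a') b b - G a a b b - G a' a' b b) := by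
      rw [a1, s1 (a + a') a, s1 (a + a') a', a1, a1, s1 a a', eq_inv_smul_iff₀ two_ne_zero,
        two_smul]
      abel
    rw [h3]
    exact Submodule.smul_mem _ _ (Submodule.sub_mem _ (Submodule.sub_mem _
      (hG _ _ (hom_add ha ha') hb) (hG _ _ ha hb)) (hG _ _ ha' hb))
  have p2 : ∀ a a' b b', IsHom X (AVZ h) a → IsHom X (AVZ h) a' → IsHom X (AVZ h) b →
      IsHom X (AVZ h) b' → G a a' b b' ∈ RA 𝒜 X (Fin 2 ⊕ Fin 2) := by
    intro a a' b b' ha ha' hb hb'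
    have h3 : G a a' b b' = (2 : ℂ)⁻¹ • (G a a' (b + b') (b + b') - G a a' b b - G a a' b' b') := by
      rw [a2, s2 a a' (b + b') b, s2 a a' (b + b') b', a2, a2, s2 a a' b b',
        eq_inv_smul_iff₀ two_ne_zero, two_smul]
      abel
    rw [h3]
    exact Submodule.smul_mem _ _ (Submodule.sub_mem _ (Submodule.sub_mem _
      (p1 _ _ _ ha ha' (hom_add hb hb')) (p1 _ _ _ ha ha' hb)) (p1 _ _ _ ha ha' hb'))
  have h5 : R = Sum.elim ![R (Sum.inl 0), R (Sum.inl 1)] ![R (Sum.inr 0), R (Sum.inr 1)] := by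
    funext k
    rcases k with k | k <;> fin_cases k <;> rfl
  rw [h5]
  exact p2 _ _ _ _ (hR _) (hR _) (hR _) (hR _)

theorem PM.sp' (h : PM Z) : ∀ X ∈ LA {DZ Z}, Xᵀ * Om g ℂ + Om g ℂ * X = 0 := by
  intro X hX
  have h1 : IsPer ({Z} : Set (Matrix (Fin g) (Fin g) ℂ)) := by
    intro Z' hZ'
    rw [Set.mem_singleton_iff.1 hZ']
    exact ⟨h.symm, h.pos⟩
  refine sp_LA h1 ?_
  rw [Set.image_singleton]
  exact hX

theorem tht_Ivt (h : PM Z) : tht g ∈ Ivt (DZ Z) (Fin 2) := by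
  intro X hX
  funext I
  unfold act tht
  rw [Fin.sum_univ_two]
  have h1 := congrFun (congrFun (PM.sp' h X hX) (I 0)) (I 1)
  rw [Matrix.add_apply, Matrix.mul_apply, Matrix.mul_apply, Matrix.zero_apply] at h1
  have e1 : ∀ j, X j (I 0) * Om g ℂ (Function.update I 0 j 0) (Function.update I 0 j 1) =
      Xᵀ (I 0) j * Om g ℂ j (I 1) := by
    intro j
    rw [Function.update_self, Function.update_of_ne (by decide), Matrix.transpose_apply]
  have e2 : ∀ j, X j (I 1) * Om g ℂ (Function.update I 1 j 0) (Function.update I 1 j 1) =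
      Om g ℂ (I 0) j * X j (I 1) := by
    intro j
    rw [Function.update_self, Function.update_of_ne (by decide), mul_comm]
  rw [Pi.zero_apply, Finset.sum_congr rfl fun j _ => e1 j, Finset.sum_congr rfl fun j _ => e2 j, h1]

theorem TA_two (𝒜 : Sys) (h : PM Z) : Ivt (DZ Z) (Fin 2) ≤ TA 𝒜 h (Fin 2) :=
  TA_of_hodge 𝒜 h (Fin 2) fun r hr => 𝒜.divisor (X := AVQ fun _ : Fin 2 => h) (κ := Fin 2)
    (by rw [Nat.card_eq_fintype_card, Fintype.card_fin]) r hr

/-- The family of the tensors with alternations in the system. -/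
def famTA (𝒜 : Sys) (h : PM Z) : Fam (Om g ℂ) where
  N := TA 𝒜 h
  unit := fun κ _ u => TA_unit κ u
  rnm := fun e u hu => TA_rnm e u hu
  prd := fun u v hu hv => TA_prd u v hu hv
  ctr := fun u hu => TA_ctr (TA_two 𝒜 h (tht_Ivt h)) u hu

/-- The Hodge conjecture for the abelian varieties with factors among those of `A`. -/
theorem allHodge_of (𝒜 : Sys) (h : PM Z)
    (hall : ∀ (κ : Type) [Fintype κ] [DecidableEq κ], Ivt (DZ Z) κ ≤ TA 𝒜 h κ) (X : AV)
    (hX : ∀ Y, IsFactor Y X → IsFactor Y (AVZ h)) : 𝒜.AllHodge X := by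
  intro κ _ f hf
  classical
  let _ : Fintype κ := Fintype.ofFinite κ
  obtain ⟨K, _, _, a, b, ha, hb, hab⟩ := exists_fr (AVZ h) X hX
  refine RA_descent ?_
  let F : (κ → K) → MultilinearMap ℚ (fun _ : κ => Fin g ⊕ Fin g → ℚ) ℚ := fun c =>
    f.toMultilinearMap.compLinearMap fun m => a (c m)
  have hF : ∀ c v, F c v = f fun m => a (c m) (v m) := fun c v => rfl
  -- the invariance
  have hinv : ∀ c, cst ℂ (CF (F c)) ∈ Ivt (DZ Z) κ := by
    intro c
    obtain ⟨ψ, hψ1, hψ2⟩ := hf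
    choose Ψ hΨ using ha
    have h1 : IsH (DZ Z) (CF (F c)) := by
      refine isH_of_rot h.cht (F c) (ψ.compLinearMap fun m => (Ψ (c m)).restrictScalars ℝ)
        (fun v => ?_) fun z hz u => ?_
      · rw [MultilinearMap.compLinearMap_apply, hF, ← hψ1]
        congr 1
        funext m
        exact hΨ (c m) (v m)
      · rw [MultilinearMap.compLinearMap_apply, MultilinearMap.compLinearMap_apply]
        refine Eq.trans ?_ (hψ2 z hz _)
        congr 1
        funext m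
        exact map_smul (Ψ (c m)) z (u m)
    intro X hX
    have h2 : LA {DZ Z} ≤ lieM (DZ Z) ℂ := LA_le_lieM fun d hd => by
      rw [Set.mem_singleton_iff.1 hd]
      exact D_mem _
    exact lieM_kills _ (h2 hX) h1
  -- the expansion
  have hexp : (fun v : κ → X.H => ((f v : ℚ) : ℂ)) = ((Fintype.card (Perm κ) : ℂ))⁻¹ •
      ∑ c : κ → K, gA (fun m => b (c m)) (cst ℂ (CF (F c))) := by
    funext v
    have e1 : ∀ σ : Perm κ, ((Perm.sign σ : ℤ) : ℂ) *
        ∑ c : κ → K, evalF (cst ℂ (CF (F c))) (fun k => cv (b (c k) (v (σ k)))) =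
        ((f v : ℚ) : ℂ) := by
      intro σ
      have e2 : f (fun k => v (σ k)) = ∑ c : κ → K, F c fun k => b (c k) (v (σ k)) := by
        have e3 : (fun k => v (σ k)) = fun k => ∑ j, a j (b j (v (σ k))) := by
          funext k
          rw [hab]
        rw [e3]
        exact f.toMultilinearMap.map_sum fun k j => a j (b j (v (σ k)))
      have e4 : f (fun k => v (σ k)) = ((Perm.sign σ : ℤ) : ℚ) * f v := by
        have e5 := f.map_perm v σ
        rw [Units.smul_def, zsmul_eq_mul] at e5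
        exact e5
      have e6 : ∑ c : κ → K, evalF (cst ℂ (CF (F c))) (fun k => cv (b (c k) (v (σ k)))) =
          ((f (fun k => v (σ k)) : ℚ) : ℂ) := by
        rw [e2]
        push_cast
        refine Finset.sum_congr rfl fun c _ => ?_
        rw [CF_eval, evalF_castK]
        rfl
      rw [e6, e4]
      push_cast
      rw [← mul_assoc, ← Int.cast_mul, ← Units.val_mul, Int.units_mul_self]
      norm_num
    rw [Pi.smul_apply, Finset.sum_apply, smul_eq_mul]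
    unfold gA
    rw [Finset.sum_comm]
    have e7 : ∀ σ : Perm κ, ∑ c : κ → K, ((Perm.sign σ : ℤ) : ℂ) *
        evalF (cst ℂ (CF (F c))) (fun k => cv (b (c k) (v (σ k)))) = ((f v : ℚ) : ℂ) := by
      intro σ
      rw [← Finset.mul_sum]
      exact e1 σ
    rw [Finset.sum_congr rfl fun σ _ => e7 σ, Finset.sum_const, Finset.card_univ, nsmul_eq_mul,
      ← mul_assoc, inv_mul_cancel₀, one_mul]
    exact_mod_cast Fintype.card_ne_zero
  rw [hexp]
  refine Submodule.smul_mem _ _ (Submodule.sum_mem _ fun c _ => ?_)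
  exact hall κ (hinv c) inferInstance inferInstance X _ fun m => hb (c m)

/-- Hodge classes are stable under pull-backs. -/
theorem hodge_pull {X Y : AV} {κ : Type} {f : Y.H [⋀^κ]→ₗ[ℚ] ℚ} (hf : IsHodge Y.per f)
    {a : X.H →ₗ[ℚ] Y.H} (ha : IsHom X Y a) : IsHodge X.per (f.compLinearMap a) := by
  obtain ⟨ψ, h1, h2⟩ := hf
  obtain ⟨Ψ, hΨ⟩ := ha
  refine ⟨ψ.compLinearMap fun _ => Ψ.restrictScalars ℝ, fun v => ?_, fun z hz u => ?_⟩
  · rw [MultilinearMap.compLinearMap_apply]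
    change ψ (fun m => Ψ (X.per (v m))) = ((f fun m => a (v m) : ℚ) : ℝ)
    rw [← h1]
    congr 1
    funext m
    exact hΨ (v m)
  · rw [MultilinearMap.compLinearMap_apply, MultilinearMap.compLinearMap_apply]
    refine Eq.trans ?_ (h2 z hz _)
    congr 1
    funext m
    exact map_smul Ψ z (u m)

/-- The Hodge classes of degree four on the square. -/
theorem square_of (𝒜 : Sys) (h : PM Z)
    (hsq : ∀ f : (prodAV (AVZ h) (AVZ h)).H [⋀^Fin 4]→ₗ[ℚ] ℚ,
      IsHodge (prodAV (AVZ h) (AVZ h)).per f → 𝒜.A (prodAV (AVZ h) (AVZ h)) (Fin 4) f)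
    (r : (BQ (fun _ : Fin 2 => g) → ℚ) [⋀^(Fin 2 ⊕ Fin 2)]→ₗ[ℚ] ℚ)
    (hr : IsHodge (perQ fun _ : Fin 2 => Z) r) :
    𝒜.A (AVQ fun _ : Fin 2 => h) (Fin 2 ⊕ Fin 2) r := by
  let e : Fin 2 ⊕ Fin 2 ≃ Fin 4 := finSumFinEquiv
  let φ : (BQ (fun _ : Fin 2 => g) → ℚ) →ₗ[ℚ] (Fin g ⊕ Fin g → ℚ) × (Fin g ⊕ Fin g → ℚ) :=
    (LinearMap.pi fun i => LinearMap.proj (⟨0, i⟩ : BQ (fun _ : Fin 2 => g))).prod
      (LinearMap.pi fun i => LinearMap.proj (⟨1, i⟩ : BQ (fun _ : Fin 2 => g)))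
  let ψ : (Fin g ⊕ Fin g → ℚ) × (Fin g ⊕ Fin g → ℚ) →ₗ[ℚ] (BQ (fun _ : Fin 2 => g) → ℚ) :=
    LinearMap.pi fun x => (LinearMap.proj x.2).comp
      ((![LinearMap.fst ℚ _ _, LinearMap.snd ℚ _ _] : Fin 2 → _ →ₗ[ℚ] _) x.1)
  have hφ : IsHom (AVQ fun _ : Fin 2 => h) (prodAV (AVZ h) (AVZ h)) φ :=
    ⟨(LinearMap.proj (0 : Fin 2)).prod (LinearMap.proj (1 : Fin 2)), fun v => rfl⟩
  have hψ : IsHom (prodAV (AVZ h) (AVZ h)) (AVQ fun _ : Fin 2 => h) ψ := by
    refine ⟨LinearMap.pi ![LinearMap.fst ℂ _ _, LinearMap.snd ℂ _ _], fun v => ?_⟩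
    funext q
    fin_cases q <;> rfl
  have hφψ : ∀ w, ψ (φ w) = w := by
    intro w
    funext x
    obtain ⟨q, i⟩ := x
    fin_cases q <;> rfl
  have h1 : IsHodge (prodAV (AVZ h) (AVZ h)).per ((r.domDomCongr e).compLinearMap ψ) :=
    hodge_pull (Y := AVQ fun _ : Fin 2 => h) (isHodge_congr e hr) hψ
  have h2 := 𝒜.reindex e.symm _ (𝒜.pull (X := AVQ fun _ : Fin 2 => h)
    (Y := prodAV (AVZ h) (AVZ h)) φ hφ _ (hsq _ h1))
  have h3 : (((r.domDomCongr e).compLinearMap ψ).compLinearMap φ).domDomCongr e.symm = r := by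
    ext v
    change r (fun k => ψ (φ (v (e.symm (e k))))) = r v
    congr 1
    funext k
    rw [hφψ, Equiv.symm_apply_apply]
  exact h3 ▸ h2

section main

variable {I J : Type} [Fintype I] [Fintype J] {bl : I → J}
  {ρ : I → Matrix (Fin 2) (Fin 2) ℂ →ₗ[ℂ] Matrix (Fin g ⊕ Fin g) (Fin g ⊕ Fin g) ℂ}
  {p : J → Matrix (Fin g ⊕ Fin g) (Fin g ⊕ Fin g) ℂ}

/-- The Hodge conjecture from the classes of degree four on the square. -/
theorem allHodge_of_square (h : PM Z) (hms : IsMS0 (DZ Z) bl ρ p) (𝒜 : Sys)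
    (hsq : ∀ f : (prodAV (AVZ h) (AVZ h)).H [⋀^Fin 4]→ₗ[ℚ] ℚ,
      IsHodge (prodAV (AVZ h) (AVZ h)).per f → 𝒜.A (prodAV (AVZ h) (AVZ h)) (Fin 4) f) (X : AV)
    (hX : ∀ Y, IsFactor Y X → IsFactor Y (AVZ h)) : 𝒜.AllHodge X := by
  refine allHodge_of 𝒜 h (fun κ _ _ => ?_) X hX
  exact inv_mem_anti hms (PM.sp' h) (Om_sq ℂ) (Om_transpose ℂ) (famTA 𝒜 h) (TA_two 𝒜 h)
    (fun t ht h1 h2 => TA_anti 𝒜 h (square_of 𝒜 h hsq) t ht h1 h2) κ

/-- **The generalized Hodge conjecture from the classes of degree four on the square.** -/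
theorem ghc_of_square (h : PM Z) (hms : IsMS (DZ Z) bl ρ p) (𝒜 : Sys)
    (hsq : ∀ f : (prodAV (AVZ h) (AVZ h)).H [⋀^Fin 4]→ₗ[ℚ] ℚ,
      IsHodge (prodAV (AVZ h) (AVZ h)).per f → 𝒜.A (prodAV (AVZ h) (AVZ h)) (Fin 4) f) (X : AV)
    (hX : ∀ Y, IsFactor Y X → IsFactor Y (AVZ h)) : Pool.Agent.N178.HX.GHC 𝒜 X :=
  ghc_of_hodge h hms 𝒜 (fun X hX => allHodge_of_square h hms.toIsMS0 𝒜 hsq X hX) X hX

end main

end

end Pool.Agent.H841.MS
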