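import Pool.Agent.H841.MS.Maps

/-!
# One block: the conjugates of the complex structure realize all factors
-/

set_option linter.unusedSectionVars false

namespace Pool.Agent.H841.MS

open Finset Matrix Module Pool.Agent.W437.HC Pool.Agent.V1168.GH
open Pool.Agent.W548.Odd

noncomputable section

variable {I : Type} [Fintype I] {B : Type} [Fintype B] [DecidableEq B]
  {ρ : I → Matrix (Fin 2) (Fin 2) ℂ →ₗ[ℂ] Matrix B B ℂ} {D : Matrix B B ℂ}

/-- An element of the commutant which is killed by a nonzero matrix is zero. -/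
theorem cancel (i : I) (hmul : ∀ X Y, ρ i (X * Y) = ρ i X * ρ i Y) (hone : ρ i 1 = 1)
    {R : Matrix B B ℂ} (hR : ∀ X, ρ i X * R = R * ρ i X) {W : Matrix (Fin 2) (Fin 2) ℂ}
    (hW : W ≠ 0) (h : ρ i W * R = 0) : R = 0 := by
  obtain ⟨a, b, hab⟩ : ∃ a b, W a b ≠ 0 := by
    by_contra hcon
    push Not at hcon
    exact hW (Matrix.ext fun a b => hcon a b)
  have e1 : ∀ c : Fin 2, (Matrix.single c a (1 : ℂ) : Matrix (Fin 2) (Fin 2) ℂ) * W *
      Matrix.single b c (1 : ℂ) = W a b • Matrix.single c c (1 : ℂ) := by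
    intro c
    rw [Matrix.single_mul_mul_single, one_mul, mul_one, Matrix.smul_single, smul_eq_mul, mul_one]
  have e2 : ∀ c, ρ i (Matrix.single c c 1) * R = 0 := by
    intro c
    have e3 : W a b • (ρ i (Matrix.single c c 1) * R) = 0 := by
      rw [← Matrix.smul_mul, ← map_smul, ← e1, hmul, hmul, Matrix.mul_assoc, hR,
        Matrix.mul_assoc, ← Matrix.mul_assoc (ρ i W), h, Matrix.zero_mul, Matrix.mul_zero]
    exact (smul_eq_zero.1 e3).resolve_left hab
  have e4 : (1 : Matrix (Fin 2) (Fin 2) ℂ) = ∑ c, Matrix.single c c 1 := by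
    ext x y
    fin_cases x <;> fin_cases y <;> simp [Fin.sum_univ_two]
  rw [← Matrix.one_mul R, ← hone, e4, map_sum, Finset.sum_mul]
  exact Finset.sum_eq_zero fun c _ => e2 c

theorem inj (i : I) (hmul : ∀ X Y, ρ i (X * Y) = ρ i X * ρ i Y) (hone : ρ i 1 = 1) [Nonempty B]
    {W : Matrix (Fin 2) (Fin 2) ℂ} (h : ρ i W = 0) : W = 0 := by
  by_contra hW
  have h1 := cancel i hmul hone (R := 1) (fun X => by rw [Matrix.mul_one, Matrix.one_mul]) hW
    (by rw [h, Matrix.zero_mul])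
  exact one_ne_zero h1

/-- Involutions in the Lie algebra belong to one factor. -/
theorem one_factor [Nonempty B] (hmul : ∀ i X Y, ρ i (X * Y) = ρ i X * ρ i Y)
    (hone : ∀ i, ρ i 1 = 1) (hcomm : ∀ i i', i ≠ i' → ∀ X Y, ρ i X * ρ i' Y = ρ i' Y * ρ i X)
    {E : Matrix B B ℂ} (hE : E * E = 1)
    (hmem : E ∈ Submodule.span ℂ {M | ∃ i X, Matrix.trace X = 0 ∧ M = ρ i X}) :
    ∃ i Y, Matrix.trace Y = 0 ∧ E = ρ i Y := by
  classical
  -- the expansion
  obtain ⟨Y, hY, hEY⟩ : ∃ Y : I → Matrix (Fin 2) (Fin 2) ℂ, (∀ i, (Y i).trace = 0) ∧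
      E = ∑ i, ρ i (Y i) := by
    clear hE
    induction hmem using Submodule.span_induction with
    | mem M hM =>
      obtain ⟨i, X, hX, rfl⟩ := hM
      refine ⟨Pi.single i X, fun i' => ?_, ?_⟩
      · by_cases h : i' = i
        · subst h
          rw [Pi.single_eq_same, hX]
        · rw [Pi.single_eq_of_ne h, Matrix.trace_zero]
      · rw [Finset.sum_eq_single i]
        · rw [Pi.single_eq_same]
        · intro i' _ h
          rw [Pi.single_eq_of_ne h, map_zero]
        · intro h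
          exact absurd (Finset.mem_univ i) h
    | zero => exact ⟨0, fun i => Matrix.trace_zero _ _, by simp⟩
    | add M M' _ _ hM hM' =>
      obtain ⟨Y, hY, rfl⟩ := hM
      obtain ⟨Y', hY', rfl⟩ := hM'
      refine ⟨Y + Y', fun i => ?_, ?_⟩
      · rw [Pi.add_apply, Matrix.trace_add, hY, hY', add_zero]
      · rw [← Finset.sum_add_distrib]
        exact Finset.sum_congr rfl fun i _ => by rw [Pi.add_apply, map_add]
    | smul a M _ hM =>
      obtain ⟨Y, hY, rfl⟩ := hM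
      refine ⟨a • Y, fun i => ?_, ?_⟩
      · rw [Pi.smul_apply, Matrix.trace_smul, hY, smul_zero]
      · rw [Finset.smul_sum]
        exact Finset.sum_congr rfl fun i _ => by rw [Pi.smul_apply, map_smul]
  obtain ⟨i, hi⟩ : ∃ i, Y i ≠ 0 := by
    by_contra hcon
    push Not at hcon
    have h1 : E = 0 := by
      rw [hEY]
      exact Finset.sum_eq_zero fun i _ => by rw [hcon, map_zero]
    rw [h1, Matrix.zero_mul] at hE
    exact one_ne_zero hE.symm
  refine ⟨i, Y i, hY i, ?_⟩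
  let R : Matrix B B ℂ := ∑ i' ∈ univ.erase i, ρ i' (Y i')
  have hER : E = ρ i (Y i) + R := by
    rw [hEY]
    exact (Finset.add_sum_erase _ _ (Finset.mem_univ i)).symm
  have hR : ∀ X, ρ i X * R = R * ρ i X := by
    intro X
    change ρ i X * ∑ i' ∈ univ.erase i, ρ i' (Y i') = (∑ i' ∈ univ.erase i, ρ i' (Y i')) * ρ i X
    rw [Finset.mul_sum, Finset.sum_mul]
    exact Finset.sum_congr rfl fun i' hi' => hcomm i i' (Finset.ne_of_mem_erase hi').symm _ _
  -- a matrix which does not commute with `Y i`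
  obtain ⟨X, hX⟩ : ∃ X : Matrix (Fin 2) (Fin 2) ℂ, X * Y i - Y i * X ≠ 0 := by
    by_contra hcon
    push Not at hcon
    apply hi
    have h1 := congrFun (congrFun (hcon (Matrix.single 0 1 1)) 0) 0
    have h2 := congrFun (congrFun (hcon (Matrix.single 0 1 1)) 0) 1
    have h3 := congrFun (congrFun (hcon (Matrix.single 1 0 1)) 0) 0
    have h4 := hY i
    rw [Matrix.trace_fin_two] at h4
    simp [Matrix.mul_apply, Fin.sum_univ_two] at h1 h2 h3
    have h5 : Y i 0 0 = 0 := by linear_combination (1 / 2 : ℂ) * h4 - (1 / 2 : ℂ) * h2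
    have h6 : Y i 1 1 = 0 := by linear_combination (1 / 2 : ℂ) * h4 + (1 / 2 : ℂ) * h2
    ext a b
    fin_cases a <;> fin_cases b <;> simp [h1, h3, h5, h6]
  have h1 : ρ i X * (E * E) - (E * E) * ρ i X = 0 := by
    rw [hE, Matrix.mul_one, Matrix.one_mul, sub_self]
  have hδ : ∀ W : Matrix (Fin 2) (Fin 2) ℂ, W.trace = 0 → ∀ X, X * (W * W) = (W * W) * X := by
    intro W hW X
    have h2 : W 1 1 = -W 0 0 := by
      rw [Matrix.trace_fin_two] at hW
      linear_combination hW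
    have h3 : W * W = (W 0 0 * W 0 0 + W 0 1 * W 1 0) • (1 : Matrix (Fin 2) (Fin 2) ℂ) := by
      ext x y
      fin_cases x <;> fin_cases y <;> simp [Matrix.mul_apply, Fin.sum_univ_two, h2] <;> ring
    rw [h3, Matrix.mul_smul, Matrix.smul_mul, Matrix.mul_one, Matrix.one_mul]
  have h2 : ρ i X * (E * E) - (E * E) * ρ i X = (2 : ℂ) • (ρ i (X * Y i - Y i * X) * R) := by
    have e1 : ρ i X * (ρ i (Y i) * ρ i (Y i)) = (ρ i (Y i) * ρ i (Y i)) * ρ i X := by
      rw [← hmul, ← hmul, ← hmul, hδ (Y i) (hY i)]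
    rw [hER, map_sub, hmul, hmul]
    have e2 : ρ i X * ((ρ i (Y i) + R) * (ρ i (Y i) + R)) -
        (ρ i (Y i) + R) * (ρ i (Y i) + R) * ρ i X =
        (ρ i X * (ρ i (Y i) * ρ i (Y i)) - (ρ i (Y i) * ρ i (Y i)) * ρ i X) +
        (ρ i X * ρ i (Y i) * R + ρ i X * (R * ρ i (Y i)) + ρ i X * R * R -
          ρ i (Y i) * (R * ρ i X) - R * ρ i (Y i) * ρ i X - R * (R * ρ i X)) := by
      noncomm_ring
    rw [e2, e1, sub_self, zero_add, ← hR (Y i), ← hR X, two_smul]
    have e3 : R * (ρ i X * R) = ρ i X * R * R := by rw [← Matrix.mul_assoc, ← hR]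
    rw [e3]
    have e4 : ρ i (Y i) * R * ρ i X = ρ i (Y i) * ρ i X * R := by
      rw [Matrix.mul_assoc, ← hR, ← Matrix.mul_assoc]
    rw [e4]
    noncomm_ring
  rw [h1] at h2
  have h3 := (smul_eq_zero.1 h2.symm).resolve_left two_ne_zero
  have h4 := cancel i (hmul i) (hone i) hR hX h3
  rw [hER, h4, add_zero]

/-- In the case of one block all factors occur. -/
theorem tra_one (hmul : ∀ i X Y, ρ i (X * Y) = ρ i X * ρ i Y)
    (hone : ∀ i, ρ i 1 = 1) (hcomm : ∀ i i', i ≠ i' → ∀ X Y, ρ i X * ρ i' Y = ρ i' Y * ρ i X)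
    (hD : D * D = 1)
    (hlie : LA {D} = Submodule.span ℂ {M | ∃ i X, Matrix.trace X = 0 ∧ M = ρ i X}) (i : I) :
    ∃ (σ : ℂ ≃+* ℂ) (Y : Matrix (Fin 2) (Fin 2) ℂ), Y.trace = 0 ∧ D.map σ = ρ i Y := by
  classical
  rcases isEmpty_or_nonempty B with hB | hB
  · exact ⟨RingEquiv.refl ℂ, 0, Matrix.trace_zero _ _, Subsingleton.elim _ _⟩
  by_contra hcon
  push Not at hcon
  have h1 : ∀ σ : ℂ ≃+* ℂ, ∃ i' Y, i' ≠ i ∧ Matrix.trace Y = 0 ∧ D.map σ = ρ i' Y := by
    intro σ
    have h2 : D.map σ * D.map σ = 1 := by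
      rw [← Matrix.map_mul, hD, Matrix.map_one _ (map_zero σ) (map_one σ)]
    have h3 : D.map σ ∈ LA {D} := LA_aut (σ : ℂ →+* ℂ) (LA_self (Set.mem_singleton D))
    rw [hlie] at h3
    obtain ⟨i', Y, hY, hYD⟩ := one_factor hmul hone hcomm h2 h3
    refine ⟨i', Y, ?_, hY, hYD⟩
    rintro rfl
    exact hcon σ Y hY hYD
  let S : Submodule ℂ (Matrix B B ℂ) :=
    { carrier := {M | ∀ X, ρ i X * M = M * ρ i X}
      zero_mem' := fun X => by rw [Matrix.mul_zero, Matrix.zero_mul]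
      add_mem' := by
        intro M M' hM hM' X
        rw [Matrix.mul_add, Matrix.add_mul, hM, hM']
      smul_mem' := by
        intro a M hM X
        rw [Matrix.mul_smul, Matrix.smul_mul, hM] }
  have h2 : LA {D} ≤ S := by
    refine LA_le_of_conj (fun d hd σ => ?_) fun M hM M' hM' X => ?_
    · obtain ⟨i', Y, hne, -, h3⟩ := h1 σ
      rw [Set.mem_singleton_iff.1 hd, h3]
      exact fun X => hcomm i i' hne.symm X Y
    · rw [Matrix.mul_sub, Matrix.sub_mul, ← Matrix.mul_assoc, hM, Matrix.mul_assoc, hM',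
        ← Matrix.mul_assoc, ← Matrix.mul_assoc, hM', Matrix.mul_assoc M', hM, ← Matrix.mul_assoc]
  have h3 : ρ i (Matrix.single 0 1 1) ∈ LA {D} := by
    rw [hlie]
    exact Submodule.subset_span ⟨i, _, by rw [Matrix.trace_fin_two]; simp, rfl⟩
  have h4 := h2 h3 (Matrix.single 1 0 1)
  have h5 := sub_eq_zero.2 h4
  rw [← hmul, ← hmul, ← map_sub] at h5
  have h6 := inj i (hmul i) (hone i) h5
  have h7 := congrFun (congrFun h6 0) 0
  simp [Matrix.mul_apply, Fin.sum_univ_two] at h7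

end

end Pool.Agent.H841.MS
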