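import Pool.Agent.H841.MS.Inv

/-!
# The exchanges from the antisymmetric invariants of degree four
-/

set_option linter.unusedSectionVars false

namespace Pool.Agent.H841.MS

open Finset Matrix Module Pool.Agent.W437.HC Pool.Agent.V1168.GH
open Pool.Agent.W548.Odd
open Pool.Agent.N634.GHC (card_two WW tensor_inv single_eq act_WW)

noncomputable section

/-- The adjugate of a matrix with two rows. -/
def ad (X : Matrix (Fin 2) (Fin 2) ℂ) : Matrix (Fin 2) (Fin 2) ℂ := X.trace • 1 - X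

theorem ad_mu (a b : Fin 2) : ad (mu a b) = (if a = b then (1 : ℂ) else 0) • 1 - mu a b := by
  unfold ad
  congr 2
  by_cases h : a = b
  · subst h
    rw [if_pos rfl, Matrix.trace_single_eq_same]
  · rw [if_neg h, Matrix.trace_single_eq_of_ne _ _ _ h]

theorem mu_mul (a b c d : Fin 2) : mu a b * mu c d = if b = c then mu a d else 0 := by
  by_cases h : b = c
  · subst h
    rw [if_pos rfl, Matrix.single_mul_single_same, one_mul]
  · rw [if_neg h, Matrix.single_mul_single_of_ne _ _ _ _ h]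

theorem trace_mu_mul (a b : Fin 2) (X : Matrix (Fin 2) (Fin 2) ℂ) : (mu a b * X).trace = X b a := by
  rw [Matrix.trace_fin_two]
  fin_cases a <;> fin_cases b <;> simp [Matrix.mul_apply, Fin.sum_univ_two, Matrix.single_apply]

theorem sum_mu (X : Matrix (Fin 2) (Fin 2) ℂ) : ∑ a, ∑ b, (mu a b * X).trace • mu b a = X := by
  ext x y
  simp only [trace_mu_mul, Fin.sum_univ_two]
  fin_cases x <;> fin_cases y <;> simp [Matrix.single_apply]

theorem one_eq_mu : (1 : Matrix (Fin 2) (Fin 2) ℂ) = ∑ a, mu a a := by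
  ext x y
  fin_cases x <;> fin_cases y <;> simp [Fin.sum_univ_two]

section mat

variable {B : Type} [Fintype B] [DecidableEq B] {Om : Matrix B B ℂ}
  {r : Matrix (Fin 2) (Fin 2) ℂ →ₗ[ℂ] Matrix B B ℂ} {d : ℂ}

/-- The projection to the image of `r`, up to a factor. -/
def EE (r : Matrix (Fin 2) (Fin 2) ℂ →ₗ[ℂ] Matrix B B ℂ) : Matrix B B ℂ →ₗ[ℂ] Matrix B B ℂ :=
  ∑ a, ∑ b, LinearMap.smulRight ((Matrix.traceLinearMap B ℂ ℂ).comp
    (LinearMap.mulLeft ℂ (r (mu a b)))) (r (mu b a))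

/-- The projection to the commutant of `r`, up to a factor. -/
def FF (r : Matrix (Fin 2) (Fin 2) ℂ →ₗ[ℂ] Matrix B B ℂ) : Matrix B B ℂ →ₗ[ℂ] Matrix B B ℂ :=
  ∑ a, ∑ b, (LinearMap.mulLeft ℂ (r (mu a b))).comp (LinearMap.mulRight ℂ (r (mu b a)))

/-- The projection to the multiples of the projection, up to a factor. -/
def KK (r : Matrix (Fin 2) (Fin 2) ℂ →ₗ[ℂ] Matrix B B ℂ) : Matrix B B ℂ →ₗ[ℂ] Matrix B B ℂ :=
  LinearMap.smulRight ((Matrix.traceLinearMap B ℂ ℂ).comp (LinearMap.mulLeft ℂ (r 1))) (r 1)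

theorem EE_apply (V : Matrix B B ℂ) :
    EE r V = ∑ a, ∑ b, (r (mu a b) * V).trace • r (mu b a) := by
  unfold EE
  rw [LinearMap.sum_apply]
  refine Finset.sum_congr rfl fun a _ => ?_
  rw [LinearMap.sum_apply]
  rfl

theorem FF_apply (V : Matrix B B ℂ) : FF r V = ∑ a, ∑ b, r (mu a b) * (V * r (mu b a)) := by
  unfold FF
  rw [LinearMap.sum_apply]
  refine Finset.sum_congr rfl fun a _ => ?_
  rw [LinearMap.sum_apply]
  rfl

theorem KK_apply (V : Matrix B B ℂ) : KK r V = (r 1 * V).trace • r 1 := rfl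

/-- The conditions on `r`. -/
structure Adj (Om : Matrix B B ℂ) (r : Matrix (Fin 2) (Fin 2) ℂ →ₗ[ℂ] Matrix B B ℂ) (d : ℂ) :
    Prop where
  Om2 : Om * Om = -1
  OmT : Omᵀ = -Om
  mul : ∀ X Y, r (X * Y) = r X * r Y
  adj : ∀ X, Om * r X = (r (ad X))ᵀ * Om
  tr : ∀ X, (r X).trace = d * X.trace
  d2 : 2 + d ≠ 0

namespace Adj

variable (h : Adj Om r d)
include h

theorem EE_r (X : Matrix (Fin 2) (Fin 2) ℂ) : EE r (r X) = d • r X := by
  rw [EE_apply]
  conv_rhs => rw [← sum_mu X, map_sum, Finset.smul_sum]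
  refine Finset.sum_congr rfl fun a _ => ?_
  rw [map_sum, Finset.smul_sum]
  refine Finset.sum_congr rfl fun b _ => ?_
  rw [← h.mul, h.tr, map_smul, smul_smul]

theorem FF_r (X : Matrix (Fin 2) (Fin 2) ℂ) : FF r (r X) = X.trace • r 1 := by
  rw [FF_apply, ← map_smul]
  have h1 : X.trace • (1 : Matrix (Fin 2) (Fin 2) ℂ) = ∑ a, ∑ b, mu a b * (X * mu b a) := by
    rw [Matrix.trace_fin_two]
    ext x y
    simp only [Fin.sum_univ_two]
    fin_cases x <;> fin_cases y <;>
      simp [Matrix.mul_apply, Fin.sum_univ_two, Matrix.single_apply]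
  rw [h1, map_sum]
  refine Finset.sum_congr rfl fun a _ => ?_
  rw [map_sum]
  refine Finset.sum_congr rfl fun b _ => ?_
  rw [h.mul, h.mul]

theorem EE_EE (V : Matrix B B ℂ) : EE r (EE r V) = d • EE r V := by
  rw [EE_apply V, map_sum, Finset.smul_sum]
  refine Finset.sum_congr rfl fun a _ => ?_
  rw [map_sum, Finset.smul_sum]
  refine Finset.sum_congr rfl fun b _ => ?_
  rw [map_smul, h.EE_r, smul_comm]

theorem FF_EE (V : Matrix B B ℂ) : FF r (EE r V) = KK r V := by
  rw [EE_apply V, map_sum, KK_apply]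
  have h1 : ∀ a b : Fin 2, (mu b a).trace = if a = b then (1 : ℂ) else 0 := by
    intro a b
    by_cases hab : a = b
    · subst hab
      rw [if_pos rfl, Matrix.trace_single_eq_same]
    · rw [if_neg hab, Matrix.trace_single_eq_of_ne _ _ _ (Ne.symm hab)]
  have h2 : ∀ a, FF r (∑ b, (r (mu a b) * V).trace • r (mu b a)) =
      (r (mu a a) * V).trace • r 1 := by
    intro a
    rw [map_sum, Finset.sum_eq_single a]
    · rw [map_smul, h.FF_r, h1, if_pos rfl, one_smul]
    · intro b _ hb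
      rw [map_smul, h.FF_r, h1, if_neg (Ne.symm hb), zero_smul, smul_zero]
    · intro h0
      exact absurd (Finset.mem_univ _) h0
  rw [Finset.sum_congr rfl fun a _ => h2 a, ← Finset.sum_smul]
  congr 1
  rw [one_eq_mu, map_sum, Finset.sum_mul, Matrix.trace_sum]

theorem EE_FF (V : Matrix B B ℂ) : EE r (FF r V) = KK r V := by
  rw [EE_apply (FF r V), KK_apply]
  have h1 : ∀ a b : Fin 2, (r (mu a b) * FF r V).trace =
      if a = b then (r 1 * V).trace else 0 := by
    intro a b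
    rw [FF_apply, Finset.mul_sum, Matrix.trace_sum]
    have h2 : ∀ c, (r (mu a b) * ∑ e, r (mu c e) * (V * r (mu e c))).trace =
        if b = c then (if a = c then (r 1 * V).trace else 0) else 0 := by
      intro c
      rw [Finset.mul_sum, Matrix.trace_sum]
      have h3 : ∀ e, (r (mu a b) * (r (mu c e) * (V * r (mu e c)))).trace =
          if b = c then (if a = c then (r (mu e e) * V).trace else 0) else 0 := by
        intro e
        rw [← Matrix.mul_assoc, ← h.mul, ← Matrix.mul_assoc, Matrix.trace_mul_comm,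
          ← Matrix.mul_assoc, ← h.mul, mu_mul]
        by_cases hbc : b = c
        · rw [if_pos hbc, if_pos hbc, mu_mul]
          by_cases hac : a = c
          · rw [if_pos hac, if_pos hac.symm]
          · rw [if_neg hac, if_neg (Ne.symm hac), map_zero, Matrix.zero_mul, Matrix.trace_zero]
        · rw [if_neg hbc, if_neg hbc, Matrix.mul_zero, map_zero, Matrix.zero_mul,
            Matrix.trace_zero]
      rw [Finset.sum_congr rfl fun e _ => h3 e]
      by_cases hbc : b = c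
      · simp only [if_pos hbc]
        by_cases hac : a = c
        · simp only [if_pos hac]
          rw [one_eq_mu, map_sum, Finset.sum_mul, Matrix.trace_sum]
        · simp only [if_neg hac, Finset.sum_const_zero]
      · simp only [if_neg hbc, Finset.sum_const_zero]
    rw [Finset.sum_congr rfl fun c _ => h2 c, Finset.sum_ite_eq, if_pos (Finset.mem_univ b)]
  have h4 : ∀ a, ∑ b, (r (mu a b) * FF r V).trace • r (mu b a) =
      (r 1 * V).trace • r (mu a a) := by
    intro a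
    rw [Finset.sum_eq_single a]
    · rw [h1, if_pos rfl]
    · intro b _ hb
      rw [h1, if_neg (Ne.symm hb), zero_smul]
    · intro h0
      exact absurd (Finset.mem_univ _) h0
  rw [Finset.sum_congr rfl fun a _ => h4 a, ← Finset.smul_sum, ← map_sum, ← one_eq_mu]

theorem FF_FF (V : Matrix B B ℂ) : FF r (FF r V) = (2 : ℂ) • FF r V := by
  have h1 : ∀ a b, r (mu a b) * (FF r V * r (mu b a)) =
      ∑ e, r (mu a e) * (V * r (mu e a)) := by
    intro a b
    rw [FF_apply, Finset.sum_mul, Finset.mul_sum, Finset.sum_eq_single b]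
    · rw [Finset.sum_mul, Finset.mul_sum]
      refine Finset.sum_congr rfl fun e _ => ?_
      rw [Matrix.mul_assoc, Matrix.mul_assoc, ← h.mul, ← Matrix.mul_assoc, ← h.mul, mu_mul,
        mu_mul, if_pos rfl, if_pos rfl]
    · intro c _ hc
      rw [Finset.sum_mul, Finset.mul_sum]
      refine Finset.sum_eq_zero fun e _ => ?_
      rw [Matrix.mul_assoc, ← Matrix.mul_assoc, ← h.mul, mu_mul, if_neg (Ne.symm hc), map_zero,
        Matrix.zero_mul]
    · intro h0
      exact absurd (Finset.mem_univ _) h0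
  rw [FF_apply (FF r V)]
  have h2 : ∀ a, ∑ b, r (mu a b) * (FF r V * r (mu b a)) =
      (2 : ℂ) • ∑ e, r (mu a e) * (V * r (mu e a)) := by
    intro a
    rw [Finset.sum_congr rfl fun b _ => h1 a b, Finset.sum_const, Finset.card_univ,
      Fintype.card_fin, two_smul, two_smul]
  rw [Finset.sum_congr rfl fun a _ => h2 a, ← Finset.smul_sum, ← FF_apply]

/-- The relation. -/
theorem rel (V : Matrix B B ℂ) : (2 + d) • FF r V =
    (FF r - EE r) ((FF r - EE r) V) + d • (FF r - EE r) V + (2 : ℂ) • KK r V := by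
  rw [LinearMap.sub_apply, LinearMap.sub_apply, map_sub, map_sub, h.FF_FF, h.FF_EE, h.EE_FF,
    h.EE_EE]
  module

end Adj

/-- The difference. -/
def YY (r : Matrix (Fin 2) (Fin 2) ℂ →ₗ[ℂ] Matrix B B ℂ) : Matrix B B ℂ →ₗ[ℂ] Matrix B B ℂ :=
  FF r - EE r

/-- The conjugate of a map by `Om`. -/
def cj (Om : Matrix B B ℂ) (Φ : Matrix B B ℂ → Matrix B B ℂ) (U : Matrix B B ℂ) : Matrix B B ℂ :=
  -(Om * Φ (Om * U))

theorem Adj.rel' (h : Adj Om r d) (U : Matrix B B ℂ) : cj Om (FF r) U = (2 + d)⁻¹ •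
    (cj Om (YY r) (cj Om (YY r) U) + d • cj Om (YY r) U + (2 : ℂ) • cj Om (KK r) U) := by
  have h1 : Om * -(Om * (YY r) (Om * U)) = (YY r) (Om * U) := by
    rw [Matrix.mul_neg, ← Matrix.mul_assoc, h.Om2, Matrix.neg_mul, Matrix.one_mul, neg_neg]
  have h2 := h.rel (Om * U)
  rw [eq_inv_smul_iff₀ h.d2]
  unfold cj
  rw [h1, smul_neg, smul_neg, smul_neg, ← Matrix.mul_smul, h2, Matrix.mul_add, Matrix.mul_add,
    Matrix.mul_smul, Matrix.mul_smul]
  change -(Om * YY r (YY r (Om * U)) + d • (Om * YY r (Om * U)) + _) = _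
  abel

/-- The exchange in coordinates. -/
theorem Adj.cj_FF (h : Adj Om r d) (U : Matrix B B ℂ) : cj Om (FF r) U =
    (r 1)ᵀ * U * r 1 - ∑ a, ∑ b, (r (mu a b))ᵀ * U * r (mu b a) := by
  unfold cj
  rw [FF_apply, Finset.mul_sum, ← Finset.sum_neg_distrib]
  have h1 : ∀ a, -(Om * ∑ b, r (mu a b) * (Om * U * r (mu b a))) =
      (r 1)ᵀ * U * r (mu a a) - ∑ b, (r (mu a b))ᵀ * U * r (mu b a) := by
    intro a
    rw [Finset.mul_sum, ← Finset.sum_neg_distrib]
    have h2 : ∀ b, -(Om * (r (mu a b) * (Om * U * r (mu b a)))) =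
        (if a = b then (r 1)ᵀ * U * r (mu b a) else 0) - (r (mu a b))ᵀ * U * r (mu b a) := by
      intro b
      have e1 : Om * (r (mu a b) * (Om * U * r (mu b a))) =
          (r (ad (mu a b)))ᵀ * ((Om * Om) * U * r (mu b a)) := by
        rw [← Matrix.mul_assoc, h.adj]
        simp only [Matrix.mul_assoc]
      rw [e1, h.Om2, ad_mu, map_sub, map_smul, Matrix.neg_mul, Matrix.neg_mul, Matrix.mul_neg,
        neg_neg, Matrix.one_mul, Matrix.transpose_sub, Matrix.sub_mul, ← Matrix.mul_assoc,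
        ← Matrix.mul_assoc]
      congr 1
      by_cases hab : a = b
      · rw [if_pos hab, if_pos hab, one_smul]
      · rw [if_neg hab, if_neg hab, zero_smul, Matrix.transpose_zero, Matrix.zero_mul,
          Matrix.zero_mul]
    rw [Finset.sum_congr rfl fun b _ => h2 b, Finset.sum_sub_distrib, Finset.sum_ite_eq,
      if_pos (Finset.mem_univ a)]
  rw [Finset.sum_congr rfl fun a _ => h1 a, Finset.sum_sub_distrib, ← Finset.mul_sum, ← map_sum,
    ← one_eq_mu]

end mat

section slots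

variable {B : Type} [Fintype B] [DecidableEq B] {Om : Matrix B B ℂ}
  {κ : Type} [Fintype κ] [DecidableEq κ] {k l : κ}

/-- The matrix of a tensor in two slots. -/
def Uof (k l : κ) (u : Tn κ B) (x : κ → B) : Matrix B B ℂ := fun b b' =>
  u (Function.update (Function.update x k b) l b')

/-- The operator given by a map of matrices. -/
def lf (k l : κ) (Φ : Matrix B B ℂ → Matrix B B ℂ) (u : Tn κ B) : Tn κ B := fun x =>
  Φ (Uof k l u x) (x k) (x l)

theorem Uof_lf (hkl : k ≠ l) (Φ : Matrix B B ℂ → Matrix B B ℂ) (u : Tn κ B) (x : κ → B) :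
    Uof k l (lf k l Φ u) x = Φ (Uof k l u x) := by
  funext b b'
  change Φ (Uof k l u (Function.update (Function.update x k b) l b')) _ _ = _
  rw [Function.update_self, Function.update_of_ne hkl, Function.update_self]
  have h1 : Uof k l u (Function.update (Function.update x k b) l b') = Uof k l u x := by
    funext c c'
    unfold Uof
    refine congrArg u (funext fun m => ?_)
    by_cases hm : m = l
    · subst hm
      rw [Function.update_self, Function.update_self]
    · rw [Function.update_of_ne hm, Function.update_of_ne hm]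
      by_cases hk : m = k
      · subst hk
        rw [Function.update_self, Function.update_self]
      · rw [Function.update_of_ne hk, Function.update_of_ne hk, Function.update_of_ne hm,
          Function.update_of_ne hk]
  rw [h1]

theorem lf_lf (hkl : k ≠ l) (Φ Ψ : Matrix B B ℂ → Matrix B B ℂ) (u : Tn κ B) :
    lf k l Φ (lf k l Ψ u) = lf k l (fun U => Φ (Ψ U)) u := by
  funext x
  change Φ (Uof k l (lf k l Ψ u) x) _ _ = _
  rw [Uof_lf hkl]
  rfl

/-- The operator given by a tensor. -/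
def opt (Om : Matrix B B ℂ) (hkl : k ≠ l) (τ : Tn (Fin 2 ⊕ Fin 2) B) (u : Tn κ B) : Tn κ B :=
  ctr Om (ctr Om (rnm (ren hkl) (prd u τ)))

theorem opt_mem (F : Fam Om) (hkl : k ≠ l) {τ : Tn (Fin 2 ⊕ Fin 2) B}
    (hτ : τ ∈ F.N (Fin 2 ⊕ Fin 2)) {u : Tn κ B} (hu : u ∈ F.N κ) : opt Om hkl τ u ∈ F.N κ :=
  F.ctr _ (F.ctr _ (F.rnm _ _ (F.prd _ _ hu hτ)))

theorem opt_apply (hkl : k ≠ l) (τ : Tn (Fin 2 ⊕ Fin 2) B) (u : Tn κ B) (x : κ → B) :
    opt Om hkl τ u x = ∑ b, ∑ b', Uof k l u x b b' * ∑ a, ∑ a', Om a b *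
      (Om a' b' * τ (Sum.elim ![a, a'] ![x k, x l])) := by
  have e1 : ∀ a b a' b', rnm (ren hkl) (prd u τ)
      (Sum.elim (Sum.elim x ![a, b]) ![a', b']) = Uof k l u x b b' *
        τ (Sum.elim ![a, a'] ![x k, x l]) := by
    intro a b a' b'
    unfold rnm prd
    congr 1
    · change u _ = u _
      congr 1
      funext m
      by_cases h1 : m = l
      · subst h1
        rw [Function.update_self]
        simp [ren, hkl.symm]
      · rw [Function.update_of_ne h1]
        by_cases h2 : m = k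
        · subst h2
          rw [Function.update_self]
          simp [ren]
        · rw [Function.update_of_ne h2]
          simp [ren, h1, h2]
    · congr 1
      funext m
      rcases m with m | m
      · fin_cases m <;> simp [ren]
      · fin_cases m <;> simp [ren]
  have e6 : opt Om hkl τ u x =
      ∑ a, ∑ b, Om a b * ∑ a', ∑ b', Om a' b' * (Uof k l u x b b' *
        τ (Sum.elim ![a, a'] ![x k, x l])) := by
    unfold opt ctr
    refine Finset.sum_congr rfl fun a _ => Finset.sum_congr rfl fun b _ => ?_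
    congr 1
    refine Finset.sum_congr rfl fun a' _ => Finset.sum_congr rfl fun b' _ => ?_
    rw [e1]
  rw [e6, Finset.sum_comm]
  refine Finset.sum_congr rfl fun b _ => ?_
  have e7 : ∀ b', Uof k l u x b b' * ∑ a, ∑ a', Om a b *
      (Om a' b' * τ (Sum.elim ![a, a'] ![x k, x l])) =
      ∑ a, ∑ a', Om a b * (Om a' b' * (Uof k l u x b b' *
        τ (Sum.elim ![a, a'] ![x k, x l]))) := by
    intro b'
    rw [Finset.mul_sum]
    refine Finset.sum_congr rfl fun a _ => ?_
    rw [Finset.mul_sum]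
    exact Finset.sum_congr rfl fun a' _ => by ring
  rw [Finset.sum_congr rfl fun b' _ => e7 b']
  conv_rhs => rw [Finset.sum_comm]
  refine Finset.sum_congr rfl fun a _ => ?_
  rw [Finset.mul_sum]
  conv_rhs => rw [Finset.sum_comm]
  refine Finset.sum_congr rfl fun a' _ => ?_
  rw [Finset.mul_sum]

theorem Uof_swap (hkl : k ≠ l) (u : Tn κ B) (x : κ → B) :
    Uof k l (rnm (Equiv.swap k l) u) x = (Uof k l u x)ᵀ := by
  funext b b'
  rw [Matrix.transpose_apply]
  unfold Uof rnm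
  congr 1
  funext m
  rw [Function.comp_apply]
  by_cases h1 : m = k
  · subst h1
    rw [Equiv.swap_apply_left, Function.update_self, Function.update_of_ne hkl,
      Function.update_self]
  · by_cases h2 : m = l
    · subst h2
      rw [Equiv.swap_apply_right, Function.update_of_ne hkl, Function.update_self,
        Function.update_self]
    · rw [Equiv.swap_apply_of_ne_of_ne h1 h2, Function.update_of_ne h2, Function.update_of_ne h1,
        Function.update_of_ne h2, Function.update_of_ne h1]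

end slots

section swaps

theorem sum_swap4 {α β γ δ : Type} [Fintype α] [Fintype β] [Fintype γ] [Fintype δ]
    (f : α → β → γ → δ → ℂ) : ∑ a, ∑ b, ∑ c, ∑ e, f a b c e = ∑ c, ∑ e, ∑ a, ∑ b, f a b c e := by
  have h1 : ∀ a, ∑ b, ∑ c, ∑ e, f a b c e = ∑ c, ∑ e, ∑ b, f a b c e := by
    intro a
    rw [Finset.sum_comm]
    refine Finset.sum_congr rfl fun c _ => ?_
    rw [Finset.sum_comm]
  rw [Finset.sum_congr rfl fun a _ => h1 a, Finset.sum_comm]
  refine Finset.sum_congr rfl fun c _ => ?_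
  rw [Finset.sum_comm]

end swaps

section tensors

variable {B : Type} [Fintype B] [DecidableEq B] {Om : Matrix B B ℂ}
  {κ : Type} [Fintype κ] [DecidableEq κ] {k l : κ}
  {r : Matrix (Fin 2) (Fin 2) ℂ →ₗ[ℂ] Matrix B B ℂ} {d : ℂ}

/-- The tensor of a bilinear form. -/
def w2 (A : Matrix B B ℂ) : Tn (Fin 2) B := fun I => A (I 0) (I 1)

/-- The product of two bilinear forms. -/
def tP (A : Matrix B B ℂ) : Tn (Fin 2 ⊕ Fin 2) B := fun z =>
  A (z (Sum.inl 0)) (z (Sum.inr 0)) * A (z (Sum.inl 1)) (z (Sum.inr 1))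

theorem tP_mem (F : Fam Om) {A : Matrix B B ℂ} (hA : w2 A ∈ F.N (Fin 2)) :
    tP A ∈ F.N (Fin 2 ⊕ Fin 2) :=
  F.rnm (Equiv.swap (Sum.inl 1) (Sum.inr 0)) _ (F.prd _ _ hA hA)

theorem tK_mem (F : Fam Om) {A : Matrix B B ℂ} (hA : w2 A ∈ F.N (Fin 2)) :
    prd (w2 A) (w2 A) ∈ F.N (Fin 2 ⊕ Fin 2) := F.prd _ _ hA hA

theorem opt_tP (hkl : k ≠ l) (A : Matrix B B ℂ) (u : Tn κ B) :
    opt Om hkl (tP A) u = lf k l (fun U => (Omᵀ * A)ᵀ * U * (Omᵀ * A)) u := by
  funext x
  rw [opt_apply]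
  change _ = ((Omᵀ * A)ᵀ * Uof k l u x * (Omᵀ * A)) (x k) (x l)
  rw [Matrix.mul_apply]
  have h1 : ∀ b', ((Omᵀ * A)ᵀ * Uof k l u x) (x k) b' * (Omᵀ * A) b' (x l) =
      ∑ b, Uof k l u x b b' * ((Omᵀ * A) b (x k) * (Omᵀ * A) b' (x l)) := by
    intro b'
    rw [Matrix.mul_apply, Finset.sum_mul]
    refine Finset.sum_congr rfl fun b _ => ?_
    rw [Matrix.transpose_apply]
    ring
  rw [Finset.sum_congr rfl fun b' _ => h1 b', Finset.sum_comm]
  refine Finset.sum_congr rfl fun b' _ => Finset.sum_congr rfl fun b _ => ?_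
  congr 1
  rw [Matrix.mul_apply, Matrix.mul_apply, Finset.sum_mul_sum]
  refine Finset.sum_congr rfl fun a _ => Finset.sum_congr rfl fun a' _ => ?_
  rw [Matrix.transpose_apply, Matrix.transpose_apply]
  change _ * (_ * (A a (x k) * A a' (x l))) = _
  ring

theorem opt_tK (hkl : k ≠ l) (A : Matrix B B ℂ) (u : Tn κ B) :
    opt Om hkl (prd (w2 A) (w2 A)) u =
      lf k l (fun U => (U * (Omᵀ * A * Om)ᵀ).trace • A) u := by
  funext x
  rw [opt_apply]
  change _ = (Uof k l u x * (Omᵀ * A * Om)ᵀ).trace * A (x k) (x l)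
  unfold Matrix.trace
  rw [Finset.sum_mul]
  refine Finset.sum_congr rfl fun b _ => ?_
  rw [Matrix.diag_apply, Matrix.mul_apply, Finset.sum_mul]
  refine Finset.sum_congr rfl fun b' _ => ?_
  rw [mul_assoc]
  congr 1
  rw [Matrix.transpose_apply, Matrix.mul_apply, Finset.sum_mul, Finset.sum_comm]
  refine Finset.sum_congr rfl fun a' _ => ?_
  rw [Matrix.mul_apply, Finset.sum_mul, Finset.sum_mul]
  refine Finset.sum_congr rfl fun a _ => ?_
  rw [Matrix.transpose_apply]
  change _ * (_ * (A a a' * A (x k) (x l))) = _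
  ring

/-- The crossed tensor. -/
def tC (Om : Matrix B B ℂ) (r : Matrix (Fin 2) (Fin 2) ℂ →ₗ[ℂ] Matrix B B ℂ) :
    Tn (Fin 2 ⊕ Fin 2) B := fun z =>
  ∑ s, ∑ t, ((r (mu s t))ᵀ * Om) (z (Sum.inl 1)) (z (Sum.inl 0)) *
    ((r (mu t s))ᵀ * Om) (z (Sum.inr 1)) (z (Sum.inr 0)) -
  ∑ s, ∑ t, ((r (mu s t))ᵀ * Om) (z (Sum.inl 1)) (z (Sum.inr 0)) *
    ((r (mu t s))ᵀ * Om) (z (Sum.inr 1)) (z (Sum.inl 0))

theorem sum_four (U M : B → B → ℂ) (N : B → B → ℂ) (Om' : B → B → ℂ) :
    ∑ b, ∑ b', U b b' * ∑ a, ∑ a', Om' a b * (Om' a' b' * (M a a' * N a' a)) =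
      ∑ b, ∑ b', ∑ a, ∑ a', U b b' * (Om' a b * (Om' a' b' * (M a a' * N a' a))) := by
  refine Finset.sum_congr rfl fun b _ => Finset.sum_congr rfl fun b' _ => ?_
  rw [Finset.mul_sum]
  refine Finset.sum_congr rfl fun a _ => ?_
  rw [Finset.mul_sum]

/-- The first term. -/
theorem tC_one (U G : Matrix B B ℂ) : ∑ b, ∑ b', Uᵀ b b' * ∑ a, ∑ a', Om a b *
    (Om a' b' * G a' a) = (U * (Omᵀ * Gᵀ * Om)).trace := by
  rw [Finset.sum_comm]
  unfold Matrix.trace
  refine Finset.sum_congr rfl fun b' _ => ?_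
  rw [Matrix.diag_apply, Matrix.mul_apply]
  refine Finset.sum_congr rfl fun b _ => ?_
  rw [Matrix.transpose_apply]
  congr 1
  rw [Matrix.mul_apply, Finset.sum_comm]
  refine Finset.sum_congr rfl fun a' _ => ?_
  rw [Matrix.mul_apply, Finset.sum_mul]
  refine Finset.sum_congr rfl fun a _ => ?_
  rw [Matrix.transpose_apply, Matrix.transpose_apply]
  ring

/-- The second term. -/
theorem tC_two (U G G' : Matrix B B ℂ) (c c' : B) : ∑ b, ∑ b', Uᵀ b b' * ∑ a, ∑ a', Om a b *
    (Om a' b' * (G a' c * G' c' a)) = ((G' * Om) * Uᵀ * (Omᵀ * G)) c' c := by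
  rw [Matrix.mul_apply, Finset.sum_comm]
  refine Finset.sum_congr rfl fun b' _ => ?_
  rw [Matrix.mul_apply, Finset.sum_mul]
  refine Finset.sum_congr rfl fun b _ => ?_
  rw [Matrix.mul_apply, Matrix.mul_apply]
  have h1 : (∑ a, G' c' a * Om a b) * Uᵀ b b' * ∑ a', Omᵀ b' a' * G a' c =
      Uᵀ b b' * ((∑ a, G' c' a * Om a b) * ∑ a', Omᵀ b' a' * G a' c) := by ring
  rw [h1, Finset.sum_mul_sum]
  congr 1
  refine Finset.sum_congr rfl fun a _ => Finset.sum_congr rfl fun a' _ => ?_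
  rw [Matrix.transpose_apply]
  ring

theorem opt_tC (h : Adj Om r d) (hkl : k ≠ l) (u : Tn κ B) :
    opt Om hkl (tC Om r) (rnm (Equiv.swap k l) u) = lf k l (cj Om (YY r)) u := by
  funext x
  rw [opt_apply, Uof_swap hkl]
  change _ = cj Om (YY r) (Uof k l u x) (x k) (x l)
  obtain ⟨U, hU⟩ : ∃ U, U = Uof k l u x := ⟨_, rfl⟩
  rw [← hU]
  have h0 : ∀ b b', ∑ a, ∑ a', Om a b * (Om a' b' * tC Om r (Sum.elim ![a, a'] ![x k, x l])) =
      ∑ s, ∑ t, ((∑ a, ∑ a', Om a b * (Om a' b' * ((r (mu s t))ᵀ * Om) a' a)) *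
        ((r (mu t s))ᵀ * Om) (x l) (x k)) -
      ∑ s, ∑ t, ∑ a, ∑ a', Om a b * (Om a' b' * (((r (mu s t))ᵀ * Om) a' (x k) *
        ((r (mu t s))ᵀ * Om) (x l) a)) := by
    intro b b'
    have e1 : ∀ a a', Om a b * (Om a' b' * tC Om r (Sum.elim ![a, a'] ![x k, x l])) =
        ∑ s, ∑ t, Om a b * (Om a' b' * ((r (mu s t))ᵀ * Om) a' a) *
          ((r (mu t s))ᵀ * Om) (x l) (x k) -
        ∑ s, ∑ t, Om a b * (Om a' b' * (((r (mu s t))ᵀ * Om) a' (x k) *
          ((r (mu t s))ᵀ * Om) (x l) a)) := by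
      intro a a'
      have e2 : tC Om r (Sum.elim ![a, a'] ![x k, x l]) =
          ∑ s, ∑ t, ((r (mu s t))ᵀ * Om) a' a * ((r (mu t s))ᵀ * Om) (x l) (x k) -
          ∑ s, ∑ t, ((r (mu s t))ᵀ * Om) a' (x k) * ((r (mu t s))ᵀ * Om) (x l) a := rfl
      rw [e2, mul_sub, mul_sub]
      congr 1
      · simp only [Finset.mul_sum]
        exact Finset.sum_congr rfl fun s _ => Finset.sum_congr rfl fun t _ => by ring
      · simp only [Finset.mul_sum]
    rw [Finset.sum_congr rfl fun a _ => Finset.sum_congr rfl fun a' _ => e1 a a']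
    simp only [Finset.sum_sub_distrib]
    congr 1
    · have e3 : ∀ s t : Fin 2, (∑ a, ∑ a', Om a b * (Om a' b' * ((r (mu s t))ᵀ * Om) a' a)) *
          ((r (mu t s))ᵀ * Om) (x l) (x k) = ∑ a, ∑ a', Om a b * (Om a' b' *
            ((r (mu s t))ᵀ * Om) a' a) * ((r (mu t s))ᵀ * Om) (x l) (x k) := by
        intro s t
        rw [Finset.sum_mul]
        refine Finset.sum_congr rfl fun a _ => ?_
        rw [Finset.sum_mul]
      simp only [e3]
      exact sum_swap4 _
    · exact sum_swap4 _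
  simp only [h0, mul_sub, Finset.sum_sub_distrib]
  have h1 : ∑ b, ∑ b', Uᵀ b b' * ∑ s, ∑ t, ((∑ a, ∑ a', Om a b * (Om a' b' *
        ((r (mu s t))ᵀ * Om) a' a)) * ((r (mu t s))ᵀ * Om) (x l) (x k)) =
      ∑ s, ∑ t, (U * (Omᵀ * ((r (mu s t))ᵀ * Om)ᵀ * Om)).trace *
        ((r (mu t s))ᵀ * Om) (x l) (x k) := by
    simp only [← tC_one, Finset.sum_mul, Finset.mul_sum]
    rw [sum_swap4]
    refine Finset.sum_congr rfl fun s _ => Finset.sum_congr rfl fun t _ =>
      Finset.sum_congr rfl fun b _ => Finset.sum_congr rfl fun b' _ =>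
      Finset.sum_congr rfl fun a _ => Finset.sum_congr rfl fun a' _ => by ring
  have h2 : ∑ b, ∑ b', Uᵀ b b' * ∑ s, ∑ t, ∑ a, ∑ a', Om a b * (Om a' b' *
        (((r (mu s t))ᵀ * Om) a' (x k) * ((r (mu t s))ᵀ * Om) (x l) a)) =
      ∑ s, ∑ t, ((((r (mu t s))ᵀ * Om) * Om) * Uᵀ * (Omᵀ * ((r (mu s t))ᵀ * Om))) (x l) (x k) := by
    simp only [← tC_two, Finset.mul_sum]
    rw [sum_swap4]
  rw [h1, h2]
  unfold cj YY
  rw [LinearMap.sub_apply, EE_apply, FF_apply, Matrix.mul_sub, neg_sub, Matrix.sub_apply]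
  congr 1
  · rw [Finset.mul_sum, Matrix.sum_apply]
    refine Finset.sum_congr rfl fun s _ => ?_
    rw [Finset.mul_sum, Matrix.sum_apply]
    refine Finset.sum_congr rfl fun t _ => ?_
    have e1 : Omᵀ * ((r (mu s t))ᵀ * Om)ᵀ * Om = -(r (mu s t) * Om) := by
      rw [Matrix.transpose_mul, Matrix.transpose_transpose, h.OmT, ← Matrix.mul_assoc,
        Matrix.neg_mul, Matrix.mul_neg, neg_neg, h.Om2, Matrix.neg_mul, Matrix.one_mul,
        Matrix.neg_mul]
    have e2 : ((r (mu t s))ᵀ * Om) (x l) (x k) = -(Om * r (mu t s)) (x k) (x l) := by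
      have e3 : ((r (mu t s))ᵀ * Om)ᵀ = -(Om * r (mu t s)) := by
        rw [Matrix.transpose_mul, Matrix.transpose_transpose, h.OmT, Matrix.neg_mul]
      have e4 := congrFun (congrFun e3 (x k)) (x l)
      rw [Matrix.transpose_apply, Matrix.neg_apply] at e4
      exact e4
    rw [e1, e2, Matrix.mul_neg, Matrix.trace_neg, neg_mul_neg, Matrix.mul_smul,
      Matrix.smul_apply, smul_eq_mul]
    congr 1
    rw [← Matrix.mul_assoc, Matrix.trace_mul_cycle, Matrix.trace_mul_comm, ← Matrix.mul_assoc,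
      Matrix.mul_assoc]
  · rw [Finset.mul_sum, Matrix.sum_apply]
    refine Finset.sum_congr rfl fun s _ => ?_
    rw [Finset.mul_sum, Matrix.sum_apply]
    refine Finset.sum_congr rfl fun t _ => ?_
    have e3 : (((r (mu t s))ᵀ * Om * Om) * Uᵀ * (Omᵀ * ((r (mu s t))ᵀ * Om)))ᵀ =
        Om * (r (mu s t) * (Om * U * r (mu t s))) := by
      rw [Matrix.mul_assoc _ Om Om, h.Om2, h.OmT]
      simp only [Matrix.transpose_mul, Matrix.transpose_transpose, Matrix.transpose_neg, h.OmT,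
        Matrix.mul_neg, Matrix.neg_mul, Matrix.mul_one, neg_neg, Matrix.mul_assoc]
    have e4 := congrFun (congrFun e3 (x k)) (x l)
    rw [Matrix.transpose_apply] at e4
    exact e4

end tensors

end

end Pool.Agent.H841.MS
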