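import Pool.Agent.H841.MS.Maps

/-!
# The invariant tensors are generated in degrees two and four
-/

set_option linter.unusedSectionVars false

namespace Pool.Agent.H841.MS

open Finset Matrix Module Pool.Agent.W437.HC Pool.Agent.V1168.GH
open Pool.Agent.W548.Odd
open Pool.Agent.N634.GHC (card_two WW tensor_inv single_eq act_WW)

noncomputable section

variable {I J : Type} {B : Type} [Fintype B] [DecidableEq B]
  {bl : I → J} {ρ : I → Matrix (Fin 2) (Fin 2) ℂ →ₗ[ℂ] Matrix B B ℂ} {p : J → Matrix B B ℂ}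
  {D Om : Matrix B B ℂ}

/-- The invariant tensors. -/
def Ivt (D : Matrix B B ℂ) (κ : Type) [Fintype κ] [DecidableEq κ] : Submodule ℂ (Tn κ B) where
  carrier := {u | ∀ X ∈ LA {D}, act X u = 0}
  zero_mem' := fun X _ => act_zero_right X
  add_mem' := by
    intro a b ha hb X hX
    rw [act_add_right, ha X hX, hb X hX, add_zero]
  smul_mem' := by
    intro r a ha X hX
    rw [act_smul_right, ha X hX, smul_zero]

theorem mem_Ivt {κ : Type} [Fintype κ] [DecidableEq κ] {u : Tn κ B} :
    u ∈ Ivt D κ ↔ ∀ X ∈ LA {D}, act X u = 0 := Iff.rfl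

/-- The renaming of the slots. -/
def rnm {κ κ' : Type} (e : κ ≃ κ') (u : Tn κ B) : Tn κ' B := fun x => u (x ∘ e)

/-- The tensor product. -/
def prd {κ κ' : Type} (u : Tn κ B) (v : Tn κ' B) : Tn (κ ⊕ κ') B :=
  fun x => u (x ∘ Sum.inl) * v (x ∘ Sum.inr)

/-- The contraction. -/
def ctr (Om : Matrix B B ℂ) {κ : Type} (u : Tn (κ ⊕ Fin 2) B) : Tn κ B :=
  fun x => ∑ a, ∑ b, Om a b * u (Sum.elim x ![a, b])

/-- Families of tensors with the closure properties of the families of the algebraic classes. -/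
structure Fam (Om : Matrix B B ℂ) where
  N : (κ : Type) → Submodule ℂ (Tn κ B)
  unit : ∀ (κ : Type) [IsEmpty κ] (u : Tn κ B), u ∈ N κ
  rnm : ∀ {κ κ' : Type} (e : κ ≃ κ') (u : Tn κ B), u ∈ N κ → rnm e u ∈ N κ'
  prd : ∀ {κ κ' : Type} [Fintype κ] [DecidableEq κ] [Fintype κ'] [DecidableEq κ']
    (u : Tn κ B) (v : Tn κ' B), u ∈ N κ → v ∈ N κ' → prd u v ∈ N (κ ⊕ κ')
  ctr : ∀ {κ : Type} [Fintype κ] [DecidableEq κ] (u : Tn (κ ⊕ Fin 2) B), u ∈ N (κ ⊕ Fin 2) →
    ctr Om u ∈ N κ

theorem update_comp {κ κ' : Type} [DecidableEq κ] [DecidableEq κ'] (e : κ ≃ κ') (x : κ' → B)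
    (k : κ) (j : B) : Function.update x (e k) j ∘ e = Function.update (x ∘ e) k j := by
  funext m
  by_cases h : m = k
  · subst h
    simp
  · rw [Function.comp_apply, Function.update_of_ne h, Function.update_of_ne fun h' =>
      h (e.injective h')]
    rfl

theorem act_rnm {κ κ' : Type} [Fintype κ] [DecidableEq κ] [Fintype κ'] [DecidableEq κ']
    (e : κ ≃ κ') (X : Matrix B B ℂ) (u : Tn κ B) : act X (rnm e u) = rnm e (act X u) := by
  funext x
  unfold act rnm
  rw [← e.sum_comp]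
  refine Finset.sum_congr rfl fun k _ => Finset.sum_congr rfl fun j _ => ?_
  rw [update_comp]
  rfl

theorem rnm_Ivt {κ κ' : Type} [Fintype κ] [DecidableEq κ] [Fintype κ'] [DecidableEq κ']
    (e : κ ≃ κ') {u : Tn κ B} (hu : u ∈ Ivt D κ) : rnm e u ∈ Ivt D κ' := by
  intro X hX
  rw [act_rnm, hu X hX]
  rfl

theorem rnm_rnm {κ κ' κ'' : Type} (e : κ ≃ κ') (f : κ' ≃ κ'') (u : Tn κ B) :
    rnm f (rnm e u) = rnm (e.trans f) u := rfl

theorem Fam.of_rnm {F : Fam Om} {κ κ' : Type} [Fintype κ] [DecidableEq κ] [Fintype κ']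
    [DecidableEq κ'] (e : κ ≃ κ') (h : Ivt D κ ≤ F.N κ) : Ivt D κ' ≤ F.N κ' := by
  intro u hu
  have h1 := F.rnm e _ (h (rnm_Ivt e.symm hu))
  rwa [rnm_rnm, Equiv.symm_trans_self] at h1

section kill

variable {κ : Type} [Fintype κ] [DecidableEq κ]

/-- The slots `k` and `l` in front. -/
def front {k l : κ} (hkl : k ≠ l) : Fin 2 ⊕ {m // m ≠ k ∧ m ≠ l} ≃ κ where
  toFun := Sum.elim ![k, l] Subtype.val
  invFun m := if hm : m ≠ k ∧ m ≠ l then Sum.inr ⟨m, hm⟩ else if m = k then Sum.inl 0 else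
    Sum.inl 1
  left_inv := by
    rintro (m | m)
    · fin_cases m
      · simp
      · simp [hkl.symm]
    · simp [m.2.1, m.2.2]
  right_inv := by
    intro m
    by_cases hm : m ≠ k ∧ m ≠ l
    · simp [hm.1, hm.2]
    · beta_reduce
      rw [dif_neg hm]
      by_cases h1 : m = k
      · rw [if_pos h1, h1]
        rfl
      · rw [if_neg h1]
        have h4 : m = l := by
          by_contra h5
          exact hm ⟨h1, h5⟩
        rw [h4]
        rfl

/-- Tensors which are invariant in two slots. -/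
theorem slot_split {k l : κ} (hkl : k ≠ l) {w : Tn κ B} (hw : w ∈ Ivt D κ)
    (hw' : ∀ X ∈ LA {D}, (sl X k + sl X l : OpT κ B) w = 0) (F : Fam Om)
    (h2 : Ivt D (Fin 2) ≤ F.N (Fin 2))
    (h3 : Ivt D {m // m ≠ k ∧ m ≠ l} ≤ F.N {m // m ≠ k ∧ m ≠ l}) : w ∈ F.N κ := by
  classical
  let W : Submodule ℂ (Tn {m // m ≠ k ∧ m ≠ l} B) := Ivt D {m // m ≠ k ∧ m ≠ l}
  have hW : ∀ a b, cev k l a b w ∈ W := by
    intro a b X hX
    rw [act_cev hkl a b X w (hw' X hX), hw X hX, map_zero]
  let b := Module.finBasis ℂ W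
  obtain ⟨r, hr⟩ := LinearMap.exists_leftInverse_of_injective W.subtype (Submodule.ker_subtype W)
  let lam : Fin (Module.finrank ℂ W) → Tn {m // m ≠ k ∧ m ≠ l} B →ₗ[ℂ] ℂ := fun s =>
    (b.coord s).comp r
  let G : Fin (Module.finrank ℂ W) → Tn (Fin 2) B := fun s z => lam s (cev k l (z 0) (z 1) w)
  have hG : ∀ s, G s ∈ Ivt D (Fin 2) := by
    intro s X hX
    funext z
    unfold act
    rw [Fin.sum_univ_two]
    have e1 : ∀ j, X j (z 0) * G s (Function.update z 0 j) =
        lam s (X j (z 0) • cev k l j (z 1) w) := by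
      intro j
      rw [map_smul, smul_eq_mul]
      simp only [G, Function.update_self]
      rw [Function.update_of_ne (by decide)]
    have e2 : ∀ j, X j (z 1) * G s (Function.update z 1 j) =
        lam s (X j (z 1) • cev k l (z 0) j w) := by
      intro j
      rw [map_smul, smul_eq_mul]
      simp only [G, Function.update_self]
      rw [Function.update_of_ne (by decide)]
    rw [Finset.sum_congr rfl fun j _ => e1 j, Finset.sum_congr rfl fun j _ => e2 j, ← map_sum,
      ← map_sum, ← map_add]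
    have e3 : ∑ j, X j (z 0) • cev k l j (z 1) w + ∑ j, X j (z 1) • cev k l (z 0) j w = 0 := by
      have e4 := congrArg (cev k l (z 0) (z 1)) (hw' X hX)
      rw [map_zero] at e4
      rw [← e4]
      funext K
      change _ = (sl X k w + sl X l w) (ext2 k l (z 0) (z 1) K)
      rw [Pi.add_apply, Pi.add_apply, Finset.sum_apply, Finset.sum_apply, sl_apply, sl_apply]
      have e5 : ext2 k l (z 0) (z 1) K k = z 0 := by
        unfold ext2
        rw [dif_neg fun h => h.1 rfl, if_pos rfl]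
      have e6 : ext2 k l (z 0) (z 1) K l = z 1 := by
        unfold ext2
        rw [dif_neg fun h => h.2 rfl, if_neg hkl.symm]
      rw [e5, e6]
      congr 1
      · refine Finset.sum_congr rfl fun j _ => ?_
        rw [Pi.smul_apply, smul_eq_mul]
        congr 1
        change w (ext2 k l j (z 1) K) = _
        congr 1
        funext m
        by_cases hm : m = k
        · subst hm
          rw [Function.update_self]
          unfold ext2
          rw [dif_neg fun h => h.1 rfl, if_pos rfl]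
        · rw [Function.update_of_ne hm]
          unfold ext2
          rw [if_neg hm, if_neg hm]
      · refine Finset.sum_congr rfl fun j _ => ?_
        rw [Pi.smul_apply, smul_eq_mul]
        congr 1
        change w (ext2 k l (z 0) j K) = _
        congr 1
        funext m
        by_cases hm : m = l
        · subst hm
          rw [Function.update_self]
          unfold ext2
          rw [dif_neg fun h => h.2 rfl, if_neg hkl.symm]
        · rw [Function.update_of_ne hm]
          unfold ext2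
          by_cases hmk : m = k
          · subst hmk
            rw [dif_neg fun h => h.1 rfl, if_pos rfl, dif_neg fun h => h.1 rfl, if_pos rfl]
          · rw [dif_pos ⟨hmk, hm⟩, dif_pos ⟨hmk, hm⟩]
    rw [e3, map_zero]
    rfl
  have hex : w = ∑ s, rnm (front hkl) (prd (G s) (b s : Tn {m // m ≠ k ∧ m ≠ l} B)) := by
    funext x
    rw [Finset.sum_apply]
    have e1 : ∀ s, rnm (front hkl) (prd (G s) (b s : Tn {m // m ≠ k ∧ m ≠ l} B)) x =
        (b.repr ⟨_, hW (x k) (x l)⟩ s) * (b s : Tn {m // m ≠ k ∧ m ≠ l} B) fun m => x m.1 := by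
      intro s
      change G s ((x ∘ front hkl) ∘ Sum.inl) * (b s : Tn {m // m ≠ k ∧ m ≠ l} B)
        ((x ∘ front hkl) ∘ Sum.inr) = _
      congr 1
      change b.repr (r (cev k l (x k) (x l) w)) s = _
      congr 2
      exact LinearMap.congr_fun hr ⟨_, hW (x k) (x l)⟩
    rw [Finset.sum_congr rfl fun s _ => e1 s]
    have e3 := congrArg (Submodule.subtype W) (b.sum_repr ⟨_, hW (x k) (x l)⟩)
    rw [map_sum] at e3
    have e4 := congrFun e3 fun m => x m.1
    rw [Finset.sum_apply] at e4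
    refine Eq.trans ?_ e4.symm
    change w x = w (ext2 k l (x k) (x l) fun m => x m.1)
    rw [ext2_self hkl]
  rw [hex]
  exact Submodule.sum_mem _ fun s _ => F.rnm _ _ (F.prd _ _ (h2 (hG s)) (h3 (b s).2))

end kill

section exchange

variable {κ : Type} [Fintype κ] [DecidableEq κ]

/-- The renaming for the exchange. -/
def ren {k l : κ} (hkl : k ≠ l) : κ ⊕ (Fin 2 ⊕ Fin 2) ≃ (κ ⊕ Fin 2) ⊕ Fin 2 where
  toFun := Sum.elim (fun m => if m = k then Sum.inl (Sum.inr 1) else if m = l then Sum.inr 1 else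
      Sum.inl (Sum.inl m))
    (Sum.elim ![Sum.inl (Sum.inr 0), Sum.inr 0] ![Sum.inl (Sum.inl k), Sum.inl (Sum.inl l)])
  invFun := Sum.elim (Sum.elim (fun m => if m = k then Sum.inr (Sum.inr 0) else if m = l then
      Sum.inr (Sum.inr 1) else Sum.inl m) ![Sum.inr (Sum.inl 0), Sum.inl k])
    ![Sum.inr (Sum.inl 1), Sum.inl l]
  left_inv := by
    rintro (m | m | m)
    · by_cases h1 : m = k
      · simp [h1]
      · by_cases h2 : m = l
        · simp [h2, hkl.symm]
        · simp [h1, h2]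
    · fin_cases m <;> simp
    · fin_cases m <;> simp [hkl.symm]
  right_inv := by
    rintro ((m | m) | m)
    · by_cases h1 : m = k
      · simp [h1]
      · by_cases h2 : m = l
        · simp [h2, hkl.symm]
        · simp [h1, h2]
    · fin_cases m <;> simp
    · fin_cases m <;> simp [hkl.symm]

/-- The tensor of the exchange. -/
def Psi (ρ : I → Matrix (Fin 2) (Fin 2) ℂ →ₗ[ℂ] Matrix B B ℂ) (Om : Matrix B B ℂ) (i : I) :
    Tn (Fin 2 ⊕ Fin 2) B := fun z =>
  sw ρ i (0 : Fin 2) 1 (WW Om fun k => z (Sum.inl k)) fun k => z (Sum.inr k)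

theorem Psi_apply (i : I) (z : Fin 2 ⊕ Fin 2 → B) : Psi ρ Om i z =
    ∑ a, ∑ b, ((ρ i (mu a b))ᵀ * Om) (z (Sum.inr 0)) (z (Sum.inl 0)) *
      ((ρ i (mu b a))ᵀ * Om) (z (Sum.inr 1)) (z (Sum.inl 1)) := by
  unfold Psi sw
  rw [LinearMap.sum_apply, Finset.sum_apply]
  refine Finset.sum_congr rfl fun a _ => ?_
  rw [LinearMap.sum_apply, Finset.sum_apply]
  refine Finset.sum_congr rfl fun b _ => ?_
  rw [Module.End.mul_apply, sl_apply, Matrix.mul_apply, Finset.sum_mul]
  refine Finset.sum_congr rfl fun j _ => ?_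
  rw [sl_apply, mul_assoc, Matrix.mul_apply, Matrix.transpose_apply]
  congr 1
  rw [Finset.mul_sum]
  refine Finset.sum_congr rfl fun j' _ => ?_
  have e1 : Function.update (fun k : Fin 2 => z (Sum.inr k)) 0 j 1 = z (Sum.inr 1) :=
    Function.update_of_ne (by decide) _ _
  have e2 : WW Om (fun k : Fin 2 => z (Sum.inl k))
      (Function.update (Function.update (fun k : Fin 2 => z (Sum.inr k)) 0 j) 1 j') =
      Om j (z (Sum.inl 0)) * Om j' (z (Sum.inl 1)) := by
    unfold WW
    rw [Fin.prod_univ_two, Function.update_self, Function.update_of_ne (by decide),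
      Function.update_self]
  rw [e1, e2, Matrix.transpose_apply]
  ring

theorem Psi_Ivt [Fintype J] (h : IsMS0 D bl ρ p) (hsp : ∀ X ∈ LA {D}, Xᵀ * Om + Om * X = 0) (i : I) :
    Psi ρ Om i ∈ Ivt D (Fin 2 ⊕ Fin 2) := by
  intro X hX
  exact tensor_inv (ψ := sw ρ i (0 : Fin 2) 1)
    (fun u => (h.toMSH.sw_ok i (by decide)).act h X hX u) (hsp X hX)

/-- The exchange as a contraction. -/
theorem sw_eq (hOm : Om * Om = -1) {k l : κ} (hkl : k ≠ l) (i : I) (u : Tn κ B) :
    sw ρ i k l u = ctr Om (ctr Om (rnm (ren hkl) (prd u (Psi ρ Om i)))) := by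
  funext x
  let E : B → B → ℂ := fun a a' => u (Function.update (Function.update x k a) l a')
  have e1 : ∀ a b a' b', rnm (ren hkl) (prd u (Psi ρ Om i))
      (Sum.elim (Sum.elim x ![a, b]) ![a', b']) = E b b' *
        Psi ρ Om i (Sum.elim ![a, a'] ![x k, x l]) := by
    intro a b a' b'
    unfold rnm prd
    congr 1
    · change u _ = u _
      congr 1
      funext m
      by_cases h1 : m = l
      · subst h1
        rw [Function.update_self]
        simp [ren, hkl.symm]
      · rw [Function.update_of_ne h1]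
        by_cases h2 : m = k
        · subst h2
          rw [Function.update_self]
          simp [ren]
        · rw [Function.update_of_ne h2]
          simp [ren, h1, h2]
  have hR : ∀ (R : Matrix B B ℂ) (y b : B), ∑ a, (Rᵀ * Om) y a * Om a b = -R b y := by
    intro R y b
    rw [← Matrix.mul_apply, Matrix.mul_assoc, hOm, mul_neg, mul_one, Matrix.neg_apply,
      Matrix.transpose_apply]
  have e2 : ∀ b b', ∑ a, ∑ a', Om a b * (Om a' b' * Psi ρ Om i (Sum.elim ![a, a'] ![x k, x l])) =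
      ∑ s, ∑ t, ρ i (mu s t) b (x k) * ρ i (mu t s) b' (x l) := by
    intro b b'
    have e3 : ∀ a a', Om a b * (Om a' b' * Psi ρ Om i (Sum.elim ![a, a'] ![x k, x l])) =
        ∑ s, ∑ t, (((ρ i (mu s t))ᵀ * Om) (x k) a * Om a b) *
          (((ρ i (mu t s))ᵀ * Om) (x l) a' * Om a' b') := by
      intro a a'
      rw [Psi_apply, Finset.mul_sum, Finset.mul_sum]
      refine Finset.sum_congr rfl fun s _ => ?_
      rw [Finset.mul_sum, Finset.mul_sum]
      refine Finset.sum_congr rfl fun t _ => ?_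
      change Om a b * (Om a' b' * (((ρ i (mu s t))ᵀ * Om) (x k) a *
        ((ρ i (mu t s))ᵀ * Om) (x l) a')) = _
      ring
    rw [Finset.sum_congr rfl fun a _ => Finset.sum_congr rfl fun a' _ => e3 a a']
    have e4 : ∀ a, ∑ a', ∑ s, ∑ t, (((ρ i (mu s t))ᵀ * Om) (x k) a * Om a b) *
          (((ρ i (mu t s))ᵀ * Om) (x l) a' * Om a' b') =
        ∑ s, ∑ t, (((ρ i (mu s t))ᵀ * Om) (x k) a * Om a b) * -(ρ i (mu t s) b' (x l)) := by
      intro a
      rw [Finset.sum_comm]
      refine Finset.sum_congr rfl fun s _ => ?_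
      rw [Finset.sum_comm]
      refine Finset.sum_congr rfl fun t _ => ?_
      rw [← Finset.mul_sum, hR]
    rw [Finset.sum_congr rfl fun a _ => e4 a, Finset.sum_comm]
    refine Finset.sum_congr rfl fun s _ => ?_
    rw [Finset.sum_comm]
    refine Finset.sum_congr rfl fun t _ => ?_
    rw [← Finset.sum_mul, hR, neg_mul_neg]
  have e5 : ctr Om (ctr Om (rnm (ren hkl) (prd u (Psi ρ Om i)))) x =
      ∑ b, ∑ b', E b b' * ∑ a, ∑ a', Om a b *
        (Om a' b' * Psi ρ Om i (Sum.elim ![a, a'] ![x k, x l])) := by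
    have e6 : ctr Om (ctr Om (rnm (ren hkl) (prd u (Psi ρ Om i)))) x =
        ∑ a, ∑ b, Om a b * ∑ a', ∑ b', Om a' b' * (E b b' *
          Psi ρ Om i (Sum.elim ![a, a'] ![x k, x l])) := by
      unfold ctr
      refine Finset.sum_congr rfl fun a _ => Finset.sum_congr rfl fun b _ => ?_
      congr 1
      refine Finset.sum_congr rfl fun a' _ => Finset.sum_congr rfl fun b' _ => ?_
      rw [e1]
    rw [e6, Finset.sum_comm]
    refine Finset.sum_congr rfl fun b _ => ?_
    have e7 : ∀ b', E b b' * ∑ a, ∑ a', Om a b *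
        (Om a' b' * Psi ρ Om i (Sum.elim ![a, a'] ![x k, x l])) =
        ∑ a, ∑ a', Om a b * (Om a' b' * (E b b' * Psi ρ Om i (Sum.elim ![a, a'] ![x k, x l]))) := by
      intro b'
      rw [Finset.mul_sum]
      refine Finset.sum_congr rfl fun a _ => ?_
      rw [Finset.mul_sum]
      exact Finset.sum_congr rfl fun a' _ => by ring
    rw [Finset.sum_congr rfl fun b' _ => e7 b']
    conv_rhs => rw [Finset.sum_comm]
    refine Finset.sum_congr rfl fun a _ => ?_
    rw [Finset.mul_sum]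
    conv_rhs => rw [Finset.sum_comm]
    refine Finset.sum_congr rfl fun a' _ => ?_
    rw [Finset.mul_sum]
  rw [e5]
  have e8 : sw ρ i k l u x = ∑ s, ∑ t, ∑ b, ∑ b', ρ i (mu s t) b (x k) *
      (ρ i (mu t s) b' (x l) * E b b') := by
    unfold sw
    rw [LinearMap.sum_apply, Finset.sum_apply]
    refine Finset.sum_congr rfl fun s _ => ?_
    rw [LinearMap.sum_apply, Finset.sum_apply]
    refine Finset.sum_congr rfl fun t _ => ?_
    rw [Module.End.mul_apply, sl_apply]
    refine Finset.sum_congr rfl fun b _ => ?_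
    rw [sl_apply, Finset.mul_sum, Function.update_of_ne hkl.symm]
  rw [e8]
  have e9 : ∀ b b', E b b' * ∑ a, ∑ a', Om a b *
        (Om a' b' * Psi ρ Om i (Sum.elim ![a, a'] ![x k, x l])) =
      ∑ s, ∑ t, ρ i (mu s t) b (x k) * (ρ i (mu t s) b' (x l) * E b b') := by
    intro b b'
    rw [e2, Finset.mul_sum]
    refine Finset.sum_congr rfl fun s _ => ?_
    rw [Finset.mul_sum]
    exact Finset.sum_congr rfl fun t _ => by ring
  rw [Finset.sum_congr rfl fun b _ => Finset.sum_congr rfl fun b' _ => e9 b b']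
  have e10 : ∀ b, ∑ b', ∑ s, ∑ t, ρ i (mu s t) b (x k) * (ρ i (mu t s) b' (x l) * E b b') =
      ∑ s, ∑ t, ∑ b', ρ i (mu s t) b (x k) * (ρ i (mu t s) b' (x l) * E b b') := by
    intro b
    rw [Finset.sum_comm]
    refine Finset.sum_congr rfl fun s _ => ?_
    rw [Finset.sum_comm]
  rw [Finset.sum_congr rfl fun b _ => e10 b]
  conv_rhs => rw [Finset.sum_comm]
  refine Finset.sum_congr rfl fun s _ => ?_
  conv_rhs => rw [Finset.sum_comm]

theorem sw_mem [Fintype J] (h : IsMS0 D bl ρ p) (hsp : ∀ X ∈ LA {D}, Xᵀ * Om + Om * X = 0)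
    (hOm : Om * Om = -1) (F : Fam Om) (h4 : Ivt D (Fin 2 ⊕ Fin 2) ≤ F.N (Fin 2 ⊕ Fin 2))
    {k l : κ} (hkl : k ≠ l) (i : I) {u : Tn κ B} (hu : u ∈ F.N κ) : sw ρ i k l u ∈ F.N κ := by
  rw [sw_eq hOm hkl]
  exact F.ctr _ (F.ctr _ (F.rnm _ _ (F.prd _ _ hu (h4 (Psi_Ivt h hsp i)))))

/-- The decomposition according to the colour patterns. -/
theorem sum_Pc [Fintype J] [DecidableEq J] (hs : ∑ j, p j = 1) (u : Tn κ B) :
    ∑ c : κ → J, Pc p c u = u := by
  refine ext_evalF fun x => ?_
  have h1 : x = fun k => ∑ j, p j *ᵥ x k := by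
    funext k
    rw [← sum_mulVec, hs, one_mulVec]
  conv_rhs => rw [h1, ← evalM_apply u, MultilinearMap.map_sum]
  have h2 : ∀ s : Finset (κ → J), evalF (∑ c ∈ s, Pc p c u) x = ∑ c ∈ s, evalF (Pc p c u) x := by
    intro s
    exact map_sum (evL x) _ _
  rw [h2]
  exact Finset.sum_congr rfl fun c _ => by rw [evalM_apply, evalF_Pc]

end exchange

/-- **All invariant tensors**, for families which are stable under the exchanges. -/
theorem inv_mem [Fintype I] [Fintype J] (h : IsMS0 D bl ρ p) (F : Fam Om)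
    (h2 : Ivt D (Fin 2) ≤ F.N (Fin 2))
    (hsw : ∀ (κ : Type) [Fintype κ] [DecidableEq κ] (k l : κ), k ≠ l → ∀ i, ∀ u ∈ F.N κ,
      sw ρ i k l u ∈ F.N κ) :
    ∀ (n : ℕ) (κ : Type) [Fintype κ] [DecidableEq κ], Fintype.card κ = n → Ivt D κ ≤ F.N κ := by
  classical
  intro n
  induction n using Nat.strong_induction_on with
  | _ n ih =>
  intro κ _ _ hn w hw
  by_contra hcon
  -- a colour pattern
  obtain ⟨c, hc⟩ : ∃ c : κ → J, Pc p c w ∉ F.N κ := by
    by_contra h1
    push Not at h1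
    apply hcon
    rw [← sum_Pc (p := p) h.sum w]
    exact Submodule.sum_mem _ fun c _ => h1 c
  have hS : MSH.Sit bl ρ p c (Ivt D κ ⊓ Cl p c) (F.N κ) := by
    refine ⟨inf_le_right, ?_, ?_⟩
    · intro i K _ k _ l _ hkl v hv
      exact hsw κ k l hkl i v hv
    · rintro k l hkl - a ha hkill u ⟨hu1, hu2⟩
      have h5 := card_two hkl
      refine slot_split (D := D) hkl ?_ ?_ F h2
        (ih (Fintype.card {m // m ≠ k ∧ m ≠ l}) (by omega) _ rfl)
      · intro X hX
        rw [← ha.act h X hX, hu1 X hX, map_zero]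
      · exact h.slots fun i X hX => hkill u hu2 i X hX
  obtain ⟨t, ht, a, ha, ⟨u₁, hu₁, hau⟩, hsym⟩ := h.toMSH.all_blocks h.surj hS
    ⟨Pc p c w, ⟨fun X hX => by
      rw [← Pc_act (fun j => h.p_comm j X hX), hw X hX, map_zero], Pc_mem h.toMSH c w⟩, hc⟩
  -- an involution in the Lie algebra
  let Y : Matrix (Fin 2) (Fin 2) ℂ := !![1, 0; 0, -1]
  have hY : Y.trace = 0 := by
    rw [Matrix.trace_fin_two]
    simp [Y]
  have hYY : Y * Y = 1 := by
    ext x y
    fin_cases x <;> fin_cases y <;> simp [Y, Matrix.mul_apply, Fin.sum_univ_two]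
  let E : Matrix B B ℂ := ∑ j, ρ (t j) Y
  have hEL : E ∈ LA {D} := Submodule.sum_mem _ fun j _ => h.mem (t j) hY
  have hEE : E * E = 1 := by
    have e1 : ∀ j j', ρ (t j) Y * ρ (t j') Y = if j = j' then p j else 0 := by
      intro j j'
      by_cases hj : j = j'
      · subst hj
        rw [if_pos rfl, ← h.mul, hYY, h.one, ht]
      · rw [if_neg hj, ← h.mul_p (t j), Matrix.mul_assoc, ht,
          h.p_mul_ne (by rw [ht]; exact Ne.symm hj), Matrix.mul_zero]
    rw [← h.sum]
    change (∑ j, ρ (t j) Y) * ∑ j, ρ (t j) Y = _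
    rw [Finset.sum_mul_sum]
    refine Finset.sum_congr rfl fun j _ => ?_
    rw [Finset.sum_congr rfl fun j' _ => e1 j j', Finset.sum_ite_eq, if_pos (Finset.mem_univ j)]
  obtain ⟨v, ⟨u, ⟨hu1, hu2⟩, rfl⟩, x, hx, hne⟩ := h.toMSH.extremal (c := c) ht
    (U := (Ivt D κ ⊓ Cl p c).map a) (by
      rintro _ ⟨v, hv, rfl⟩
      exact ha.mem hv.2)
    (by
      rintro j X hX _ ⟨u, hu, rfl⟩
      refine ⟨0, Submodule.zero_mem _, ?_⟩
      rw [map_zero, ac_apply, ← ha.act h _ (h.mem (t j) hX), hu.1 _ (h.mem (t j) hX), map_zero])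
    (by
      rintro k l hkl hcl _ ⟨v, hv, rfl⟩
      exact hsym k l hkl hcl v hv)
    ⟨a u₁, ⟨u₁, hu₁, rfl⟩, fun h0 => hau (by rw [h0]; exact Submodule.zero_mem _)⟩
    (Y := fun _ => Y) (fun _ => hY) (D := E) rfl hEE
  have h6 : act E (a u) = 0 := by
    rw [← ha.act h _ hEL, hu1 _ hEL, map_zero]
  have h7 := evalF_act E (a u) x
  have h8 : ∀ k, evalF (a u) (Function.update x k (E *ᵥ x k)) = evalF (a u) x := by
    intro k
    rw [hx, Function.update_eq_self]
  rw [h6, Finset.sum_congr rfl fun k _ => h8 k, Finset.sum_const, Finset.card_univ,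
    nsmul_eq_mul] at h7
  have h9 : evalF (0 : Tn κ B) x = 0 := (evL x).map_zero
  rw [h9] at h7
  have h10 : Fintype.card κ = 0 := by
    rcases mul_eq_zero.1 h7.symm with h11 | h11
    · exact_mod_cast h11
    · exact absurd h11 hne
  have : IsEmpty κ := Fintype.card_eq_zero_iff.1 h10
  exact hau (F.unit κ _)

end

end Pool.Agent.H841.MS
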