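import Pool.Agent.H841.MS.Raise
import Pool.Graph.R_pool_sql_team_seeded_63374d34.N634.GHC.Rat
import Pool.Graph.R_pool_sql_team_seeded_63374d34.N178.HX.StmD

/-!
# Maps between tensor spaces for Lie algebras of Mumford-Shimura type
-/

set_option linter.unusedSectionVars false

namespace Pool.Agent.H841.MS

open Finset Matrix Pool.Agent.W437.HC Pool.Agent.V1168.GH Pool.Agent.W548.Odd
open Pool.Agent.N178.HW (LvC)
open Pool.Agent.N178.HX (LvG HasMapsG)
open Pool.Agent.N634.GHC (aeval_func card_two)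

noncomputable section

variable {I J : Type} {B : Type} [Fintype B] [DecidableEq B]
  {bl : I → J} {ρ : I → Matrix (Fin 2) (Fin 2) ℂ →ₗ[ℂ] Matrix B B ℂ} {p : J → Matrix B B ℂ}

section colour

variable {κ : Type} [Fintype κ] [DecidableEq κ]

theorem evalF_add' (u v : Tn κ B) (x : κ → B → ℂ) : evalF (u + v) x = evalF u x + evalF v x :=
  evalF_add u v x

/-- The projection to the tensors with the colour pattern `c`. -/
def Pc (p : J → Matrix B B ℂ) (c : κ → J) : OpT κ B := pull fun k => p (c k)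

theorem evalF_Pc (c : κ → J) (u : Tn κ B) (x : κ → B → ℂ) :
    evalF (Pc p c u) x = evalF u (fun k => p (c k) *ᵥ x k) := evalF_pull _ _ _

theorem Pc_mem (h : MSH bl ρ p) (c : κ → J) (u : Tn κ B) : Pc p c u ∈ Cl p c := by
  intro m
  refine ext_evalF fun x => ?_
  rw [evalF_sl, evalF_Pc, evalF_Pc]
  congr 1
  funext k
  by_cases hk : k = m
  · subst hk
    rw [Function.update_self, mulVec_mulVec, h.idem]
  · rw [Function.update_of_ne hk]

theorem Pc_act {X : Matrix B B ℂ} (hX : ∀ j, p j * X = X * p j) (c : κ → J) (u : Tn κ B) :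
    Pc p c (act X u) = act X (Pc p c u) := (act_pull (fun k => hX (c k)) u).symm

theorem exists_colour [Fintype J] [DecidableEq J] (hs : ∑ j, p j = 1) {u : Tn κ B} (hu : u ≠ 0) :
    ∃ c : κ → J, Pc p c u ≠ 0 := by
  by_contra hcon
  push Not at hcon
  refine hu (eq_zero_of_evalF fun x => ?_)
  have h1 : x = fun k => ∑ j, p j *ᵥ x k := by
    funext k
    rw [← sum_mulVec, hs, one_mulVec]
  rw [h1, ← evalM_apply u, MultilinearMap.map_sum]
  refine Finset.sum_eq_zero fun c _ => ?_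
  rw [evalM_apply, ← evalF_Pc, hcon c]
  unfold evalF
  simp

end colour

section contract

variable {κ : Type} [Fintype κ] [DecidableEq κ]

/-- The extension of a multi-index by `a` in the slot `k` and `b` in the slot `l`. -/
def ext2 (k l : κ) (a b : B) (K : {m // m ≠ k ∧ m ≠ l} → B) : κ → B := fun m =>
  if hm : m ≠ k ∧ m ≠ l then K ⟨m, hm⟩ else if m = k then a else b

theorem ext2_update (k l : κ) (a b : B) (K : {m // m ≠ k ∧ m ≠ l} → B) (m : {m // m ≠ k ∧ m ≠ l})
    (j : B) : ext2 k l a b (Function.update K m j) = Function.update (ext2 k l a b K) m.1 j := by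
  funext m'
  unfold ext2
  by_cases h1 : m' = m.1
  · subst h1
    rw [dif_pos m.2, Function.update_self, Function.update_self]
  · rw [Function.update_of_ne h1]
    by_cases h2 : m' ≠ k ∧ m' ≠ l
    · rw [dif_pos h2, dif_pos h2, Function.update_of_ne]
      exact fun h3 => h1 (congrArg Subtype.val h3)
    · rw [dif_neg h2, dif_neg h2]

theorem ext2_val (k l : κ) (a b : B) (K : {m // m ≠ k ∧ m ≠ l} → B) (m : {m // m ≠ k ∧ m ≠ l}) :
    ext2 k l a b K m.1 = K m := by
  unfold ext2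
  rw [dif_pos m.2]

theorem ext2_self {k l : κ} (hkl : k ≠ l) (Z : κ → B) :
    ext2 k l (Z k) (Z l) (fun m => Z m.1) = Z := by
  funext m
  unfold ext2
  by_cases h2 : m ≠ k ∧ m ≠ l
  · rw [dif_pos h2]
  · rw [dif_neg h2]
    by_cases h3 : m = k
    · rw [if_pos h3, h3]
    · rw [if_neg h3]
      have h4 : m = l := by
        by_contra h5
        exact h2 ⟨h3, h5⟩
      rw [h4]

/-- The evaluation of a tensor in two slots. -/
def cev (k l : κ) (a b : B) : Tn κ B →ₗ[ℂ] Tn {m // m ≠ k ∧ m ≠ l} B where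
  toFun w := fun K => w (ext2 k l a b K)
  map_add' _ _ := rfl
  map_smul' _ _ := rfl

theorem sum_two {M : Type} [AddCommMonoid M] {k l : κ} (hkl : k ≠ l) (f : κ → M) :
    ∑ m, f m = f k + f l + ∑ m : {m // m ≠ k ∧ m ≠ l}, f m.1 := by
  have hl : l ∈ Finset.univ.erase k := Finset.mem_erase.2 ⟨hkl.symm, Finset.mem_univ l⟩
  rw [← Finset.add_sum_erase _ _ (Finset.mem_univ k), ← Finset.add_sum_erase _ _ hl, ← add_assoc]
  congr 1
  refine Finset.sum_subtype _ (fun m => ?_) f
  rw [Finset.mem_erase, Finset.mem_erase]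
  constructor
  · rintro ⟨h1, h2, -⟩
    exact ⟨h2, h1⟩
  · rintro ⟨h1, h2⟩
    exact ⟨h2, h1, Finset.mem_univ m⟩

theorem act_cev {k l : κ} (hkl : k ≠ l) (a b : B) (X : Matrix B B ℂ) (w : Tn κ B)
    (hw : (sl X k + sl X l : OpT κ B) w = 0) : act X (cev k l a b w) = cev k l a b (act X w) := by
  funext K
  have e1 : act X w = ∑ m, sl X m w := by
    rw [← ac_apply, ac, LinearMap.sum_apply]
  have e2 : act X w = ∑ m : {m // m ≠ k ∧ m ≠ l}, sl X m.1 w := by
    rw [e1, sum_two hkl, ← LinearMap.add_apply, hw, zero_add]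
  change act X (cev k l a b w) K = (act X w) (ext2 k l a b K)
  rw [e2, Finset.sum_apply, act_eq_sum, Finset.sum_apply]
  refine Finset.sum_congr rfl fun m _ => ?_
  rw [sl_apply]
  unfold actk
  refine Finset.sum_congr rfl fun j _ => ?_
  rw [ext2_val]
  congr 1
  change w (ext2 k l a b (Function.update K m j)) = _
  rw [ext2_update]

end contract

section level

variable {κ : Type} [Fintype κ] [DecidableEq κ]

/-- The polynomial with the roots `-n, ..., n`. -/
def pN (n : ℕ) : Polynomial ℂ := ∏ b ∈ Finset.Icc (-(n : ℤ)) n,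
  (Polynomial.X - Polynomial.C ((b : ℤ) : ℂ))

theorem pN_eval (n : ℕ) (z : ℤ) : (pN n).eval (z : ℂ) = 0 ↔ |z| ≤ (n : ℤ) := by
  unfold pN
  rw [Polynomial.eval_prod, Finset.prod_eq_zero_iff]
  constructor
  · rintro ⟨b, hb, h⟩
    rw [Polynomial.eval_sub, Polynomial.eval_X, Polynomial.eval_C, sub_eq_zero] at h
    have h1 : z = b := by exact_mod_cast h
    rw [h1]
    exact abs_le.2 (Finset.mem_Icc.1 hb)
  · intro h
    exact ⟨z, Finset.mem_Icc.2 (abs_le.1 h), by
      rw [Polynomial.eval_sub, Polynomial.eval_X, Polynomial.eval_C, sub_self]⟩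

/-- The value of a tensor as a linear map. -/
def evL (x : κ → B → ℂ) : Tn κ B →ₗ[ℂ] ℂ where
  toFun u := evalF u x
  map_add' u v := evalF_add u v x
  map_smul' a u := evalF_smul a u x

theorem evL_aeval {D : Matrix B B ℂ} {x : κ → B → ℂ} {ε : κ → ℤ}
    (hx : ∀ k, D *ᵥ x k = (ε k : ℂ) • x k) (q : Polynomial ℂ) (u : Tn κ B) :
    evalF (Polynomial.aeval (ac D : OpT κ B) q u) x = q.eval ((∑ k, ε k : ℤ) : ℂ) * evalF u x := by
  have h1 := aeval_func (ac D : OpT κ B) (evL x) ⊤ (fun _ _ => Submodule.mem_top)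
    ((∑ k, ε k : ℤ) : ℂ) (fun v _ => by
      change evalF (ac D v) x = _ • evalF v x
      rw [ac_apply, evalF_act]
      have h2 : ∀ k, evalF v (Function.update x k (D *ᵥ x k)) = (ε k : ℂ) * evalF v x := by
        intro k
        rw [hx, evalF_update_smul, Function.update_eq_self]
      rw [Finset.sum_congr rfl fun k _ => h2 k, ← Finset.sum_mul, smul_eq_mul]
      push_cast
      rfl) q u Submodule.mem_top
  exact h1

theorem aeval_kill {D : Matrix B B ℂ} (hDD : D * D = 1) {n : ℕ} {u : Tn κ B}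
    (hu : ∀ (x : κ → B → ℂ) (ε : κ → ℤ), (∀ k, ε k = 1 ∨ ε k = -1) →
      (∀ k, D *ᵥ x k = (ε k : ℂ) • x k) → (n : ℤ) < |∑ k, ε k| → evalF u x = 0) :
    Polynomial.aeval (ac D : OpT κ B) (pN n) u = 0 := by
  refine eq_zero_of_evalF fun x => ?_
  let y : κ → Bool → B → ℂ := fun k s => if s then (1 / 2 : ℂ) • (x k + D *ᵥ x k) else
    (1 / 2 : ℂ) • (x k - D *ᵥ x k)
  have h1 : x = fun k => ∑ s, y k s := by
    funext k
    rw [Fintype.sum_bool]
    change x k = (1 / 2 : ℂ) • (x k + D *ᵥ x k) + (1 / 2 : ℂ) • (x k - D *ᵥ x k)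
    rw [← smul_add, add_add_sub_cancel, ← two_smul ℂ (x k), smul_smul]
    norm_num
  rw [h1, ← evalM_apply (Polynomial.aeval (ac D : OpT κ B) (pN n) u), MultilinearMap.map_sum]
  refine Finset.sum_eq_zero fun s _ => ?_
  rw [evalM_apply]
  let ε : κ → ℤ := fun k => if s k then 1 else -1
  have hε : ∀ k, ε k = 1 ∨ ε k = -1 := by
    intro k
    by_cases hk : s k
    · exact Or.inl (if_pos hk)
    · exact Or.inr (if_neg hk)
  have hy : ∀ k, D *ᵥ y k (s k) = (ε k : ℂ) • y k (s k) := by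
    intro k
    by_cases hk : s k
    · have e1 : y k (s k) = (1 / 2 : ℂ) • (x k + D *ᵥ x k) := if_pos hk
      have e2 : ε k = 1 := if_pos hk
      rw [e1, e2, mulVec_smul, mulVec_add, mulVec_mulVec, hDD, one_mulVec, Int.cast_one, one_smul,
        add_comm]
    · have e1 : y k (s k) = (1 / 2 : ℂ) • (x k - D *ᵥ x k) := if_neg hk
      have e2 : ε k = -1 := if_neg hk
      rw [e1, e2, mulVec_smul, mulVec_sub, mulVec_mulVec, hDD, one_mulVec, Int.cast_neg,
        Int.cast_one, neg_smul, one_smul, ← smul_neg, neg_sub]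
  rw [evL_aeval hy]
  by_cases hlt : (n : ℤ) < |∑ k, ε k|
  · rw [hu _ ε hε hy hlt, mul_zero]
  · rw [(pN_eval n _).2 (not_lt.1 hlt), zero_mul]

end level

/-- The Lie algebra `LA {D}` generated by the conjugates of `D` is the sum of the Lie algebras
`ρ i (sl_2)`. -/
structure IsMS0 (D : Matrix B B ℂ) (bl : I → J)
    (ρ : I → Matrix (Fin 2) (Fin 2) ℂ →ₗ[ℂ] Matrix B B ℂ) (p : J → Matrix B B ℂ) [Fintype J] :
    Prop extends MSH bl ρ p where
  sum : ∑ j, p j = 1
  surj : Function.Surjective bl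
  lie : LA {D} = Submodule.span ℂ {M | ∃ i X, Matrix.trace X = 0 ∧ M = ρ i X}

/-- Lie algebras of Mumford-Shimura type: `D` is an involution, the Lie algebra `LA {D}` generated
by its conjugates is the sum of the Lie algebras `ρ i (sl_2)`, and the conjugates of `D` realize all
transversals. -/
structure IsMS (D : Matrix B B ℂ) (bl : I → J)
    (ρ : I → Matrix (Fin 2) (Fin 2) ℂ →ₗ[ℂ] Matrix B B ℂ) (p : J → Matrix B B ℂ) [Fintype J] :
    Prop extends IsMS0 D bl ρ p where
  inv : D * D = 1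
  tra : ∀ t : J → I, (∀ j, bl (t j) = j) → ∃ (σ : ℂ ≃+* ℂ) (Y : J → Matrix (Fin 2) (Fin 2) ℂ),
    (∀ j, (Y j).trace = 0) ∧ D.map σ = ∑ j, ρ (t j) (Y j)

variable {D : Matrix B B ℂ}

theorem IsMS0.mem [Fintype J] (h : IsMS0 D bl ρ p) (i : I) {X : Matrix (Fin 2) (Fin 2) ℂ}
    (hX : X.trace = 0) : ρ i X ∈ LA {D} := by
  rw [h.lie]
  exact Submodule.subset_span ⟨i, X, hX, rfl⟩

theorem IsMS0.ind [Fintype J] (h : IsMS0 D bl ρ p) {P : Matrix B B ℂ → Prop}
    (h0 : P 0) (h1 : ∀ i X, Matrix.trace X = 0 → P (ρ i X)) (h2 : ∀ X Y, P X → P Y → P (X + Y))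
    (h3 : ∀ (a : ℂ) X, P X → P (a • X)) : ∀ X ∈ LA {D}, P X := by
  intro X hX
  rw [h.lie] at hX
  induction hX using Submodule.span_induction with
  | mem X hX =>
    obtain ⟨i, Y, hY, rfl⟩ := hX
    exact h1 i Y hY
  | zero => exact h0
  | add X Y _ _ hX hY => exact h2 X Y hX hY
  | smul a X _ hX => exact h3 a X hX

/-- The blocks are preserved. -/
theorem IsMS0.p_comm [Fintype J] (h : IsMS0 D bl ρ p) (j : J) : ∀ X ∈ LA {D}, p j * X = X * p j := by
  refine h.ind (by rw [Matrix.mul_zero, Matrix.zero_mul]) (fun i X _ => (h.comm_p i j X).symm)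
    (fun X Y hX hY => by rw [Matrix.mul_add, Matrix.add_mul, hX, hY]) fun a X hX => ?_
  rw [Matrix.mul_smul, Matrix.smul_mul, hX]

theorem Ok.act [Fintype J] (h : IsMS0 D bl ρ p) {κ : Type} [Fintype κ] [DecidableEq κ] {a : OpT κ B}
    (ha : Ok ρ p a) : ∀ X ∈ LA {D}, ∀ u, a (act X u) = W437.HC.act X (a u) := by
  refine h.ind (fun u => ?_) (fun i X _ u => ?_) (fun X Y hX hY u => ?_) fun z X hX u => ?_
  · rw [act_zero_left, act_zero_left, map_zero]
  · rw [← ac_apply, ← ac_apply]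
    exact LinearMap.congr_fun (ha.ac i X) u
  · rw [act_add_left, act_add_left, map_add, hX, hY]
  · rw [act_smul_left, act_smul_left, map_smul, hX]

theorem IsMS0.slots [Fintype J] (h : IsMS0 D bl ρ p) {κ : Type} [Fintype κ] [DecidableEq κ] {k l : κ}
    {w : Tn κ B} (hw : ∀ i X, Matrix.trace X = 0 → (rs ρ i X k + rs ρ i X l) w = 0) :
    ∀ X ∈ LA {D}, (sl X k + sl X l : OpT κ B) w = 0 := by
  refine h.ind ?_ (fun i X hX => hw i X hX) (fun X Y hX hY => ?_) fun z X hX => ?_
  · rw [sl_zero, sl_zero, add_zero, LinearMap.zero_apply]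
  · rw [sl_add, sl_add]
    have e1 : (sl X k + sl Y k + (sl X l + sl Y l) : OpT κ B) =
        (sl X k + sl X l) + (sl Y k + sl Y l) := by abel
    rw [e1, LinearMap.add_apply, hX, hY, add_zero]
  · rw [sl_smul, sl_smul, ← smul_add, LinearMap.smul_apply, hX, smul_zero]

/-- **The maps.** -/
theorem IsMS.maps [Fintype I] [Fintype J] (h : IsMS D bl ρ p) (n j : ℕ) :
    HasMapsG D n (n + 2 * j) := by
  classical
  intro U hne hst hlev
  -- the minimal degree
  let P : ℕ → Prop := fun d => ∃ (κ' : Type) (_ : Fintype κ') (_ : DecidableEq κ'),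
    Fintype.card κ' = d ∧ Even (n + d) ∧ ∃ φ : Tn (Fin (n + 2 * j)) B →ₗ[ℂ] Tn κ' B,
      (∀ X ∈ LA {D}, ∀ u, φ (act X u) = act X (φ u)) ∧ ∃ u ∈ U, φ u ≠ 0
  have hP : ∃ d, P d := by
    refine ⟨n + 2 * j, Fin (n + 2 * j), inferInstance, inferInstance, Fintype.card_fin _, ?_,
      LinearMap.id, fun X _ u => rfl, ?_⟩
    · exact ⟨n + j, by ring⟩
    · obtain ⟨u, hu, hu'⟩ := (Submodule.ne_bot_iff U).1 hne
      exact ⟨u, hu, hu'⟩
  obtain ⟨κ', i1, i2, hcard, heven, φ, hφ, u₀, hu₀, hφu₀⟩ := Nat.find_spec hP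
  have hmin : ∀ d, P d → Nat.find hP ≤ d := fun d hd => Nat.find_min' hP hd
  rw [← hcard] at hmin heven
  obtain ⟨c, hc⟩ := exists_colour (p := p) h.sum hφu₀
  let ψ : Tn (Fin (n + 2 * j)) B →ₗ[ℂ] Tn κ' B := (Pc p c).comp φ
  have hψ : ∀ X ∈ LA {D}, ∀ u, ψ (act X u) = act X (ψ u) := by
    intro X hX u
    change Pc p c (φ (act X u)) = act X (Pc p c (φ u))
    rw [hφ X hX, Pc_act (fun j => h.p_comm j X hX)]
  -- the situation
  have hS : MSH.Sit bl ρ p c (U.map ψ) ⊥ := by
    refine ⟨?_, ?_, ?_⟩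
    · rintro _ ⟨u, -, rfl⟩
      exact Pc_mem h.toMSH c _
    · intro i K _ k _ l _ _ v hv
      rw [Submodule.mem_bot] at hv ⊢
      rw [hv, map_zero]
    · rintro k l hkl - a ha hkill _ ⟨u, hu, rfl⟩
      rw [Submodule.mem_bot]
      by_contra hau
      -- a nonzero map to a smaller degree
      obtain ⟨Z, hZ⟩ : ∃ Z, a (ψ u) Z ≠ 0 := by
        by_contra hcon
        push Not at hcon
        exact hau (funext hcon)
      have h1 : P (Fintype.card {m // m ≠ k ∧ m ≠ l}) := by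
        refine ⟨{m // m ≠ k ∧ m ≠ l}, inferInstance, inferInstance, rfl, ?_,
          (cev k l (Z k) (Z l)).comp (a.comp ψ), fun X hX u => ?_, u, hu, fun h0 => hZ ?_⟩
        · have h2 := card_two hkl
          rw [← h2] at heven
          have h3 : n + (Fintype.card {m // m ≠ k ∧ m ≠ l} + 2) =
              n + Fintype.card {m // m ≠ k ∧ m ≠ l} + 2 := by ring
          rw [h3, Nat.even_add] at heven
          exact heven.2 even_two
        · change cev k l (Z k) (Z l) (a (ψ (act X u))) = act X (cev k l (Z k) (Z l) (a (ψ u)))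
          rw [hψ X hX, ha.act h.toIsMS0 X hX, act_cev hkl]
          exact h.slots (fun i Y hY => hkill _ (Pc_mem h.toMSH c _) i Y hY) X hX
        · have h4 := congrFun h0 fun m => Z m.1
          change a (ψ u) (ext2 k l (Z k) (Z l) fun m => Z m.1) = 0 at h4
          rwa [ext2_self hkl] at h4
      have h5 := hmin _ h1
      have h6 := card_two hkl
      omega
  obtain ⟨t, ht, a, ha, ⟨_, ⟨u₁, hu₁, rfl⟩, hau⟩, hsym⟩ := h.toMSH.all_blocks h.surj hS
    ⟨ψ u₀, ⟨u₀, hu₀, rfl⟩, fun h0 => hc ((Submodule.mem_bot ℂ).1 h0)⟩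
  obtain ⟨σ, Y, hY, hD⟩ := h.tra t ht
  have hDD : D.map σ * D.map σ = 1 := by
    rw [← Matrix.map_mul, h.inv, Matrix.map_one _ (map_zero σ) (map_one σ)]
  have hDL : D.map σ ∈ LA {D} := LA_aut (σ : ℂ →+* ℂ) (LA_self (Set.mem_singleton D))
  obtain ⟨w, ⟨_, ⟨u, hu, rfl⟩, rfl⟩, x, hx, hne'⟩ := h.toMSH.extremal (c := c) ht
    (U := (U.map ψ).map a) (by
      rintro _ ⟨v, hv, rfl⟩
      exact ha.mem (hS.col hv))
    (by
      rintro j X hX _ ⟨_, ⟨u, hu, rfl⟩, rfl⟩
      refine ⟨ψ (act (ρ (t j) X) u), ⟨_, hst _ (h.mem (t j) hX) u hu, rfl⟩, ?_⟩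
      rw [hψ _ (h.mem (t j) hX), ha.act h.toIsMS0 _ (h.mem (t j) hX), ac_apply])
    (by
      rintro k l hkl hcl _ ⟨v, hv, rfl⟩
      exact hsym k l hkl hcl v hv)
    ⟨a (ψ u₁), ⟨_, ⟨u₁, hu₁, rfl⟩, rfl⟩, fun h0 => hau ((Submodule.mem_bot ℂ).2 h0)⟩ hY hD hDD
  -- the level
  have hle : Fintype.card κ' ≤ n := by
    have e1 : Polynomial.aeval (ac (D.map σ) : OpT (Fin (n + 2 * j)) B) (pN n) u = 0 :=
      aeval_kill hDD (hlev σ u hu)
    have e2 : a (ψ (Polynomial.aeval (ac (D.map σ) : OpT (Fin (n + 2 * j)) B) (pN n) u)) =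
        Polynomial.aeval (ac (D.map σ) : OpT κ' B) (pN n) (a (ψ u)) := by
      have e3 : ∀ q : Polynomial ℂ,
          a (ψ (Polynomial.aeval (ac (D.map σ) : OpT (Fin (n + 2 * j)) B) q u)) =
          Polynomial.aeval (ac (D.map σ) : OpT κ' B) q (a (ψ u)) := by
        intro q
        induction q using Polynomial.induction_on' with
        | add q r hq hr =>
          rw [map_add, map_add, LinearMap.add_apply, LinearMap.add_apply, map_add, map_add, hq, hr]
        | monomial m z =>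
          rw [Polynomial.aeval_monomial, Polynomial.aeval_monomial,
            Module.algebraMap_end_eq_smul_id, Module.algebraMap_end_eq_smul_id, smul_mul_assoc,
            smul_mul_assoc, LinearMap.smul_apply, LinearMap.smul_apply, Module.End.mul_apply,
            Module.End.mul_apply, LinearMap.id_apply, LinearMap.id_apply, map_smul, map_smul]
          congr 1
          induction m with
          | zero => rfl
          | succ m ih =>
            rw [pow_succ', pow_succ', Module.End.mul_apply, Module.End.mul_apply, ac_apply,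
              hψ _ hDL, ha.act h.toIsMS0 _ hDL, ih, ac_apply]
      exact e3 _
    rw [e1, map_zero, map_zero] at e2
    have e4 := evL_aeval (D := D.map σ) (x := x) (ε := fun _ => 1)
      (fun k => by rw [Int.cast_one, one_smul, hx]) (pN n) (a (ψ u))
    rw [← e2] at e4
    have e5 : evalF (0 : Tn κ' B) x = 0 := (evL x).map_zero
    rw [e5] at e4
    have e6 := (mul_eq_zero.1 e4.symm).resolve_right hne'
    have e7 := (pN_eval n _).1 e6
    rw [Finset.sum_const, Finset.card_univ, nsmul_eq_mul, mul_one, Nat.abs_cast] at e7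
    exact_mod_cast e7
  refine ⟨κ', i1, i2, hle, ?_, φ, hφ, u₀, hu₀, hφu₀⟩
  obtain ⟨m, hm⟩ := heven
  exact ⟨m - Fintype.card κ', by omega⟩

end

end Pool.Agent.H841.MS
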