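import Pool.Agent.H841.MS.Step
import Pool.Graph.R_seed8.V1168.GH.Pull

/-!
# The extremal components of symmetric tensors
-/

set_option linter.unusedSectionVars false

namespace Pool.Agent.H841.MS

open Finset Matrix Pool.Agent.W437.HC

noncomputable section

/-- The matrix units adapted to a matrix with eigenvalues `1` and `-1`. -/
theorem exists_units (Y : Matrix (Fin 2) (Fin 2) ℂ) (h0 : Y.trace = 0) (h1 : Y * Y = 1) :
    ∃ Q N N' : Matrix (Fin 2) (Fin 2) ℂ, Y * Q = Q ∧ Q * Q = Q ∧ Q 0 0 * Q 1 1 = Q 0 1 * Q 1 0 ∧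
      N * Q = N ∧ N * N' = 1 - Q ∧ N.trace = 0 := by
  have e1 : Y 1 1 = -Y 0 0 := by
    rw [Matrix.trace_fin_two] at h0
    linear_combination h0
  have e2 : Y 0 0 * Y 0 0 + Y 0 1 * Y 1 0 = 1 := by
    have h2 := congrFun (congrFun h1 0) 0
    rw [Matrix.mul_apply, Fin.sum_univ_two, Matrix.one_apply_eq] at h2
    exact h2
  -- the eigenvectors
  obtain ⟨a, b, a', b', g1, g2, g3, g4, g5⟩ : ∃ a b a' b' : ℂ, Y 0 0 * a + Y 0 1 * b = a ∧
      Y 1 0 * a + Y 1 1 * b = b ∧ Y 0 0 * a' + Y 0 1 * b' = -a' ∧ Y 1 0 * a' + Y 1 1 * b' = -b' ∧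
      a * b' - a' * b ≠ 0 := by
    by_cases h3 : Y 0 0 = -1
    · have h4 : Y 0 1 * Y 1 0 = 0 := by
        rw [h3] at e2
        linear_combination e2
      refine ⟨Y 0 1, 2, 2, -Y 1 0, ?_, ?_, ?_, ?_, ?_⟩
      · rw [h3]
        ring
      · rw [e1, h3]
        linear_combination h4
      · rw [h3]
        linear_combination -h4
      · rw [e1, h3]
        ring
      · have h5 : Y 0 1 * -Y 1 0 - 2 * 2 = -4 := by linear_combination -h4
        rw [h5]
        norm_num
    · refine ⟨1 + Y 0 0, Y 1 0, -Y 0 1, 1 + Y 0 0, ?_, ?_, ?_, ?_, ?_⟩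
      · linear_combination e2
      · rw [e1]
        ring
      · ring
      · rw [e1]
        linear_combination -e2
      · have h5 : (1 + Y 0 0) * (1 + Y 0 0) - -Y 0 1 * Y 1 0 = 2 * (1 + Y 0 0) := by
          linear_combination e2
        rw [h5]
        refine mul_ne_zero two_ne_zero fun h6 => h3 ?_
        linear_combination h6
  have d0 : a * b' - a' * b ≠ 0 := g5
  set d : ℂ := a * b' - a' * b with hd
  have hdd : d * d⁻¹ = 1 := mul_inv_cancel₀ d0
  refine ⟨!![a * b' * d⁻¹, -(a * a') * d⁻¹; b * b' * d⁻¹, -(b * a') * d⁻¹],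
    !![a' * b' * d⁻¹, -(a' * a') * d⁻¹; b' * b' * d⁻¹, -(b' * a') * d⁻¹],
    !![-(a * b) * d⁻¹, a * a * d⁻¹; -(b * b) * d⁻¹, b * a * d⁻¹], ?_, ?_, ?_, ?_, ?_, ?_⟩
  · ext x y
    fin_cases x <;> fin_cases y <;> simp [Matrix.mul_apply, Fin.sum_univ_two]
    · linear_combination b' * d⁻¹ * g1
    · linear_combination -a' * d⁻¹ * g1
    · linear_combination b' * d⁻¹ * g2
    · linear_combination -a' * d⁻¹ * g2
  · ext x y
    fin_cases x <;> fin_cases y <;> simp [Matrix.mul_apply, Fin.sum_univ_two]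
    · linear_combination a * b' * d⁻¹ * (hdd - d⁻¹ * hd)
    · linear_combination -(a * a') * d⁻¹ * (hdd - d⁻¹ * hd)
    · linear_combination b * b' * d⁻¹ * (hdd - d⁻¹ * hd)
    · linear_combination -(b * a') * d⁻¹ * (hdd - d⁻¹ * hd)
  · simp
    ring
  · ext x y
    fin_cases x <;> fin_cases y <;> simp [Matrix.mul_apply, Fin.sum_univ_two]
    · linear_combination a' * b' * d⁻¹ * (hdd - d⁻¹ * hd)
    · linear_combination -(a' * a') * d⁻¹ * (hdd - d⁻¹ * hd)
    · linear_combination b' * b' * d⁻¹ * (hdd - d⁻¹ * hd)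
    · linear_combination -(b' * a') * d⁻¹ * (hdd - d⁻¹ * hd)
  · ext x y
    fin_cases x <;> fin_cases y <;> simp [Matrix.mul_apply, Fin.sum_univ_two]
    · linear_combination -(a' * b) * d⁻¹ * (hdd - d⁻¹ * hd) + hdd - d⁻¹ * hd
    · linear_combination (a * a') * d⁻¹ * (hdd - d⁻¹ * hd)
    · linear_combination -(b * b') * d⁻¹ * (hdd - d⁻¹ * hd)
    · linear_combination (a * b') * d⁻¹ * (hdd - d⁻¹ * hd) + hdd - d⁻¹ * hd
  · rw [Matrix.trace_fin_two]
    simp
    ring

variable {I J : Type} {B : Type} [Fintype B] [DecidableEq B] {κ : Type} [Fintype κ] [DecidableEq κ]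
  {bl : I → J} {ρ : I → Matrix (Fin 2) (Fin 2) ℂ →ₗ[ℂ] Matrix B B ℂ} {p : J → Matrix B B ℂ}
  {c : κ → J}

/-- The projections in the slots. -/
def qq (ρ : I → Matrix (Fin 2) (Fin 2) ℂ →ₗ[ℂ] Matrix B B ℂ) (c : κ → J) (t : J → I)
    (Q : J → Matrix (Fin 2) (Fin 2) ℂ) (k : κ) : OpT κ B := rs ρ (t (c k)) (Q (c k)) k

theorem qq_comm (t : J → I) (Q : J → Matrix (Fin 2) (Fin 2) ℂ) {k l : κ} (hkl : k ≠ l) :
    Commute (qq ρ c t Q k) (qq ρ c t Q l) := sl_comm _ _ hkl

theorem qq_pair (t : J → I) (Q : J → Matrix (Fin 2) (Fin 2) ℂ) (S : Finset κ) :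
    (S : Set κ).Pairwise (Function.onFun Commute (qq ρ c t Q)) := fun _ _ _ _ h => qq_comm t Q h

/-- The product of the projections in the slots of a finite set. -/
def AQ (ρ : I → Matrix (Fin 2) (Fin 2) ℂ →ₗ[ℂ] Matrix B B ℂ) (c : κ → J) (t : J → I)
    (Q : J → Matrix (Fin 2) (Fin 2) ℂ) (S : Finset κ) : OpT κ B :=
  S.noncommProd (qq ρ c t Q) (qq_pair t Q S)

theorem AQ_empty (t : J → I) (Q : J → Matrix (Fin 2) (Fin 2) ℂ) :
    AQ ρ c t Q (∅ : Finset κ) = 1 := Finset.noncommProd_empty _ _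

theorem AQ_insert (t : J → I) (Q : J → Matrix (Fin 2) (Fin 2) ℂ) {S : Finset κ} {n : κ}
    (hn : n ∉ S) : AQ ρ c t Q (insert n S) = qq ρ c t Q n * AQ ρ c t Q S :=
  Finset.noncommProd_insert_of_notMem _ _ _ _ hn

theorem AQ_comm (t : J → I) (Q : J → Matrix (Fin 2) (Fin 2) ℂ) {S : Finset κ} {b : OpT κ B}
    (hb : ∀ k ∈ S, b * qq ρ c t Q k = qq ρ c t Q k * b) :
    b * AQ ρ c t Q S = AQ ρ c t Q S * b := by
  induction S using Finset.induction_on with
  | empty => rw [AQ_empty, mul_one, one_mul]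
  | insert n S hn ih =>
    rw [AQ_insert t Q hn, ← mul_assoc, hb n (Finset.mem_insert_self n S), mul_assoc,
      ih fun k hk => hb k (Finset.mem_insert_of_mem hk), mul_assoc]

theorem AQ_sl (t : J → I) (Q : J → Matrix (Fin 2) (Fin 2) ℂ) {S : Finset κ} {m : κ} (hm : m ∉ S)
    (X : Matrix B B ℂ) : sl X m * AQ ρ c t Q S = AQ ρ c t Q S * sl X m :=
  AQ_comm t Q fun k hk => sl_comm _ _ fun h0 => hm (h0 ▸ hk)

theorem MSH.raise (h : MSH bl ρ p) {t : J → I} (ht : ∀ j, bl (t j) = j)
    {U : Submodule ℂ (Tn κ B)} (hU : U ≤ Cl p c)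
    (hst : ∀ j X, Matrix.trace X = 0 → ∀ u ∈ U, ac (ρ (t j) X) u ∈ U)
    (hsym : ∀ k l, k ≠ l → c k = c l → ∀ u ∈ U, sw ρ (t (c k)) k l u = u)
    (hne : ∃ u ∈ U, u ≠ 0) (Q N N' : J → Matrix (Fin 2) (Fin 2) ℂ)
    (hQQ : ∀ j, Q j * Q j = Q j) (hQd : ∀ j, Q j 0 0 * Q j 1 1 = Q j 0 1 * Q j 1 0)
    (hNQ : ∀ j, N j * Q j = N j) (hNN : ∀ j, N j * N' j = 1 - Q j) (hN : ∀ j, (N j).trace = 0)
    (S : Finset κ) : ∃ u ∈ U, AQ ρ c t Q S u ≠ 0 := by
  classical
  induction S using Finset.induction_on with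
  | empty =>
    obtain ⟨u, hu, hu'⟩ := hne
    exact ⟨u, hu, by rw [AQ_empty]; exact hu'⟩
  | insert n S hn ih =>
    obtain ⟨w, hw, hw'⟩ := ih
    by_contra hcon
    push Not at hcon
    -- the vector `v`
    let R : OpT κ B := rs ρ (t (c n)) (N (c n)) n
    let v : Tn κ B := AQ ρ c t Q S (R w)
    have hv1 : v = R (AQ ρ c t Q S w) := by
      have e1 := LinearMap.congr_fun (AQ_sl (ρ := ρ) (c := c) t Q hn (ρ (t (c n)) (N (c n)))) w
      exact e1.symm
    -- it is not zero
    have hv0 : v ≠ 0 := by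
      intro h0
      apply hw'
      have e1 : rs ρ (t (c n)) (N' (c n)) n v = AQ ρ c t Q S w := by
        rw [hv1]
        change rs ρ (t (c n)) (N' (c n)) n (rs ρ (t (c n)) (N (c n)) n (AQ ρ c t Q S w)) = _
        rw [← Module.End.mul_apply, h.rs_mul, hNN, rs_sub, LinearMap.sub_apply]
        have e2 : rs ρ (t (c n)) (Q (c n)) n (AQ ρ c t Q S w) = 0 := by
          have e3 := hcon w hw
          rw [AQ_insert t Q hn, Module.End.mul_apply] at e3
          exact e3
        have e4 : rs ρ (t (c n)) 1 n (AQ ρ c t Q S w) = AQ ρ c t Q S w := by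
          unfold rs
          rw [← Module.End.mul_apply, AQ_sl t Q hn, Module.End.mul_apply, h.one, ht, hU hw n]
        rw [e2, e4, sub_zero]
      rw [← e1, h0, map_zero]
    -- its invariance
    have hvn : rs ρ (t (c n)) (Q (c n)) n v = v := by
      rw [hv1]
      change rs ρ (t (c n)) (Q (c n)) n (rs ρ (t (c n)) (N (c n)) n (AQ ρ c t Q S w)) = _
      rw [← Module.End.mul_apply, h.rs_mul, hNQ]
    have hvm : ∀ m ∈ S, rs ρ (t (c m)) (Q (c m)) m v = v := by
      intro m hm
      have e1 : qq ρ c t Q m * AQ ρ c t Q S = AQ ρ c t Q S := by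
        have e2 := AQ_insert (ρ := ρ) (c := c) t Q (Finset.notMem_erase m S)
        rw [Finset.insert_erase hm] at e2
        rw [e2, ← mul_assoc]
        congr 1
        unfold qq
        rw [h.rs_mul, hQQ]
      exact LinearMap.congr_fun e1 (R w)
    -- the terms of the action
    have hterm : ∀ m ∈ S, c m = c n →
        AQ ρ c t Q (insert n S) (rs ρ (t (c n)) (N (c n)) m w) = v := by
      intro m hm hmc
      have hmn : m ≠ n := fun h0 => hn (h0 ▸ hm)
      have hnS' : n ∉ S.erase m := fun h0 => hn (Finset.mem_of_mem_erase h0)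
      have e1 : AQ ρ c t Q S = AQ ρ c t Q (S.erase m) * qq ρ c t Q m := by
        have e2 := AQ_insert (ρ := ρ) (c := c) t Q (Finset.notMem_erase m S)
        rw [Finset.insert_erase hm] at e2
        rw [e2]
        exact AQ_sl t Q (Finset.notMem_erase m S) _
      have e3 : qq ρ c t Q m * rs ρ (t (c n)) (N (c n)) m = rs ρ (t (c n)) (N (c n)) m := by
        unfold qq
        rw [hmc, h.rs_mul, hNQ]
      have e4 : rs ρ (t (c n)) (N (c n)) m w = sw ρ (t (c n)) m n (R w) := by
        have e5 := hsym m n hmn hmc w hw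
        rw [hmc] at e5
        conv_lhs => rw [← e5]
        rw [← Module.End.mul_apply, ← h.sw_rs _ hmn, Module.End.mul_apply]
      have e6 : qq ρ c t Q n * sw ρ (t (c n)) m n = sw ρ (t (c n)) m n * qq ρ c t Q m := by
        unfold qq
        rw [hmc, h.sw_rs' _ hmn]
      have e7 : sw ρ (t (c n)) m n * AQ ρ c t Q (S.erase m) =
          AQ ρ c t Q (S.erase m) * sw ρ (t (c n)) m n := by
        refine AQ_comm t Q fun k hk => ?_
        exact h.sw_sl _ (Finset.ne_of_mem_erase hk) (fun h0 => hnS' (by rw [← h0]; exact hk)) _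
      have e8 : AQ ρ c t Q (insert n S) (rs ρ (t (c n)) (N (c n)) m w) =
          sw ρ (t (c n)) m n v := by
        rw [AQ_insert t Q hn, e1, Module.End.mul_apply, Module.End.mul_apply,
          ← Module.End.mul_apply (qq ρ c t Q m), e3, e4]
        have e9 : qq ρ c t Q n * (AQ ρ c t Q (S.erase m) * sw ρ (t (c n)) m n) =
            sw ρ (t (c n)) m n * AQ ρ c t Q S := by
          rw [← e7, ← mul_assoc, e6, mul_assoc, e1]
          congr 1
          exact AQ_sl t Q (Finset.notMem_erase m S) _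
        have e10 := LinearMap.congr_fun e9 (R w)
        exact e10
      rw [e8]
      have e11 : rs ρ (t (c n)) (Q (c n)) m v = v := by
        have e12 := hvm m hm
        rwa [hmc] at e12
      have e13 := LinearMap.congr_fun (h.sw_idem (t (c n)) hmn (Q (c n)) (hQd (c n))) v
      rw [Module.End.mul_apply, Module.End.mul_apply, hvn, e11] at e13
      exact e13
    -- the action
    have hact : AQ ρ c t Q (insert n S) (ac (ρ (t (c n)) (N (c n))) w) =
        ((1 : ℂ) + ((S.filter fun m => c m = c n).card : ℂ)) • v := by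
      unfold ac
      rw [LinearMap.sum_apply, map_sum, ← Finset.sum_subset (Finset.subset_univ (insert n S)),
        Finset.sum_insert hn]
      · have e1 : AQ ρ c t Q (insert n S) (sl (ρ (t (c n)) (N (c n))) n w) = v := by
          rw [AQ_insert t Q hn, Module.End.mul_apply]
          exact hvn
        have e2 : ∑ m ∈ S, AQ ρ c t Q (insert n S) (sl (ρ (t (c n)) (N (c n))) m w) =
            ∑ m ∈ S.filter (fun m => c m = c n), v := by
          rw [Finset.sum_filter]
          refine Finset.sum_congr rfl fun m hm => ?_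
          by_cases hmc : c m = c n
          · rw [if_pos hmc]
            exact hterm m hm hmc
          · rw [if_neg hmc]
            have e3 := h.rs_zero (i := t (c n)) (k := m) (c := c)
              (by rw [ht]; exact fun h0 => hmc h0.symm) (hU hw) (N (c n))
            unfold rs at e3
            rw [e3, map_zero]
        rw [e1, e2, Finset.sum_const, add_smul, one_smul, Nat.cast_smul_eq_nsmul]
      · intro m _ hm
        have e1 := LinearMap.congr_fun (AQ_sl (ρ := ρ) (c := c) t Q hm (ρ (t (c n)) (N (c n)))) w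
        rw [Module.End.mul_apply, Module.End.mul_apply, hcon w hw, map_zero] at e1
        exact e1.symm
    rw [hcon _ (hst (c n) _ (hN _) w hw)] at hact
    rcases smul_eq_zero.1 hact.symm with h1 | h1
    · have h2 : ((1 : ℂ) + ((S.filter fun m => c m = c n).card : ℂ)) =
          ((1 + (S.filter fun m => c m = c n).card : ℕ) : ℂ) := by push_cast; rfl
      rw [h2] at h1
      have h3 := Nat.cast_eq_zero.1 h1
      omega
    · exact hv0 h1

/-- The value of a form after the projections. -/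
theorem evalF_AQ (t : J → I) (Q : J → Matrix (Fin 2) (Fin 2) ℂ) (S : Finset κ) (u : Tn κ B)
    (x : κ → B → ℂ) : evalF (AQ ρ c t Q S u) x =
      evalF u (fun k => if k ∈ S then ρ (t (c k)) (Q (c k)) *ᵥ x k else x k) := by
  induction S using Finset.induction_on generalizing x with
  | empty =>
    rw [AQ_empty]
    simp only [Finset.notMem_empty, if_false]
    rfl
  | insert n S hn ih =>
    rw [AQ_insert t Q hn, Module.End.mul_apply]
    unfold qq rs
    rw [evalF_sl, ih]
    congr 1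
    funext k
    by_cases hk : k = n
    · subst hk
      rw [if_neg hn, if_pos (Finset.mem_insert_self _ _), Function.update_self]
    · rw [Function.update_of_ne hk]
      by_cases hkS : k ∈ S
      · rw [if_pos hkS, if_pos (Finset.mem_insert_of_mem hkS)]
      · rw [if_neg hkS, if_neg]
        intro h0
        exact (Finset.mem_insert.1 h0).elim hk hkS

/-- The extremal values for an element of the Lie algebra with eigenvalues `1` and `-1`. -/
theorem MSH.extremal [Fintype J] (h : MSH bl ρ p) {t : J → I} (ht : ∀ j, bl (t j) = j)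
    {U : Submodule ℂ (Tn κ B)} (hU : U ≤ Cl p c)
    (hst : ∀ j X, Matrix.trace X = 0 → ∀ u ∈ U, ac (ρ (t j) X) u ∈ U)
    (hsym : ∀ k l, k ≠ l → c k = c l → ∀ u ∈ U, sw ρ (t (c k)) k l u = u)
    (hne : ∃ u ∈ U, u ≠ 0) {D : Matrix B B ℂ} {Y : J → Matrix (Fin 2) (Fin 2) ℂ}
    (hY : ∀ j, (Y j).trace = 0) (hD : D = ∑ j, ρ (t j) (Y j)) (hDD : D * D = 1) :
    ∃ u ∈ U, ∃ x : κ → B → ℂ, (∀ k, D *ᵥ x k = x k) ∧ evalF u x ≠ 0 := by
  classical
  have e1 : ∀ j, D * p j = ρ (t j) (Y j) := by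
    intro j
    rw [hD, Finset.sum_mul, Finset.sum_eq_single j]
    · have e2 := h.mul_p (t j) (Y j)
      rwa [ht] at e2
    · intro j' _ hj'
      exact h.mul_p_ne (by rw [ht]; exact hj') _
    · intro h0
      exact absurd (Finset.mem_univ j) h0
  have e2 : ∀ j X, D * ρ (t j) X = ρ (t j) (Y j * X) := by
    intro j X
    have e3 := h.p_mul (t j) X
    rw [ht] at e3
    rw [← e3, ← Matrix.mul_assoc, e1, ← h.mul]
  have e4 : ∀ j, ρ (t j) (Y j * Y j) = p j := by
    intro j
    rw [← e2, ← e1, ← Matrix.mul_assoc, hDD, Matrix.one_mul]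
  let δ : J → ℂ := fun j => Y j 0 0 * Y j 0 0 + Y j 0 1 * Y j 1 0
  have e5 : ∀ j, Y j * Y j = δ j • (1 : Matrix (Fin 2) (Fin 2) ℂ) := by
    intro j
    have e6 : Y j 1 1 = -Y j 0 0 := by
      have e7 := hY j
      rw [Matrix.trace_fin_two] at e7
      linear_combination e7
    ext x y
    fin_cases x <;> fin_cases y <;> simp [Matrix.mul_apply, Fin.sum_univ_two, e6, δ]
    · ring
    · ring
    · ring
  have e8 : ∀ j, (δ j - 1) • p j = 0 := by
    intro j
    have e9 := e4 j
    rw [e5, map_smul, h.one, ht] at e9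
    rw [sub_smul, e9, one_smul, sub_self]
  let Y' : J → Matrix (Fin 2) (Fin 2) ℂ := fun j => if δ j = 1 then Y j else !![1, 0; 0, -1]
  have hY' : ∀ j, (Y' j).trace = 0 ∧ Y' j * Y' j = 1 := by
    intro j
    by_cases hj : δ j = 1
    · have e9 : Y' j = Y j := if_pos hj
      rw [e9]
      exact ⟨hY j, by rw [e5, hj, one_smul]⟩
    · have e9 : Y' j = !![1, 0; 0, -1] := if_neg hj
      rw [e9]
      refine ⟨by rw [Matrix.trace_fin_two]; simp, ?_⟩
      ext x y
      fin_cases x <;> fin_cases y <;> simp [Matrix.mul_apply, Fin.sum_univ_two]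
  choose Q N N' hYQ hQQ hQd hNQ hNN hN using fun j => exists_units (Y' j) (hY' j).1 (hY' j).2
  have hDQ : ∀ j, D * ρ (t j) (Q j) = ρ (t j) (Q j) := by
    intro j
    rw [e2]
    by_cases hj : δ j = 1
    · have e9 : Y' j = Y j := if_pos hj
      have e10 := hYQ j
      rw [e9] at e10
      rw [e10]
    · have e9 : p j = 0 := (smul_eq_zero.1 (e8 j)).resolve_left fun h0 => hj (sub_eq_zero.1 h0)
      have e10 : ∀ X, ρ (t j) X = 0 := by
        intro X
        have e11 := h.mul_p (t j) X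
        rw [ht, e9, Matrix.mul_zero] at e11
        exact e11.symm
      rw [e10, e10]
  obtain ⟨u, hu, hu'⟩ := h.raise ht hU hst hsym hne Q N N' hQQ hQd hNQ hNN hN Finset.univ
  obtain ⟨x, hx⟩ : ∃ x, evalF (AQ ρ c t Q Finset.univ u) x ≠ 0 := by
    by_contra hcon
    push Not at hcon
    exact hu' (eq_zero_of_evalF hcon)
  refine ⟨u, hu, fun k => ρ (t (c k)) (Q (c k)) *ᵥ x k, fun k => ?_, ?_⟩
  · rw [mulVec_mulVec, hDQ]
  · rw [evalF_AQ] at hx
    simp only [Finset.mem_univ, if_true] at hx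
    exact hx

end

end Pool.Agent.H841.MS
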