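import Mathlib
import Pool.Graph.R_seed8.W437.HC.Act

/-!
# Operators in the slots of tensors, and the exchange of one tensor factor of two slots
-/

set_option linter.unusedSectionVars false

namespace Pool.Agent.H841.MS

open Finset Matrix Pool.Agent.W437.HC

noncomputable section

section slot

variable {B : Type} [Fintype B] [DecidableEq B] {κ : Type} [Fintype κ] [DecidableEq κ]

/-- The complex tensors with the set `κ` of slots. -/
abbrev Tn (κ B : Type) : Type := (κ → B) → ℂ

/-- The operators on the tensors. -/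
abbrev OpT (κ B : Type) : Type := Module.End ℂ (Tn κ B)

/-- A matrix acting in one slot. -/
def sl (X : Matrix B B ℂ) (k : κ) : OpT κ B where
  toFun := actk X k
  map_add' := actk_add X k
  map_smul' c u := by
    funext I
    simp only [actk, Pi.smul_apply, smul_eq_mul, Finset.mul_sum, RingHom.id_apply, mul_left_comm]

theorem sl_apply (X : Matrix B B ℂ) (k : κ) (u : Tn κ B) (I : κ → B) :
    sl X k u I = ∑ j, X j (I k) * u (Function.update I k j) := rfl

theorem sl_mul (X Y : Matrix B B ℂ) (k : κ) : sl X k * sl Y k = sl (Y * X) k :=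
  LinearMap.ext fun u => actk_same X Y k u

theorem sl_comm (X Y : Matrix B B ℂ) {k l : κ} (h : k ≠ l) : sl X k * sl Y l = sl Y l * sl X k :=
  LinearMap.ext fun u => actk_comm X Y h u

theorem sl_add (X Y : Matrix B B ℂ) (k : κ) : (sl (X + Y) k : OpT κ B) = sl X k + sl Y k := by
  refine LinearMap.ext fun u => funext fun I => ?_
  rw [LinearMap.add_apply, Pi.add_apply, sl_apply, sl_apply, sl_apply, ← Finset.sum_add_distrib]
  refine Finset.sum_congr rfl fun j _ => ?_
  rw [Matrix.add_apply, add_mul]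

theorem sl_smul (a : ℂ) (X : Matrix B B ℂ) (k : κ) : (sl (a • X) k : OpT κ B) = a • sl X k := by
  refine LinearMap.ext fun u => funext fun I => ?_
  rw [LinearMap.smul_apply, Pi.smul_apply, sl_apply, sl_apply, smul_eq_mul, Finset.mul_sum]
  refine Finset.sum_congr rfl fun j _ => ?_
  rw [Matrix.smul_apply, smul_eq_mul, mul_assoc]

/-- `sl` as a linear map in the matrix. -/
def slL (k : κ) : Matrix B B ℂ →ₗ[ℂ] OpT κ B where
  toFun X := sl X k
  map_add' X Y := sl_add X Y k
  map_smul' a X := sl_smul a X k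

theorem slL_apply (X : Matrix B B ℂ) (k : κ) : slL k X = (sl X k : OpT κ B) := rfl

theorem sl_zero (k : κ) : (sl (0 : Matrix B B ℂ) k : OpT κ B) = 0 := (slL k).map_zero

theorem sl_sub (X Y : Matrix B B ℂ) (k : κ) : (sl (X - Y) k : OpT κ B) = sl X k - sl Y k :=
  (slL k).map_sub X Y

theorem sl_one (k : κ) : (sl (1 : Matrix B B ℂ) k : OpT κ B) = 1 := by
  refine LinearMap.ext fun u => funext fun I => ?_
  rw [sl_apply, Finset.sum_eq_single (I k), Matrix.one_apply_eq, one_mul, Function.update_eq_self]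
  · rfl
  · intro j _ hj
    rw [Matrix.one_apply_ne hj, zero_mul]
  · intro h
    exact absurd (Finset.mem_univ _) h

/-- The action as a derivation, as an operator. -/
def ac (X : Matrix B B ℂ) : OpT κ B := ∑ k, sl X k

theorem ac_apply (X : Matrix B B ℂ) (u : Tn κ B) : (ac X : OpT κ B) u = act X u := by
  rw [act_eq_sum, ac, LinearMap.sum_apply]
  rfl

/-- `ac` as a linear map in the matrix. -/
def acL : Matrix B B ℂ →ₗ[ℂ] OpT κ B := ∑ k, slL k

theorem acL_apply (X : Matrix B B ℂ) : acL X = (ac X : OpT κ B) := by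
  rw [acL, LinearMap.sum_apply]
  rfl

/-- The value of a form after a slot operator. -/
theorem evalF_sl (X : Matrix B B ℂ) (k : κ) (u : Tn κ B) (x : κ → B → ℂ) :
    evalF (sl X k u) x = evalF u (Function.update x k (X *ᵥ x k)) := by
  classical
  have h1 : ∀ I : κ → B, ∏ l, x l (I l) = x k (I k) * ∏ l ∈ Finset.univ.erase k, x l (I l) :=
    fun I => (Finset.mul_prod_erase _ _ (Finset.mem_univ k)).symm
  have h2 : ∀ I : κ → B, ∏ l, Function.update x k (X *ᵥ (x k)) l (I l) =
      (∑ i, X (I k) i * x k i) * ∏ l ∈ Finset.univ.erase k, x l (I l) := by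
    intro I
    rw [← Finset.mul_prod_erase _ _ (Finset.mem_univ k), Function.update_self]
    congr 1
    refine Finset.prod_congr rfl fun l hl => ?_
    rw [Function.update_of_ne (Finset.ne_of_mem_erase hl)]
  unfold evalF
  simp only [h1, h2, sl_apply, Finset.sum_mul, Finset.mul_sum]
  rw [← Finset.sum_product', ← Finset.sum_product']
  refine Finset.sum_bij' (fun p _ => (Function.update p.1 k p.2, p.1 k))
    (fun p _ => (Function.update p.1 k p.2, p.1 k)) ?_ ?_ ?_ ?_ ?_
  · intro p _; simp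
  · intro p _; simp
  · intro p _; simp
  · intro p _; simp
  · intro p _
    simp only [Function.update_self]
    have h4 : ∏ l ∈ Finset.univ.erase k, x l (Function.update p.1 k p.2 l) =
        ∏ l ∈ Finset.univ.erase k, x l (p.1 l) := by
      refine Finset.prod_congr rfl fun l hl => ?_
      rw [Function.update_of_ne (Finset.ne_of_mem_erase hl)]
    rw [h4]
    ring

end slot

/-! ### commuting actions of two by two matrices -/

section ms

variable {I J : Type} {B : Type} [Fintype B] [DecidableEq B]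

/-- The algebras `M_2(ℂ)` (one for each `i : I`) act on the blocks `p j` of a vector space, commuting
with each other. -/
structure MSH (bl : I → J) (ρ : I → Matrix (Fin 2) (Fin 2) ℂ →ₗ[ℂ] Matrix B B ℂ)
    (p : J → Matrix B B ℂ) : Prop where
  mul : ∀ i X Y, ρ i (X * Y) = ρ i X * ρ i Y
  one : ∀ i, ρ i 1 = p (bl i)
  comm : ∀ i i', i ≠ i' → ∀ X Y, ρ i X * ρ i' Y = ρ i' Y * ρ i X
  idem : ∀ j, p j * p j = p j
  orth : ∀ j j', j ≠ j' → p j * p j' = 0

variable {bl : I → J} {ρ : I → Matrix (Fin 2) (Fin 2) ℂ →ₗ[ℂ] Matrix B B ℂ} {p : J → Matrix B B ℂ}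

namespace MSH

variable (h : MSH bl ρ p)
include h

theorem mul_p (i : I) (X : Matrix (Fin 2) (Fin 2) ℂ) : ρ i X * p (bl i) = ρ i X := by
  rw [← h.one, ← h.mul, mul_one]

theorem p_mul (i : I) (X : Matrix (Fin 2) (Fin 2) ℂ) : p (bl i) * ρ i X = ρ i X := by
  rw [← h.one, ← h.mul, one_mul]

theorem mul_p_ne {i : I} {j : J} (hj : bl i ≠ j) (X : Matrix (Fin 2) (Fin 2) ℂ) :
    ρ i X * p j = 0 := by
  rw [← h.mul_p, Matrix.mul_assoc, h.orth _ _ hj, Matrix.mul_zero]

theorem p_mul_ne {i : I} {j : J} (hj : bl i ≠ j) (X : Matrix (Fin 2) (Fin 2) ℂ) :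
    p j * ρ i X = 0 := by
  rw [← h.p_mul, ← Matrix.mul_assoc, h.orth _ _ (Ne.symm hj), Matrix.zero_mul]

theorem comm_p (i : I) (j : J) (X : Matrix (Fin 2) (Fin 2) ℂ) : ρ i X * p j = p j * ρ i X := by
  by_cases hj : bl i = j
  · subst hj
    rw [h.mul_p, h.p_mul]
  · rw [h.mul_p_ne hj, h.p_mul_ne hj]

end MSH

variable {κ : Type} [Fintype κ] [DecidableEq κ]

/-- The operators `ρ i X` in the slots. -/
abbrev rs (ρ : I → Matrix (Fin 2) (Fin 2) ℂ →ₗ[ℂ] Matrix B B ℂ) (i : I)
    (X : Matrix (Fin 2) (Fin 2) ℂ) (k : κ) : OpT κ B := sl (ρ i X) k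

/-- The matrix units. -/
abbrev mu (a b : Fin 2) : Matrix (Fin 2) (Fin 2) ℂ := Matrix.single a b 1

/-- The exchange of the `i`-th tensor factors of the slots `k` and `l`. -/
def sw (ρ : I → Matrix (Fin 2) (Fin 2) ℂ →ₗ[ℂ] Matrix B B ℂ) (i : I) (k l : κ) : OpT κ B :=
  ∑ a, ∑ b, rs ρ i (mu a b) k * rs ρ i (mu b a) l

theorem rs_add (i : I) (X Y : Matrix (Fin 2) (Fin 2) ℂ) (k : κ) :
    rs ρ i (X + Y) k = rs ρ i X k + rs ρ i Y k := by
  unfold rs
  rw [map_add, sl_add]

theorem rs_sub (i : I) (X Y : Matrix (Fin 2) (Fin 2) ℂ) (k : κ) :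
    rs ρ i (X - Y) k = rs ρ i X k - rs ρ i Y k := by
  unfold rs
  rw [map_sub, sl_sub]

theorem rs_smul (i : I) (a : ℂ) (X : Matrix (Fin 2) (Fin 2) ℂ) (k : κ) :
    rs ρ i (a • X) k = a • rs ρ i X k := by
  unfold rs
  rw [map_smul, sl_smul]

/-- The expansion in matrix units. -/
theorem rs_expand (i : I) (X : Matrix (Fin 2) (Fin 2) ℂ) (k : κ) :
    rs ρ i X k = ∑ a, ∑ b, X a b • rs ρ i (mu a b) k := by
  have h1 : X = ∑ a, ∑ b, X a b • mu a b := by
    conv_lhs => rw [Matrix.matrix_eq_sum_single X]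
    refine Finset.sum_congr rfl fun a _ => Finset.sum_congr rfl fun b _ => ?_
    rw [Matrix.smul_single, smul_eq_mul, mul_one]
  conv_lhs => rw [h1]
  unfold rs
  rw [map_sum, ← slL_apply, map_sum]
  refine Finset.sum_congr rfl fun a _ => ?_
  rw [map_sum, map_sum]
  refine Finset.sum_congr rfl fun b _ => ?_
  rw [map_smul, map_smul]
  rfl

theorem rs_comm_ne (i i' : I) (X Y : Matrix (Fin 2) (Fin 2) ℂ) {k l : κ} (hkl : k ≠ l) :
    rs ρ i X k * rs ρ i' Y l = rs ρ i' Y l * rs ρ i X k := sl_comm _ _ hkl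

theorem sw_symm (i : I) {k l : κ} (hkl : k ≠ l) : sw ρ i k l = sw ρ i l k := by
  unfold sw
  rw [Finset.sum_comm]
  refine Finset.sum_congr rfl fun a _ => Finset.sum_congr rfl fun b _ => ?_
  rw [rs_comm_ne i i _ _ hkl]

namespace MSH

variable (h : MSH bl ρ p)
include h

theorem rs_mul (i : I) (X Y : Matrix (Fin 2) (Fin 2) ℂ) (k : κ) :
    rs ρ i X k * rs ρ i Y k = rs ρ i (Y * X) k := by
  unfold rs
  rw [sl_mul, h.mul]

theorem rs_comm {i i' : I} (hi : i ≠ i') (X Y : Matrix (Fin 2) (Fin 2) ℂ) (k l : κ) :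
    rs ρ i X k * rs ρ i' Y l = rs ρ i' Y l * rs ρ i X k := by
  by_cases hkl : k = l
  · subst hkl
    unfold rs
    rw [sl_mul, sl_mul, h.comm _ _ hi]
  · exact rs_comm_ne _ _ _ _ hkl

theorem rs_comm_p (i : I) (X : Matrix (Fin 2) (Fin 2) ℂ) (j : J) (k l : κ) :
    rs ρ i X k * sl (p j) l = sl (p j) l * rs ρ i X k := by
  by_cases hkl : k = l
  · subst hkl
    unfold rs
    rw [sl_mul, sl_mul, h.comm_p]
  · exact sl_comm _ _ hkl

/-- The exchange moves operators from one slot to the other one. -/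
theorem sw_rs (i : I) {k l : κ} (hkl : k ≠ l) (X : Matrix (Fin 2) (Fin 2) ℂ) :
    sw ρ i k l * rs ρ i X l = rs ρ i X k * sw ρ i k l := by
  have h1 : ∀ a b : Fin 2, sw ρ i k l * rs ρ i (mu a b) l = rs ρ i (mu a b) k * sw ρ i k l := by
    intro a b
    have e1 : sw ρ i k l * rs ρ i (mu a b) l =
        ∑ x, ∑ y, rs ρ i (mu x y) k * rs ρ i (mu a b * mu y x) l := by
      unfold sw
      rw [Finset.sum_mul]
      refine Finset.sum_congr rfl fun x _ => ?_
      rw [Finset.sum_mul]
      refine Finset.sum_congr rfl fun y _ => ?_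
      rw [mul_assoc, h.rs_mul]
    have e2 : rs ρ i (mu a b) k * sw ρ i k l =
        ∑ x, ∑ y, rs ρ i (mu x y * mu a b) k * rs ρ i (mu y x) l := by
      unfold sw
      rw [Finset.mul_sum]
      refine Finset.sum_congr rfl fun x _ => ?_
      rw [Finset.mul_sum]
      refine Finset.sum_congr rfl fun y _ => ?_
      rw [← mul_assoc, h.rs_mul]
    have e3 : ∀ x : Fin 2, ∑ y, rs ρ i (mu x y) k * rs ρ i (mu a b * mu y x) l =
        rs ρ i (mu x b) k * rs ρ i (mu a x) l := by
      intro x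
      rw [Finset.sum_eq_single b]
      · rw [Matrix.single_mul_single_same, mul_one]
      · intro y _ hy
        rw [Matrix.single_mul_single_of_ne _ _ _ _ hy.symm]
        unfold rs
        rw [map_zero, sl_zero, mul_zero]
      · intro hb
        exact absurd (Finset.mem_univ _) hb
    have e4 : ∀ x : Fin 2, ∑ y, rs ρ i (mu x y * mu a b) k * rs ρ i (mu y x) l =
        rs ρ i (mu x b) k * rs ρ i (mu a x) l := by
      intro x
      rw [Finset.sum_eq_single a]
      · rw [Matrix.single_mul_single_same, mul_one]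
      · intro y _ hy
        rw [Matrix.single_mul_single_of_ne _ _ _ _ hy]
        unfold rs
        rw [map_zero, sl_zero, zero_mul]
      · intro hb
        exact absurd (Finset.mem_univ _) hb
    rw [e1, e2]
    exact Finset.sum_congr rfl fun x _ => (e3 x).trans (e4 x).symm
  rw [rs_expand i X l, rs_expand i X k, Finset.mul_sum, Finset.sum_mul]
  refine Finset.sum_congr rfl fun a _ => ?_
  rw [Finset.mul_sum, Finset.sum_mul]
  refine Finset.sum_congr rfl fun b _ => ?_
  rw [mul_smul_comm, smul_mul_assoc, h1]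

theorem sw_rs' (i : I) {k l : κ} (hkl : k ≠ l) (X : Matrix (Fin 2) (Fin 2) ℂ) :
    sw ρ i k l * rs ρ i X k = rs ρ i X l * sw ρ i k l := by
  rw [sw_symm i hkl, h.sw_rs i hkl.symm]

/-- The exchange commutes with the operators in the other slots. -/
theorem sw_sl (i : I) {k l m : κ} (hk : m ≠ k) (hl : m ≠ l) (X : Matrix B B ℂ) :
    sw ρ i k l * sl X m = sl X m * sw ρ i k l := by
  unfold sw
  rw [Finset.sum_mul, Finset.mul_sum]
  refine Finset.sum_congr rfl fun x _ => ?_
  rw [Finset.sum_mul, Finset.mul_sum]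
  refine Finset.sum_congr rfl fun y _ => ?_
  unfold rs
  rw [mul_assoc, sl_comm _ _ (Ne.symm hl), ← mul_assoc, sl_comm _ _ (Ne.symm hk), mul_assoc]

/-- The exchange commutes with the operators of the other factors. -/
theorem sw_rs_ne {i i' : I} (hi : i ≠ i') (k l m : κ) (X : Matrix (Fin 2) (Fin 2) ℂ) :
    sw ρ i k l * rs ρ i' X m = rs ρ i' X m * sw ρ i k l := by
  unfold sw
  rw [Finset.sum_mul, Finset.mul_sum]
  refine Finset.sum_congr rfl fun x _ => ?_
  rw [Finset.sum_mul, Finset.mul_sum]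
  refine Finset.sum_congr rfl fun y _ => ?_
  rw [mul_assoc, h.rs_comm hi, ← mul_assoc, h.rs_comm hi, mul_assoc]

theorem sw_p (i : I) (j : J) (k l m : κ) : sw ρ i k l * sl (p j) m = sl (p j) m * sw ρ i k l := by
  unfold sw
  rw [Finset.sum_mul, Finset.mul_sum]
  refine Finset.sum_congr rfl fun x _ => ?_
  rw [Finset.sum_mul, Finset.mul_sum]
  refine Finset.sum_congr rfl fun y _ => ?_
  rw [mul_assoc, h.rs_comm_p, ← mul_assoc, h.rs_comm_p, mul_assoc]

/-- The exchange commutes with the action of all factors. -/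
theorem sw_ac (i i' : I) {k l : κ} (hkl : k ≠ l) (X : Matrix (Fin 2) (Fin 2) ℂ) :
    sw ρ i k l * ac (ρ i' X) = ac (ρ i' X) * sw ρ i k l := by
  by_cases hi : i = i'
  · subst hi
    unfold ac
    have hl : l ∈ Finset.univ.erase k := Finset.mem_erase.2 ⟨hkl.symm, Finset.mem_univ l⟩
    rw [← Finset.add_sum_erase _ _ (Finset.mem_univ k), ← Finset.add_sum_erase _ _ hl, mul_add,
      mul_add, add_mul, add_mul]
    have e1 := h.sw_rs' i hkl X
    have e2 := h.sw_rs i hkl X
    unfold rs at e1 e2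
    rw [e1, e2, Finset.mul_sum, Finset.sum_mul, ← add_assoc, ← add_assoc,
      add_comm (sl ((ρ i) X) l * sw ρ i k l)]
    congr 1
    refine Finset.sum_congr rfl fun m hm => ?_
    have h1 : m ≠ l := Finset.ne_of_mem_erase hm
    have h2 : m ≠ k := Finset.ne_of_mem_erase (Finset.mem_of_mem_erase hm)
    exact h.sw_sl i h2 h1 _
  · unfold ac
    rw [Finset.mul_sum, Finset.sum_mul]
    exact Finset.sum_congr rfl fun m _ => h.sw_rs_ne hi k l m X

/-- The square of the exchange. -/
theorem sw_sq (i : I) {k l : κ} (hkl : k ≠ l) :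
    sw ρ i k l * sw ρ i k l = rs ρ i 1 k * rs ρ i 1 l := by
  have e1 : sw ρ i k l * sw ρ i k l = ∑ a, ∑ b, rs ρ i (mu b a) k * rs ρ i (mu a b) l *
      sw ρ i k l := by
    conv_lhs => rw [show sw ρ i k l * sw ρ i k l = sw ρ i k l *
      ∑ a, ∑ b, rs ρ i (mu a b) k * rs ρ i (mu b a) l from rfl]
    rw [Finset.mul_sum]
    refine Finset.sum_congr rfl fun a _ => ?_
    rw [Finset.mul_sum]
    refine Finset.sum_congr rfl fun b _ => ?_
    rw [← mul_assoc, h.sw_rs' i hkl, mul_assoc, h.sw_rs i hkl, ← mul_assoc,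
      rs_comm_ne i i _ _ hkl.symm]
  have e2 : ∀ a b : Fin 2, rs ρ i (mu b a) k * rs ρ i (mu a b) l * sw ρ i k l =
      ∑ x, ∑ y, rs ρ i (mu x y * mu b a) k * rs ρ i (mu y x * mu a b) l := by
    intro a b
    unfold sw
    rw [Finset.mul_sum]
    refine Finset.sum_congr rfl fun x _ => ?_
    rw [Finset.mul_sum]
    refine Finset.sum_congr rfl fun y _ => ?_
    rw [mul_assoc, ← mul_assoc (rs ρ i (mu a b) l), rs_comm_ne i i _ _ hkl.symm, mul_assoc,
      h.rs_mul, ← mul_assoc, h.rs_mul]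
  have e3 : ∀ a b : Fin 2, ∑ x, ∑ y, rs ρ i (mu x y * mu b a) k * rs ρ i (mu y x * mu a b) l =
      rs ρ i (mu a a) k * rs ρ i (mu b b) l := by
    intro a b
    rw [Finset.sum_eq_single a, Finset.sum_eq_single b]
    · rw [Matrix.single_mul_single_same, Matrix.single_mul_single_same, mul_one]
    · intro y _ hy
      rw [Matrix.single_mul_single_of_ne _ _ _ _ hy]
      unfold rs
      rw [map_zero, sl_zero, zero_mul]
    · intro hb
      exact absurd (Finset.mem_univ _) hb
    · intro x _ hx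
      refine Finset.sum_eq_zero fun y _ => ?_
      rw [Matrix.single_mul_single_of_ne _ _ _ _ hx]
      unfold rs
      rw [map_zero, sl_zero, mul_zero]
    · intro hb
      exact absurd (Finset.mem_univ _) hb
  have e4 : ∀ m : κ, rs ρ i 1 m = ∑ a, rs ρ i (mu a a) m := by
    intro m
    rw [rs_expand i 1 m]
    refine Finset.sum_congr rfl fun a _ => ?_
    rw [Finset.sum_eq_single a]
    · rw [Matrix.one_apply_eq, one_smul]
    · intro b _ hb
      rw [Matrix.one_apply_ne hb.symm, zero_smul]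
    · intro hb
      exact absurd (Finset.mem_univ _) hb
  rw [e1, e4, e4, Finset.sum_mul_sum]
  refine Finset.sum_congr rfl fun a _ => Finset.sum_congr rfl fun b _ => ?_
  rw [e2, e3]

/-- The conjugate of an exchange. -/
theorem sw_sw (i : I) {k l m : κ} (hkl : k ≠ l) (hmk : m ≠ k) (hml : m ≠ l) :
    sw ρ i k m * sw ρ i k l = sw ρ i m l * sw ρ i k m := by
  conv_lhs => rw [show sw ρ i k m * sw ρ i k l = sw ρ i k m *
    ∑ a, ∑ b, rs ρ i (mu a b) k * rs ρ i (mu b a) l from rfl]
  conv_rhs => rw [show sw ρ i m l * sw ρ i k m =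
    (∑ a, ∑ b, rs ρ i (mu a b) m * rs ρ i (mu b a) l) * sw ρ i k m from rfl]
  rw [Finset.mul_sum, Finset.sum_mul]
  refine Finset.sum_congr rfl fun a _ => ?_
  rw [Finset.mul_sum, Finset.sum_mul]
  refine Finset.sum_congr rfl fun b _ => ?_
  rw [← mul_assoc, h.sw_rs' i hmk.symm, mul_assoc]
  have e1 := h.sw_sl i (k := k) (l := m) (m := l) hkl.symm hml.symm (ρ i (mu b a))
  unfold rs
  rw [e1, ← mul_assoc]

/-- The Lie algebra `sl_2` kills the antisymmetric tensors. -/
theorem rs_anti (i : I) {k l : κ} (hkl : k ≠ l) (Y : Matrix (Fin 2) (Fin 2) ℂ) (hY : Y.trace = 0) :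
    (rs ρ i Y k + rs ρ i Y l) * sw ρ i k l = rs ρ i Y k * rs ρ i 1 l + rs ρ i 1 k * rs ρ i Y l := by
  have hc := fun X X' : Matrix (Fin 2) (Fin 2) ℂ => rs_comm_ne (ρ := ρ) (B := B) i i X X' hkl.symm
  have e1 : (rs ρ i Y k + rs ρ i Y l) * sw ρ i k l =
      ∑ x, ∑ y, (rs ρ i (mu x y * Y) k * rs ρ i (mu y x) l +
        rs ρ i (mu x y) k * rs ρ i (mu y x * Y) l) := by
    unfold sw
    rw [Finset.mul_sum]
    refine Finset.sum_congr rfl fun x _ => ?_
    rw [Finset.mul_sum]
    refine Finset.sum_congr rfl fun y _ => ?_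
    rw [add_mul, ← mul_assoc, h.rs_mul, ← mul_assoc, hc, mul_assoc, h.rs_mul]
  have e2 : Y 1 1 = -Y 0 0 := by
    rw [Matrix.trace_fin_two] at hY
    linear_combination hY
  rw [e1]
  have e3 : ∀ (x y : Fin 2) (m : κ), rs ρ i (mu x y * Y) m =
      Y y 0 • rs ρ i (mu x 0) m + Y y 1 • rs ρ i (mu x 1) m := by
    intro x y m
    have e4 : mu x y * Y = Y y 0 • mu x 0 + Y y 1 • mu x 1 := by
      ext a b
      rw [Matrix.add_apply, Matrix.smul_apply, Matrix.smul_apply, smul_eq_mul, smul_eq_mul]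
      by_cases ha : x = a
      · subst ha
        rw [Matrix.single_mul_apply_same, one_mul]
        fin_cases b <;> simp
      · rw [Matrix.single_mul_apply_of_ne (h := Ne.symm ha)]
        simp [ha]
    rw [e4, rs_add, rs_smul, rs_smul]
  simp only [e3]
  rw [rs_expand i Y k, rs_expand i Y l, rs_expand i 1 k, rs_expand i 1 l]
  simp only [Fin.sum_univ_two, e2, Matrix.one_apply_eq, Matrix.one_apply_ne (zero_ne_one (α := Fin 2)),
    Matrix.one_apply_ne (one_ne_zero (α := Fin 2)), one_smul, zero_smul, add_zero, zero_add]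
  simp only [add_mul, mul_add, smul_mul_assoc, mul_smul_comm]
  module

/-- The exchange is trivial on the symmetric tensors `v ⊗ v`. -/
theorem sw_idem (i : I) {k l : κ} (hkl : k ≠ l) (Q : Matrix (Fin 2) (Fin 2) ℂ)
    (hQ : Q 0 0 * Q 1 1 = Q 0 1 * Q 1 0) :
    sw ρ i k l * (rs ρ i Q k * rs ρ i Q l) = rs ρ i Q k * rs ρ i Q l := by
  have hc := fun X X' : Matrix (Fin 2) (Fin 2) ℂ => rs_comm_ne (ρ := ρ) (B := B) i i X X' hkl.symm
  have e1 : sw ρ i k l * (rs ρ i Q k * rs ρ i Q l) =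
      ∑ x, ∑ y, rs ρ i (Q * mu x y) k * rs ρ i (Q * mu y x) l := by
    unfold sw
    rw [Finset.sum_mul]
    refine Finset.sum_congr rfl fun x _ => ?_
    rw [Finset.sum_mul]
    refine Finset.sum_congr rfl fun y _ => ?_
    rw [mul_assoc, ← mul_assoc (rs ρ i (mu y x) l), hc, mul_assoc, h.rs_mul, ← mul_assoc, h.rs_mul]
  have e3 : ∀ (x y : Fin 2) (m : κ), rs ρ i (Q * mu x y) m =
      Q 0 x • rs ρ i (mu 0 y) m + Q 1 x • rs ρ i (mu 1 y) m := by
    intro x y m
    have e4 : Q * mu x y = Q 0 x • mu 0 y + Q 1 x • mu 1 y := by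
      ext a b
      rw [Matrix.add_apply, Matrix.smul_apply, Matrix.smul_apply, smul_eq_mul, smul_eq_mul]
      by_cases hb : y = b
      · subst hb
        rw [Matrix.mul_single_apply_same, mul_one]
        fin_cases a <;> simp
      · rw [Matrix.mul_single_apply_of_ne (hbj := Ne.symm hb)]
        simp [hb]
    rw [e4, rs_add, rs_smul, rs_smul]
  rw [e1]
  simp only [e3]
  rw [rs_expand i Q k, rs_expand i Q l]
  simp only [Fin.sum_univ_two, add_mul, mul_add, smul_mul_assoc, mul_smul_comm]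
  linear_combination (norm := module) hQ •
    (rs ρ i (mu 0 1) k * rs ρ i (mu 1 0) l - rs ρ i (mu 1 1) k * rs ρ i (mu 0 0) l -
      rs ρ i (mu 0 0) k * rs ρ i (mu 1 1) l + rs ρ i (mu 1 0) k * rs ρ i (mu 0 1) l)

end MSH

end ms

end

end Pool.Agent.H841.MS
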