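import Pool.Agent.H841.MS.Slot

/-!
# Symmetric tensors in one factor of each block
-/

set_option linter.unusedSectionVars false

namespace Pool.Agent.H841.MS

open Finset Matrix Pool.Agent.W437.HC

noncomputable section

variable {I J : Type} {B : Type} [Fintype B] [DecidableEq B] {κ : Type} [Fintype κ] [DecidableEq κ]
  {bl : I → J} {ρ : I → Matrix (Fin 2) (Fin 2) ℂ →ₗ[ℂ] Matrix B B ℂ} {p : J → Matrix B B ℂ}
  {c : κ → J}

/-- The tensors with the colour pattern `c`. -/
def Cl (p : J → Matrix B B ℂ) (c : κ → J) : Submodule ℂ (Tn κ B) where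
  carrier := {u | ∀ m, sl (p (c m)) m u = u}
  add_mem' := by
    intro u v hu hv m
    rw [map_add, hu m, hv m]
  zero_mem' := fun m => map_zero _
  smul_mem' := by
    intro a u hu m
    rw [map_smul, hu m]

theorem mem_Cl {u : Tn κ B} : u ∈ Cl p c ↔ ∀ m, sl (p (c m)) m u = u := Iff.rfl

/-- The operators which commute with all factors and with the projections to the blocks. -/
structure Ok (ρ : I → Matrix (Fin 2) (Fin 2) ℂ →ₗ[ℂ] Matrix B B ℂ) (p : J → Matrix B B ℂ)
    (a : OpT κ B) : Prop where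
  ac : ∀ i X, a * ac (ρ i X) = ac (ρ i X) * a
  pr : ∀ j m, a * sl (p j) m = sl (p j) m * a

/-- The operators which commute with the `i`-th factor in each slot. -/
def Fre (ρ : I → Matrix (Fin 2) (Fin 2) ℂ →ₗ[ℂ] Matrix B B ℂ) (i : I) (a : OpT κ B) : Prop :=
  ∀ X m, a * rs ρ i X m = rs ρ i X m * a

theorem Ok.one : Ok ρ p (1 : OpT κ B) := ⟨fun _ _ => by rw [one_mul, mul_one],
  fun _ _ => by rw [one_mul, mul_one]⟩

theorem Ok.mul {a b : OpT κ B} (ha : Ok ρ p a) (hb : Ok ρ p b) : Ok ρ p (a * b) :=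
  ⟨fun i X => by rw [mul_assoc, hb.ac, ← mul_assoc, ha.ac, mul_assoc],
    fun j m => by rw [mul_assoc, hb.pr, ← mul_assoc, ha.pr, mul_assoc]⟩

theorem Ok.add {a b : OpT κ B} (ha : Ok ρ p a) (hb : Ok ρ p b) : Ok ρ p (a + b) :=
  ⟨fun i X => by rw [add_mul, mul_add, ha.ac, hb.ac], fun j m => by rw [add_mul, mul_add, ha.pr, hb.pr]⟩

theorem Ok.sub {a b : OpT κ B} (ha : Ok ρ p a) (hb : Ok ρ p b) : Ok ρ p (a - b) :=
  ⟨fun i X => by rw [sub_mul, mul_sub, ha.ac, hb.ac], fun j m => by rw [sub_mul, mul_sub, ha.pr, hb.pr]⟩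

theorem Ok.smul {a : OpT κ B} (ha : Ok ρ p a) (z : ℂ) : Ok ρ p (z • a) :=
  ⟨fun i X => by rw [smul_mul_assoc, mul_smul_comm, ha.ac],
    fun j m => by rw [smul_mul_assoc, mul_smul_comm, ha.pr]⟩

theorem Ok.sum {ι : Type} (s : Finset ι) (f : ι → OpT κ B) (hf : ∀ x ∈ s, Ok ρ p (f x)) :
    Ok ρ p (∑ x ∈ s, f x) := by
  classical
  induction s using Finset.induction_on with
  | empty =>
    rw [Finset.sum_empty]
    exact ⟨fun i X => by rw [zero_mul, mul_zero], fun j m => by rw [zero_mul, mul_zero]⟩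
  | insert x s hx ih =>
    rw [Finset.sum_insert hx]
    exact (hf x (Finset.mem_insert_self x s)).add (ih fun y hy => hf y (Finset.mem_insert_of_mem hy))

theorem Ok.mem {a : OpT κ B} (ha : Ok ρ p a) {u : Tn κ B} (hu : u ∈ Cl p c) : a u ∈ Cl p c := by
  intro m
  have h1 := LinearMap.congr_fun (ha.pr (c m) m) u
  rw [Module.End.mul_apply, Module.End.mul_apply, hu m] at h1
  exact h1.symm

theorem Fre.one (i : I) : Fre ρ i (1 : OpT κ B) := fun _ _ => by rw [one_mul, mul_one]

theorem Fre.mul {i : I} {a b : OpT κ B} (ha : Fre ρ i a) (hb : Fre ρ i b) : Fre ρ i (a * b) :=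
  fun X m => by rw [mul_assoc, hb X m, ← mul_assoc, ha X m, mul_assoc]

theorem Fre.add {i : I} {a b : OpT κ B} (ha : Fre ρ i a) (hb : Fre ρ i b) : Fre ρ i (a + b) :=
  fun X m => by rw [add_mul, mul_add, hb X m, ha X m]

theorem Fre.sub {i : I} {a b : OpT κ B} (ha : Fre ρ i a) (hb : Fre ρ i b) : Fre ρ i (a - b) :=
  fun X m => by rw [sub_mul, mul_sub, hb X m, ha X m]

theorem Fre.smul {i : I} {a : OpT κ B} (ha : Fre ρ i a) (z : ℂ) : Fre ρ i (z • a) :=
  fun X m => by rw [smul_mul_assoc, mul_smul_comm, ha X m]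

theorem Fre.sum {i : I} {ι : Type} (s : Finset ι) (f : ι → OpT κ B) (hf : ∀ x ∈ s, Fre ρ i (f x)) :
    Fre ρ i (∑ x ∈ s, f x) := by
  classical
  induction s using Finset.induction_on with
  | empty =>
    rw [Finset.sum_empty]
    exact fun X m => by rw [zero_mul, mul_zero]
  | insert x s hx ih =>
    rw [Finset.sum_insert hx]
    exact (hf x (Finset.mem_insert_self x s)).add (ih fun y hy => hf y (Finset.mem_insert_of_mem hy))

/-- Operators which commute with the `i`-th factor commute with the exchanges of this factor. -/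
theorem Fre.sw {i : I} {a : OpT κ B} (ha : Fre ρ i a) (k l : κ) :
    a * sw ρ i k l = MS.sw ρ i k l * a := by
  unfold MS.sw
  rw [Finset.mul_sum, Finset.sum_mul]
  refine Finset.sum_congr rfl fun x _ => ?_
  rw [Finset.mul_sum, Finset.sum_mul]
  refine Finset.sum_congr rfl fun y _ => ?_
  rw [← mul_assoc, ha, mul_assoc, ha, mul_assoc]

/-- Stability under the exchanges of the factor `i` in the slots of the finite set `K`. -/
def Sta (ρ : I → Matrix (Fin 2) (Fin 2) ℂ →ₗ[ℂ] Matrix B B ℂ) (i : I) (K : Finset κ)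
    (N : Submodule ℂ (Tn κ B)) : Prop :=
  ∀ k ∈ K, ∀ l ∈ K, k ≠ l → ∀ v ∈ N, sw ρ i k l v ∈ N

namespace MSH

variable (h : MSH bl ρ p)
include h

theorem sw_ok (i : I) {k l : κ} (hkl : k ≠ l) : Ok ρ p (sw ρ i k l) :=
  ⟨fun i' X => h.sw_ac i i' hkl X, fun j m => h.sw_p i j k l m⟩

theorem sw_fre {i i' : I} (hi : i ≠ i') (k l : κ) : Fre ρ i' (sw ρ i k l) :=
  fun X m => h.sw_rs_ne hi k l m X

/-- On the tensors with the right colours the exchange is an involution. -/
theorem sw_inv (i : I) {k l : κ} (hkl : k ≠ l) (hk : c k = bl i) (hl : c l = bl i) {u : Tn κ B}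
    (hu : u ∈ Cl p c) : sw ρ i k l (sw ρ i k l u) = u := by
  have h1 := LinearMap.congr_fun (h.sw_sq i hkl) u
  rw [Module.End.mul_apply, Module.End.mul_apply] at h1
  rw [h1]
  unfold rs
  rw [h.one]
  have h2 := hu l
  have h3 := hu k
  rw [hl] at h2
  rw [hk] at h3
  rw [h2, h3]

theorem sw_disj (i : I) {k l m n : κ} (hmn : m ≠ k) (h2 : m ≠ l) (h3 : n ≠ k) (h4 : n ≠ l) :
    sw ρ i k l * sw ρ i m n = sw ρ i m n * sw ρ i k l := by
  conv_lhs => rw [show sw ρ i k l * sw ρ i m n = sw ρ i k l *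
    ∑ a, ∑ b, rs ρ i (mu a b) m * rs ρ i (mu b a) n from rfl]
  conv_rhs => rw [show sw ρ i m n * sw ρ i k l =
    (∑ a, ∑ b, rs ρ i (mu a b) m * rs ρ i (mu b a) n) * sw ρ i k l from rfl]
  rw [Finset.mul_sum, Finset.sum_mul]
  refine Finset.sum_congr rfl fun a _ => ?_
  rw [Finset.mul_sum, Finset.sum_mul]
  refine Finset.sum_congr rfl fun b _ => ?_
  have e1 := h.sw_sl i (k := k) (l := l) (m := m) hmn h2 (ρ i (mu a b))
  have e2 := h.sw_sl i (k := k) (l := l) (m := n) h3 h4 (ρ i (mu b a))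
  unfold rs
  rw [← mul_assoc, e1, mul_assoc, e2, ← mul_assoc]

/-- The symmetrizer of the factor `i` in the slots of a finite set of slots. -/
theorem exists_sym (i : I) (K : Finset κ) (hK : ∀ k ∈ K, c k = bl i) :
    ∃ e : OpT κ B, Ok ρ p e ∧ (∀ i', i ≠ i' → Fre ρ i' e) ∧
      (∀ k ∈ K, ∀ l ∈ K, k ≠ l → ∀ u ∈ Cl p c, sw ρ i k l (e u) = e u) ∧
      ∀ N : Submodule ℂ (Tn κ B), Sta ρ i K N → ∀ u,
        (∀ k ∈ K, ∀ l ∈ K, k ≠ l → sw ρ i k l u - u ∈ N) → e u - u ∈ N := by
  induction K using Finset.induction_on with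
  | empty =>
    refine ⟨1, Ok.one, fun _ _ => Fre.one _, fun k hk => absurd hk (Finset.notMem_empty k),
      fun N _ u _ => ?_⟩
    rw [Module.End.one_apply, sub_self]
    exact N.zero_mem
  | insert n K hn ih =>
    obtain ⟨e, h1, h2, h3, h4⟩ := ih fun k hk => hK k (Finset.mem_insert_of_mem hk)
    have hnc : c n = bl i := hK n (Finset.mem_insert_self n K)
    have hne : ∀ q ∈ K, q ≠ n := fun q hq h0 => hn (h0 ▸ hq)
    let T : OpT κ B := 1 + ∑ q ∈ K, sw ρ i q n
    have hT : Ok ρ p T := Ok.one.add (Ok.sum _ _ fun q hq => h.sw_ok i (hne q hq))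
    have hT' : ∀ i', i ≠ i' → Fre ρ i' T := fun i' hi =>
      (Fre.one i').add (Fre.sum _ _ fun q _ => h.sw_fre hi q n)
    have hr : ((K.card : ℂ) + 1) ≠ 0 := by exact_mod_cast Nat.succ_ne_zero K.card
    refine ⟨((K.card : ℂ) + 1)⁻¹ • (T * e), (hT.mul h1).smul _,
      fun i' hi => ((hT' i' hi).mul (h2 i' hi)).smul _, ?_, ?_⟩
    · -- the symmetry
      have key1 : ∀ a ∈ K, ∀ u ∈ Cl p c, sw ρ i a n (T (e u)) = T (e u) := by
        intro a ha u hu
        have hac : c a = bl i := hK a (Finset.mem_insert_of_mem ha)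
        have hev : e u ∈ Cl p c := h1.mem hu
        have e1 : T (e u) = e u + (sw ρ i a n (e u) + ∑ q ∈ K.erase a, sw ρ i q n (e u)) := by
          change (1 + ∑ q ∈ K, sw ρ i q n : OpT κ B) (e u) = _
          rw [LinearMap.add_apply, LinearMap.sum_apply, Module.End.one_apply,
            Finset.add_sum_erase K (fun q => sw ρ i q n (e u)) ha]
        rw [e1, map_add, map_add, h.sw_inv i (hne a ha) hac hnc hev, map_sum]
        have e2 : ∀ q ∈ K.erase a, sw ρ i a n (sw ρ i q n (e u)) = sw ρ i q n (e u) := by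
          intro q hq
          have hqa : q ≠ a := Finset.ne_of_mem_erase hq
          have hqK : q ∈ K := Finset.mem_of_mem_erase hq
          have e3 := h.sw_sw (κ := κ) i (k := q) (l := a) (m := n) hqa (Ne.symm (hne q hqK))
            (Ne.symm (hne a ha))
          rw [sw_symm i (Ne.symm (hne a ha))] at e3
          have e4 := LinearMap.congr_fun e3 (e u)
          rw [Module.End.mul_apply, Module.End.mul_apply, h3 q hqK a ha hqa u hu] at e4
          exact e4.symm
        rw [Finset.sum_congr rfl e2]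
        abel
      have key2 : ∀ a ∈ K, ∀ b ∈ K, a ≠ b → ∀ u ∈ Cl p c, sw ρ i a b (T (e u)) = T (e u) := by
        intro a ha b hb hab u hu
        have e1 : T (e u) = e u + ∑ q ∈ K, sw ρ i q n (e u) := by
          change (1 + ∑ q ∈ K, sw ρ i q n : OpT κ B) (e u) = _
          rw [LinearMap.add_apply, LinearMap.sum_apply, Module.End.one_apply]
        rw [e1, map_add, h3 a ha b hb hab u hu, map_sum]
        congr 1
        have hsw : ∀ q ∈ K, Equiv.swap a b q ∈ K := by
          intro q hq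
          rw [Equiv.swap_apply_def]
          split_ifs
          · exact hb
          · exact ha
          · exact hq
        refine Finset.sum_nbij' (Equiv.swap a b) (Equiv.swap a b) hsw hsw
          (fun q _ => Equiv.swap_apply_self a b q) (fun q _ => Equiv.swap_apply_self a b q) ?_
        intro q hq
        by_cases hqa : q = a
        · subst hqa
          rw [Equiv.swap_apply_left]
          have e3 := h.sw_sw (κ := κ) i (k := q) (l := n) (m := b) (hne q hq) (Ne.symm hab) (hne b hb)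
          have e4 := LinearMap.congr_fun e3 (e u)
          rw [Module.End.mul_apply, Module.End.mul_apply, h3 q ha b hb hab u hu] at e4
          exact e4
        · by_cases hqb : q = b
          · subst hqb
            rw [Equiv.swap_apply_right]
            have e3 := h.sw_sw (κ := κ) i (k := q) (l := n) (m := a) (hne q hq) hab (hne a ha)
            have e4 := LinearMap.congr_fun e3 (e u)
            rw [Module.End.mul_apply, Module.End.mul_apply, h3 q hb a ha (Ne.symm hab) u hu,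
              sw_symm i (Ne.symm hab)] at e4
            exact e4
          · rw [Equiv.swap_apply_of_ne_of_ne hqa hqb]
            have e3 := h.sw_disj (κ := κ) i (k := a) (l := b) (m := q) (n := n) hqa hqb
              (Ne.symm (hne a ha)) (Ne.symm (hne b hb))
            have e4 := LinearMap.congr_fun e3 (e u)
            rw [Module.End.mul_apply, Module.End.mul_apply, h3 a ha b hb hab u hu] at e4
            exact e4
      intro k hk l hl hkl u hu
      rw [LinearMap.smul_apply, map_smul, Module.End.mul_apply]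
      congr 1
      rcases Finset.mem_insert.1 hk with rfl | hk'
      · rcases Finset.mem_insert.1 hl with rfl | hl'
        · exact absurd rfl hkl
        · rw [sw_symm i hkl]
          exact key1 l hl' u hu
      · rcases Finset.mem_insert.1 hl with rfl | hl'
        · exact key1 k hk' u hu
        · exact key2 k hk' l hl' hkl u hu
    · -- the unit
      intro N hN u hu
      have e0 : e u - u ∈ N := h4 N (fun k hk l hl => hN k (Finset.mem_insert_of_mem hk) l
        (Finset.mem_insert_of_mem hl)) u fun k hk l hl => hu k (Finset.mem_insert_of_mem hk) l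
          (Finset.mem_insert_of_mem hl)
      have e1 : ∀ q ∈ K, sw ρ i q n (e u) - u ∈ N := by
        intro q hq
        have e2 : sw ρ i q n (e u) - u = sw ρ i q n (e u - u) + (sw ρ i q n u - u) := by
          rw [map_sub]
          abel
        rw [e2]
        exact N.add_mem (hN q (Finset.mem_insert_of_mem hq) n (Finset.mem_insert_self n K) (hne q hq)
          _ e0) (hu q (Finset.mem_insert_of_mem hq) n (Finset.mem_insert_self n K) (hne q hq))
      have e3 : (((K.card : ℂ) + 1)⁻¹ • (T * e)) u - u =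
          ((K.card : ℂ) + 1)⁻¹ • ((e u - u) + ∑ q ∈ K, (sw ρ i q n (e u) - u)) := by
        have e4 : T (e u) = e u + ∑ q ∈ K, sw ρ i q n (e u) := by
          change (1 + ∑ q ∈ K, sw ρ i q n : OpT κ B) (e u) = _
          rw [LinearMap.add_apply, LinearMap.sum_apply, Module.End.one_apply]
        rw [LinearMap.smul_apply, Module.End.mul_apply, e4, Finset.sum_sub_distrib,
          Finset.sum_const, ← Nat.cast_smul_eq_nsmul ℂ]
        have e5 : u = ((K.card : ℂ) + 1)⁻¹ • (((K.card : ℂ) + 1) • u) := by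
          rw [smul_smul, inv_mul_cancel₀ hr, one_smul]
        nth_rewrite 3 [e5]
        rw [← smul_sub]
        congr 1
        rw [add_smul, one_smul]
        abel
      rw [e3]
      exact N.smul_mem _ (N.add_mem e0 (N.sum_mem e1))

/-- The moves: a pair of slots can be moved to another pair. -/
theorem exists_move (i : I) (K : Finset κ) (hK : ∀ k ∈ K, c k = bl i) {k₀ l₀ : κ} (hk₀ : k₀ ∈ K)
    (hl₀ : l₀ ∈ K) (hkl₀ : k₀ ≠ l₀) {k l : κ} (hk : k ∈ K) (hl : l ∈ K) (hkl : k ≠ l) :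
    ∃ π π' : OpT κ B, Ok ρ p π ∧ (∀ i', i ≠ i' → Fre ρ i' π) ∧
      (∀ N, Sta ρ i K N → ∀ v ∈ N, π' v ∈ N) ∧
      (∀ v ∈ Cl p c, π' (π v) = v) ∧ ∀ v ∈ Cl p c, π' (sw ρ i k₀ l₀ (π v)) = sw ρ i k l v := by
  -- the property of the pair
  let P : κ → κ → Prop := fun k l => ∃ π π' : OpT κ B, Ok ρ p π ∧ (∀ i', i ≠ i' → Fre ρ i' π) ∧
      (∀ N, Sta ρ i K N → ∀ v ∈ N, π' v ∈ N) ∧
      (∀ v ∈ Cl p c, π' (π v) = v) ∧ ∀ v ∈ Cl p c, π' (sw ρ i k₀ l₀ (π v)) = sw ρ i k l v
  have hP0 : P k₀ l₀ := ⟨1, 1, Ok.one, fun _ _ => Fre.one _,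
    fun _ _ v hv => hv, fun _ _ => rfl, fun _ _ => rfl⟩
  have hPs : ∀ k l, k ≠ l → P k l → P l k := by
    rintro k l hkl ⟨π, π', h1, h2, h4, h5, h6⟩
    exact ⟨π, π', h1, h2, h4, h5, fun v hv => (h6 v hv).trans (by rw [sw_symm i hkl])⟩
  have hPm : ∀ k l m, k ∈ K → l ∈ K → m ∈ K → k ≠ l → m ≠ k → m ≠ l → P k l → P m l := by
    rintro k l m hk hl hm hkl hmk hml ⟨π, π', h1, h2, h4, h5, h6⟩
    refine ⟨π * sw ρ i k m, sw ρ i k m * π', h1.mul (h.sw_ok i hmk.symm),
      fun i' hi => (h2 i' hi).mul (h.sw_fre hi _ _),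
      fun N hN v hv => hN k hk m hm hmk.symm _ (h4 N hN v hv), fun v hv => ?_, fun v hv => ?_⟩
    · rw [Module.End.mul_apply, Module.End.mul_apply, h5 _ ((h.sw_ok i hmk.symm).mem hv),
        h.sw_inv i hmk.symm (hK k hk) (hK m hm) hv]
    · rw [Module.End.mul_apply, Module.End.mul_apply, h6 _ ((h.sw_ok i hmk.symm).mem hv)]
      have e3 := h.sw_sw (κ := κ) i (k := k) (l := l) (m := m) hkl hmk hml
      have e4 := LinearMap.congr_fun e3 (sw ρ i k m v)
      rw [Module.End.mul_apply, Module.End.mul_apply,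
        h.sw_inv i hmk.symm (hK k hk) (hK m hm) hv] at e4
      exact e4
  by_cases h1 : l = l₀
  · subst h1
    by_cases h2 : k = k₀
    · subst h2
      exact hP0
    · exact hPm k₀ l k hk₀ hl hk hkl₀ h2 hkl hP0
  · by_cases h2 : l = k₀
    · subst h2
      by_cases h3 : k = l₀
      · subst h3
        exact hPs _ _ hkl₀ hP0
      · exact hPm l₀ l k hl₀ hl hk (Ne.symm hkl₀) h3 hkl (hPs _ _ hkl₀ hP0)
    · have h3 : P k₀ l := hPs _ _ h2 (hPm l₀ k₀ l hl₀ hk₀ hl (Ne.symm hkl₀) h1 h2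
        (hPs _ _ hkl₀ hP0))
      by_cases h4 : k = k₀
      · subst h4
        exact h3
      · exact hPm k₀ l k hk₀ hl hk (Ne.symm h2) h4 hkl h3

/-- The factors of the other blocks act by zero. -/
theorem rs_zero {i : I} {k : κ} (hk : bl i ≠ c k) {u : Tn κ B} (hu : u ∈ Cl p c)
    (X : Matrix (Fin 2) (Fin 2) ℂ) : rs ρ i X k u = 0 := by
  rw [← hu k, ← Module.End.mul_apply]
  unfold rs
  rw [sl_mul, h.p_mul_ne hk, sl_zero, LinearMap.zero_apply]

/-- The conditions on a space `U₁` of tensors and a subspace of tensors `N₀` which is regarded as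
zero: `N₀` is stable under the exchanges, and the operators with image in the tensors which are
invariant in two slots map `U₁` to `N₀`. -/
structure Sit (bl : I → J) (ρ : I → Matrix (Fin 2) (Fin 2) ℂ →ₗ[ℂ] Matrix B B ℂ)
    (p : J → Matrix B B ℂ) (c : κ → J) (U₁ N₀ : Submodule ℂ (Tn κ B)) : Prop where
  col : U₁ ≤ Cl p c
  stN : ∀ i K, (∀ k ∈ K, c k = bl i) → Sta ρ i K N₀
  kill : ∀ k l, k ≠ l → c k = c l → ∀ a : OpT κ B, Ok ρ p a →
    (∀ v ∈ Cl p c, ∀ i X, Matrix.trace X = 0 → (rs ρ i X k + rs ρ i X l) (a v) = 0) →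
    ∀ u ∈ U₁, a u ∈ N₀

variable {U₁ N₀ : Submodule ℂ (Tn κ B)}

omit h in
theorem _root_.Pool.Agent.H841.MS.mem_block [Fintype I] [DecidableEq J] {i : I} {j : J} :
    i ∈ Finset.univ.filter (fun i => bl i = j) ↔ bl i = j := by
  rw [Finset.mem_filter]
  exact ⟨fun h => h.2, fun h => ⟨Finset.mem_univ i, h⟩⟩

/-- The factor in which a tensor is symmetric, for one block. -/
theorem block [Fintype I] [DecidableEq I] [DecidableEq J] (hS : Sit bl ρ p c U₁ N₀) (j : J)
    (hj : ∃ i, bl i = j) (a : OpT κ B) (ha : Ok ρ p a) (hne : ∃ u ∈ U₁, a u ∉ N₀) :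
    ∃ i, bl i = j ∧ ∃ b : OpT κ B, Ok ρ p b ∧ (∀ i', bl i' ≠ j → Fre ρ i' b) ∧
      (∃ u ∈ U₁, (b * a) u ∉ N₀) ∧
      ∀ k l, k ≠ l → c k = j → c l = j → ∀ u ∈ U₁, sw ρ i k l ((b * a) u) = (b * a) u := by
  by_contra hcon
  by_cases hK : ∃ k₀ l₀ : κ, k₀ ≠ l₀ ∧ c k₀ = j ∧ c l₀ = j
  swap
  · apply hcon
    obtain ⟨i, hi⟩ := hj
    refine ⟨i, hi, 1, Ok.one, fun i' _ => Fre.one i', ?_, fun k l hkl hk hl => ?_⟩
    · rw [one_mul]
      exact hne
    · exact absurd ⟨k, l, hkl, hk, hl⟩ hK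
  obtain ⟨k₀, l₀, hkl₀, hk₀, hl₀⟩ := hK
  let K : Finset κ := Finset.univ.filter fun k => c k = j
  have hKm : ∀ k, k ∈ K ↔ c k = j := fun k => by
    rw [Finset.mem_filter]
    exact ⟨fun h => h.2, fun h => ⟨Finset.mem_univ k, h⟩⟩
  -- the induction
  have key : ∀ S : Finset I, (∀ i ∈ S, bl i = j) → ∃ q : OpT κ B, Ok ρ p q ∧
      (∀ i', i' ∉ S → Fre ρ i' q) ∧ (∃ u ∈ U₁, (q * a) u ∉ N₀) ∧
      ∀ i ∈ S, ∀ v ∈ Cl p c, ∀ X, Matrix.trace X = 0 →
        (rs ρ i X k₀ + rs ρ i X l₀) (q v) = 0 := by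
    intro S
    induction S using Finset.induction_on with
    | empty =>
      intro _
      refine ⟨1, Ok.one, fun i' _ => Fre.one i', ?_, fun i hi => absurd hi (Finset.notMem_empty i)⟩
      rw [one_mul]
      exact hne
    | insert i S hiS ih =>
      intro hS'
      obtain ⟨q, hq1, hq2, hq3, hq4⟩ := ih fun i' hi' => hS' i' (Finset.mem_insert_of_mem hi')
      have hij : bl i = j := hS' i (Finset.mem_insert_self i S)
      have hKc : ∀ k ∈ K, c k = bl i := fun k hk => by rw [hij]; exact (hKm k).1 hk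
      obtain ⟨e, he1, he2, he3, he4⟩ := h.exists_sym (c := c) i K hKc
      -- not symmetric modulo `N₀`
      have h1 : ¬ ∀ k ∈ K, ∀ l ∈ K, k ≠ l → ∀ u ∈ U₁, sw ρ i k l ((q * a) u) - (q * a) u ∈ N₀ := by
        intro h2
        apply hcon
        refine ⟨i, hij, e * q, he1.mul hq1, fun i' hi' => (he2 i' ?_).mul (hq2 i' ?_), ?_, ?_⟩
        · rintro rfl
          exact hi' hij
        · intro h3
          exact hi' (hS' i' (Finset.mem_insert_of_mem h3))
        · obtain ⟨u, hu, hu'⟩ := hq3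
          refine ⟨u, hu, fun h5 => hu' ?_⟩
          have h6 := he4 N₀ (hS.stN i K hKc) ((q * a) u) fun k hk l hl hkl => h2 k hk l hl hkl u hu
          rw [mul_assoc, Module.End.mul_apply] at h5
          have h7 := N₀.sub_mem h5 h6
          rwa [sub_sub_cancel] at h7
        · intro k l hkl hk hl u hu
          rw [mul_assoc, Module.End.mul_apply]
          exact he3 k ((hKm k).2 hk) l ((hKm l).2 hl) hkl _ ((hq1.mul ha).mem (hS.col hu))
      push Not at h1
      obtain ⟨k, hk, l, hl, hkl, u, hu, hun⟩ := h1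
      obtain ⟨π, π', g1, g2, g4, g5, g6⟩ := h.exists_move (c := c) i K hKc ((hKm k₀).2 hk₀)
        ((hKm l₀).2 hl₀) hkl₀ hk hl hkl
      refine ⟨(1 - sw ρ i k₀ l₀) * (π * q), (Ok.one.sub (h.sw_ok i hkl₀)).mul (g1.mul hq1),
        fun i' hi' => ?_, ⟨u, hu, fun h2 => hun ?_⟩, fun i' hi' v hv X hX => ?_⟩
      · have hne' : i ≠ i' := by
          rintro rfl
          exact hi' (Finset.mem_insert_self i S)
        refine Fre.mul ((Fre.one i').sub (h.sw_fre hne' _ _)) ((g2 i' hne').mul (hq2 i' ?_))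
        exact fun h3 => hi' (Finset.mem_insert_of_mem h3)
      · have hmem : (q * a) u ∈ Cl p c := (hq1.mul ha).mem (hS.col hu)
        have e1 : ((1 - sw ρ i k₀ l₀) * (π * q) * a) u =
            π ((q * a) u) - sw ρ i k₀ l₀ (π ((q * a) u)) := rfl
        rw [e1] at h2
        have h3 := g4 N₀ (hS.stN i K hKc) _ h2
        rw [map_sub, g5 _ hmem, g6 _ hmem] at h3
        have h4 := N₀.neg_mem h3
        rwa [neg_sub] at h4
      · rcases Finset.mem_insert.1 hi' with rfl | hi'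
        · have hqv : (π * q) v ∈ Cl p c := (g1.mul hq1).mem hv
          have e1 := LinearMap.congr_fun (h.rs_anti i' hkl₀ X hX) ((π * q) v)
          have e0 : (rs ρ i' X k₀ * rs ρ i' 1 l₀ + rs ρ i' 1 k₀ * rs ρ i' X l₀) ((π * q) v) =
              rs ρ i' X k₀ (rs ρ i' 1 l₀ ((π * q) v)) + rs ρ i' 1 k₀ (rs ρ i' X l₀ ((π * q) v)) := rfl
          rw [Module.End.mul_apply, e0] at e1
          have e2 : ∀ m, c m = j → rs ρ i' 1 m ((π * q) v) = (π * q) v := by
            intro m hm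
            unfold rs
            rw [h.one, hij, ← hm]
            exact hqv m
          have e3 : rs ρ i' 1 k₀ (rs ρ i' X l₀ ((π * q) v)) = rs ρ i' X l₀ ((π * q) v) := by
            rw [← Module.End.mul_apply, rs_comm_ne i' i' _ _ hkl₀, Module.End.mul_apply, e2 k₀ hk₀]
          rw [e2 l₀ hl₀, e3] at e1
          rw [Module.End.mul_apply, LinearMap.sub_apply, Module.End.one_apply, map_sub, e1,
            LinearMap.add_apply, sub_self]
        · have hne' : i ≠ i' := by
            rintro rfl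
            exact hiS hi'
          have e1 := h.sw_rs_ne hne' k₀ l₀ k₀ X
          have e2 := h.sw_rs_ne hne' k₀ l₀ l₀ X
          have e3 : (rs ρ i' X k₀ + rs ρ i' X l₀) * (1 - sw ρ i k₀ l₀) =
              (1 - sw ρ i k₀ l₀) * (rs ρ i' X k₀ + rs ρ i' X l₀) := by
            rw [mul_sub, sub_mul, mul_one, one_mul, mul_add, add_mul, e1, e2]
          have e4 : (rs ρ i' X k₀ + rs ρ i' X l₀) * π = π * (rs ρ i' X k₀ + rs ρ i' X l₀) := by
            rw [mul_add, add_mul, g2 i' hne', g2 i' hne']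
          have e5 : (rs ρ i' X k₀ + rs ρ i' X l₀) * ((1 - sw ρ i k₀ l₀) * (π * q)) =
              (1 - sw ρ i k₀ l₀) * (π * ((rs ρ i' X k₀ + rs ρ i' X l₀) * q)) := by
            rw [← mul_assoc, e3, mul_assoc, ← mul_assoc _ π, e4, mul_assoc]
          have e6 : (rs ρ i' X k₀ + rs ρ i' X l₀) (((1 - sw ρ i k₀ l₀) * (π * q)) v) =
              (1 - sw ρ i k₀ l₀) (π ((rs ρ i' X k₀ + rs ρ i' X l₀) (q v))) :=
            LinearMap.congr_fun e5 v
          rw [hq4 i' hi' v hv X hX, map_zero, map_zero] at e6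
          exact e6
  obtain ⟨q, hq1, -, ⟨u, hu, hu'⟩, hq4⟩ := key (Finset.univ.filter fun i => bl i = j)
    fun i hi => mem_block.1 hi
  apply hu'
  refine hS.kill k₀ l₀ hkl₀ (hk₀.trans hl₀.symm) (q * a) (hq1.mul ha) (fun v hv i X hX => ?_) u hu
  by_cases hi : bl i = j
  · exact hq4 i (mem_block.2 hi) (a v) (ha.mem hv) X hX
  · have hv' : (q * a) v ∈ Cl p c := (hq1.mul ha).mem hv
    rw [LinearMap.add_apply, h.rs_zero (by rw [hk₀]; exact hi) hv', h.rs_zero
      (by rw [hl₀]; exact hi) hv', add_zero]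

/-- The factors in which a tensor is symmetric, for all blocks. -/
theorem all_blocks [Fintype I] [DecidableEq I] [Fintype J] [DecidableEq J]
    (hsurj : Function.Surjective bl) (hS : Sit bl ρ p c U₁ N₀) (hne : ∃ u ∈ U₁, u ∉ N₀) :
    ∃ t : J → I, (∀ j, bl (t j) = j) ∧ ∃ a : OpT κ B, Ok ρ p a ∧ (∃ u ∈ U₁, a u ∉ N₀) ∧
      ∀ k l, k ≠ l → c k = c l → ∀ u ∈ U₁, sw ρ (t (c k)) k l (a u) = a u := by
  choose t₀ ht₀ using hsurj
  have key : ∀ T : Finset J, ∃ t : J → I, (∀ j, bl (t j) = j) ∧ ∃ a : OpT κ B, Ok ρ p a ∧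
      (∃ u ∈ U₁, a u ∉ N₀) ∧
      ∀ j ∈ T, ∀ k l, k ≠ l → c k = j → c l = j → ∀ u ∈ U₁, sw ρ (t j) k l (a u) = a u := by
    intro T
    induction T using Finset.induction_on with
    | empty =>
      exact ⟨t₀, ht₀, 1, Ok.one, hne, fun j hj => absurd hj (Finset.notMem_empty j)⟩
    | insert j T hj ih =>
      obtain ⟨t, ht, a, ha1, ha3, ha4⟩ := ih
      obtain ⟨i, hi, b, hb1, hb2, hb3, hb4⟩ := h.block hS j ⟨t₀ j, ht₀ j⟩ a ha1 ha3
      refine ⟨Function.update t j i, fun j' => ?_, b * a, hb1.mul ha1, hb3, ?_⟩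
      · by_cases h1 : j' = j
        · subst h1
          rw [Function.update_self, hi]
        · rw [Function.update_of_ne h1, ht]
      · intro j' hj' k l hkl hk hl u hu
        by_cases h1 : j' = j
        · subst h1
          rw [Function.update_self]
          exact hb4 k l hkl hk hl u hu
        · rw [Function.update_of_ne h1]
          have h2 : j' ∈ T := (Finset.mem_insert.1 hj').resolve_left h1
          have h3 : Fre ρ (t j') b := hb2 _ (by rw [ht]; exact h1)
          rw [Module.End.mul_apply, ← Module.End.mul_apply, ← h3.sw, Module.End.mul_apply,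
            ha4 j' h2 k l hkl hk hl u hu]
  obtain ⟨t, ht, a, ha1, ha3, ha4⟩ := key Finset.univ
  exact ⟨t, ht, a, ha1, ha3, fun k l hkl hcl u hu => ha4 (c k) (Finset.mem_univ _) k l hkl rfl
    hcl.symm u hu⟩

end MSH

end

end Pool.Agent.H841.MS
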